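import Pool.Agent.W619.PQ.Genus

/-!
Images of products of curves: the values of regular differentials and their combinations.
-/

set_option autoImplicit false
set_option linter.overlappingInstances false
set_option linter.unusedSectionVars false

open FF Pool.Agent.W603.LV

namespace Pool.Agent.Helper320.PC

/-- The differential whose value on the vector field `D` is `c` is regular at all places. -/
def IsRegD {k F : Type} [Field k] [Field F] [Algebra k F] (D : Derivation k F F) (c : F) : Prop :=
  ∀ P : Place k F, Ge P (vo P D) c

/-- The space of the functions of a point `σ` of the curve in `Ω`, which is generated by the values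
`σ c` of the `c` with `IsRegD D c`. -/
def Wsp {k F : Type} [Field k] [Field F] [Algebra k F] (Ω : Type) [Field Ω] [Algebra k Ω]
    (D : Derivation k F F) : Submodule Ω ((F →ₐ[k] Ω) → Ω) :=
  Submodule.span Ω (Set.range fun c : {c : F // IsRegD D c} => fun σ : F →ₐ[k] Ω => σ c.1)

/-- The gonality of the curve is at least `γ`. -/
def GonGe (k F : Type) [Field k] [Field F] [Algebra k F] (γ : ℕ) : Prop :=
  ∀ t : F, Transcendental k t → γ ≤ Module.finrank (IntermediateField.adjoin k {t}) F

end Pool.Agent.Helper320.PC
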