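import Pool.Agent.Helper320.PC.Base

/-!
Images of products of curves: statements.
-/

set_option autoImplicit false
set_option linter.overlappingInstances false
set_option linter.unusedSectionVars false

open FF Pool.Agent.W603.LV

namespace Pool.Agent.Helper320.PC

/-- combinatorics of separation -/
def S_CBC : Prop :=
  ∀ {ι κ : Type} [Fintype ι] [Nonempty ι] [DecidableEq ι] [Fintype κ] [DecidableEq κ] {X : κ → Type}
    {R : Type} [Field R] (p : ∀ i, ι → X i) (_ : ∀ σ τ, (∀ i, p i σ = p i τ) → σ = τ) (μ : κ → ℕ)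
    (W : ∀ i, Set (X i → R))
    (_ : ∀ i (T : Finset (X i)) (q : X i), q ∉ T → T.card ≤ μ i →
      ∃ w ∈ W i, w q ≠ 0 ∧ ∀ t ∈ T, w t = 0)
    (c : ι → R) (_ : ∀ σ, c σ ≠ 0)
    (_ : ∀ w : ∀ i, X i → R, (∀ i, w i ∈ W i) → ∑ σ, c σ * ∏ i, w i (p i σ) = 0)
    (_ : ∀ i j, i ≠ j → Fintype.card ι ≤ μ i + μ j + 1)
    (_ : ∀ i, Fintype.card ι ≤ 2 * μ i + 3 ∨ ∀ j, j = i),
    ∃ i, μ i + 2 ≤ Fintype.card ι ∧ ∀ j, j ≠ i → ∀ σ τ, p j σ = p j τ

/-- Riemann-Roch for simple points on a curve of given gonality -/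
def S_RRS : Prop :=
  ∀ {k F : Type} [Field k] [Field F] [Algebra k F] [CharZero k] [IsFF k F] [IsAlgClosed k]
    {T : Finset (Place k F)} {P : Place k F} (_ : P ∉ T)
    (_ : ∀ t : F, Transcendental k t →
      T.card + 2 ≤ Module.finrank (IntermediateField.adjoin k {t}) F)
    {D : Derivation k F F} (_ : D ≠ 0),
    ∃ f : F, f ≠ 0 ∧ (∀ Q : Place k F, vo Q D ≤ Q.ord f) ∧ P.ord f = vo P D ∧
      ∀ Q ∈ T, vo Q D + 1 ≤ Q.ord f

/-- separation of the points of a curve over an arbitrary extension of the field of constants -/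
def S_SEP : Prop :=
  ∀ {k F Ω : Type} [Field k] [Field F] [Algebra k F] [CharZero k] [IsFF k F] [IsAlgClosed k]
    [Field Ω] [Algebra k Ω] {T : Finset (F →ₐ[k] Ω)} {q : F →ₐ[k] Ω} (_ : q ∉ T)
    (_ : ∀ t : F, Transcendental k t →
      T.card + 2 ≤ Module.finrank (IntermediateField.adjoin k {t}) F)
    {D : Derivation k F F} (_ : D ≠ 0),
    ∃ w ∈ Wsp Ω D, w q ≠ 0 ∧ ∀ t ∈ T, w t = 0

/-- the relation between the embeddings -/
def S_MUL : Prop :=
  ∀ {k K L Ω : Type} [Field k] [Field K] [Field L] [Field Ω] [CharZero L] [Algebra k K]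
    [Algebra k L] [Algebra L K] [IsScalarTower k L K] [Algebra k Ω] [Algebra L Ω]
    [IsScalarTower k L Ω] [FiniteDimensional L K] [IsAlgClosed Ω] {n : ℕ}
    (F : Fin n → IntermediateField k K) (D : ∀ i, Derivation k (F i) (F i)) (δ : K)
    (_ : ∀ c : ∀ i, F i, (∀ i, IsRegD (D i) (c i)) →
      Algebra.trace L K ((∏ i, (c i : K)) * δ) = 0)
    (w : ∀ i, (F i →ₐ[k] Ω) → Ω) (_ : ∀ i, w i ∈ Wsp Ω (D i)),
    ∑ σ : K →ₐ[L] Ω, σ δ * ∏ i, w i ((σ.restrictScalars k).comp (F i).val) = 0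

/-- elements which are fixed by all embeddings -/
def S_FIX : Prop :=
  ∀ {K L Ω : Type} [Field K] [Field L] [Field Ω] [CharZero L] [Algebra L K] [Algebra L Ω]
    [FiniteDimensional L K] [IsAlgClosed Ω] (z : K)
    (_ : ∀ σ τ : K →ₐ[L] Ω, σ z = τ z), z ∈ Set.range (algebraMap L K)

end Pool.Agent.Helper320.PC
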