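import Mathlib
import Pool.Agent.Helper320.PC.Stm

/-!
Combinatorics of separation (JOB CBC).
-/

set_option autoImplicit false
set_option linter.unusedSectionVars false

namespace Pool.Agent.Helper320.PC

namespace CBC

open Finset

variable {ι κ : Type} [Fintype ι] [DecidableEq ι] [Fintype κ] [DecidableEq κ]
  {X : κ → Type} {R : Type} [Field R] (p : ∀ i, ι → X i)

/-- the number of the points assigned to `i` -/
def nn (s₀ : ι) (a : ι → κ) (i : κ) : ℕ := (univ.filter fun s => s ≠ s₀ ∧ a s = i).card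

/-- a small assignment gives a contradiction -/
theorem small {μ : κ → ℕ} {W : ∀ i, Set (X i → R)}
    (hsep : ∀ i (T : Finset (X i)) (q : X i), q ∉ T → T.card ≤ μ i →
      ∃ w ∈ W i, w q ≠ 0 ∧ ∀ t ∈ T, w t = 0)
    {c : ι → R} (hc : ∀ σ, c σ ≠ 0)
    (hrel : ∀ w : ∀ i, X i → R, (∀ i, w i ∈ W i) → ∑ σ, c σ * ∏ i, w i (p i σ) = 0)
    {s₀ : ι} {a : ι → κ} (ha : ∀ s, s ≠ s₀ → p (a s) s ≠ p (a s) s₀)
    (hN : ∀ i, nn s₀ a i ≤ μ i) : False := by
  classical
  have h1 : ∀ i, ∃ w ∈ W i, w (p i s₀) ≠ 0 ∧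
      ∀ t ∈ (univ.filter fun s => s ≠ s₀ ∧ a s = i).image (p i), w t = 0 := by
    intro i
    refine hsep i _ (p i s₀) ?_ (card_image_le.trans (hN i))
    intro h
    rw [mem_image] at h
    obtain ⟨s, hs, hs'⟩ := h
    rw [mem_filter] at hs
    obtain ⟨_, hs1, hs2⟩ := hs
    subst hs2
    exact ha s hs1 hs'
  choose w hw1 hw2 hw3 using h1
  have h2 := hrel w hw1
  rw [Finset.sum_eq_single s₀] at h2
  · rcases mul_eq_zero.1 h2 with h3 | h3
    · exact hc s₀ h3
    · rw [Finset.prod_eq_zero_iff] at h3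
      obtain ⟨i, _, hi⟩ := h3
      exact hw2 i hi
  · intro s _ hs
    rw [Finset.prod_eq_zero (mem_univ (a s)), mul_zero]
    exact hw3 (a s) _ (mem_image_of_mem _ (mem_filter.2 ⟨mem_univ s, hs, rfl⟩))
  · intro h
    exact absurd (mem_univ s₀) h

theorem nn_add {s₀ : ι} {a : ι → κ} {i j : κ} (hij : i ≠ j) :
    nn s₀ a i + nn s₀ a j + 1 ≤ Fintype.card ι := by
  unfold nn
  rw [← card_union_of_disjoint]
  · have h1 : ((univ.filter fun s => s ≠ s₀ ∧ a s = i) ∪
        (univ.filter fun s => s ≠ s₀ ∧ a s = j)) ⊆ univ.erase s₀ := by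
      intro s hs
      rw [mem_union, mem_filter, mem_filter] at hs
      rw [mem_erase]
      rcases hs with hs | hs
      · exact ⟨hs.2.1, mem_univ s⟩
      · exact ⟨hs.2.1, mem_univ s⟩
    have h2 := card_le_card h1
    rw [card_erase_of_mem (mem_univ s₀), card_univ] at h2
    have h3 : 0 < Fintype.card ι := Fintype.card_pos_iff.2 ⟨s₀⟩
    omega
  · rw [disjoint_left]
    intro s hs hs'
    rw [mem_filter] at hs hs'
    exact hij (hs.2.2.symm.trans hs'.2.2)

theorem nn_update {s₀ : ι} {a : ι → κ} {s : ι} (hs : s ≠ s₀) {i j : κ} (hi : a s = i)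
    (hij : j ≠ i) : nn s₀ (Function.update a s j) i + 1 = nn s₀ a i ∧
      nn s₀ (Function.update a s j) j = nn s₀ a j + 1 ∧
      ∀ l, l ≠ i → l ≠ j → nn s₀ (Function.update a s j) l = nn s₀ a l := by
  refine ⟨?_, ?_, ?_⟩
  · unfold nn
    have h1 : (univ.filter fun t => t ≠ s₀ ∧ a t = i) =
        insert s (univ.filter fun t => t ≠ s₀ ∧ Function.update a s j t = i) := by
      ext t
      rw [mem_insert, mem_filter, mem_filter]
      by_cases ht : t = s
      · subst ht
        simp [hs, hi]
      · rw [Function.update_of_ne ht]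
        simp [ht]
    rw [h1, card_insert_of_notMem]
    rw [mem_filter, Function.update_self]
    exact fun h => hij h.2.2
  · unfold nn
    have h1 : (univ.filter fun t => t ≠ s₀ ∧ Function.update a s j t = j) =
        insert s (univ.filter fun t => t ≠ s₀ ∧ a t = j) := by
      ext t
      rw [mem_insert, mem_filter, mem_filter]
      by_cases ht : t = s
      · subst ht
        simp [hs]
      · rw [Function.update_of_ne ht]
        simp [ht]
    rw [h1, card_insert_of_notMem]
    rw [mem_filter, hi]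
    exact fun h => hij h.2.2.symm
  · intro l hl hl'
    unfold nn
    congr 1
    ext t
    rw [mem_filter, mem_filter]
    by_cases ht : t = s
    · subst ht
      rw [Function.update_self, hi]
      simp [hl.symm, hl'.symm]
    · rw [Function.update_of_ne ht]

/-- the points which differ from `s₀` at most at `i` -/
noncomputable def ln (s₀ : ι) (i : κ) : Finset ι := by
  classical exact univ.filter fun s => ∀ j, j ≠ i → p j s = p j s₀

theorem mem_ln {s₀ : ι} {i : κ} {s : ι} : s ∈ ln p s₀ i ↔ ∀ j, j ≠ i → p j s = p j s₀ := by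
  unfold ln
  simp

theorem exists_line [Nonempty κ] (hinj : ∀ σ τ, (∀ i, p i σ = p i τ) → σ = τ)
    {μ : κ → ℕ} {W : ∀ i, Set (X i → R)}
    (hsep : ∀ i (T : Finset (X i)) (q : X i), q ∉ T → T.card ≤ μ i →
      ∃ w ∈ W i, w q ≠ 0 ∧ ∀ t ∈ T, w t = 0)
    {c : ι → R} (hc : ∀ σ, c σ ≠ 0)
    (hrel : ∀ w : ∀ i, X i → R, (∀ i, w i ∈ W i) → ∑ σ, c σ * ∏ i, w i (p i σ) = 0)
    (h1 : ∀ i j, i ≠ j → Fintype.card ι ≤ μ i + μ j + 1) (s₀ : ι) :
    ∃ i, μ i + 2 ≤ (ln p s₀ i).card := by
  classical
  by_contra hcon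
  push Not at hcon
  have key : ∀ m : ℕ, ∀ a : ι → κ, (∀ s, s ≠ s₀ → p (a s) s ≠ p (a s) s₀) →
      ∑ i, (nn s₀ a i - μ i) = m → False := by
    intro m
    induction m using Nat.strong_induction_on with
    | _ m ih =>
    intro a ha hm
    by_cases hall : ∀ i, nn s₀ a i ≤ μ i
    · exact small p hsep hc hrel ha hall
    · push Not at hall
      obtain ⟨i, hi⟩ := hall
      -- a point which can be assigned to another index
      have hex : ∃ s, s ≠ s₀ ∧ a s = i ∧ s ∉ ln p s₀ i := by
        by_contra hno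
        push Not at hno
        have hsub : insert s₀ (univ.filter fun s => s ≠ s₀ ∧ a s = i) ⊆ ln p s₀ i := by
          intro s hs
          rw [mem_insert] at hs
          rcases hs with hs | hs
          · rw [hs, mem_ln]
            intro j _
            rfl
          · rw [mem_filter] at hs
            exact hno s hs.2.1 hs.2.2
        have h2 := card_le_card hsub
        rw [card_insert_of_notMem (by simp)] at h2
        have h3 := hcon i
        unfold nn at hi
        omega
      obtain ⟨s, hs, hsi, hsl⟩ := hex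
      rw [mem_ln] at hsl
      push Not at hsl
      obtain ⟨j, hj, hpj⟩ := hsl
      obtain ⟨u1, u2, u3⟩ := nn_update hs hsi hj
      have hsum := nn_add (s₀ := s₀) (a := a) hj.symm
      have hμ := h1 i j hj.symm
      refine ih (∑ l, (nn s₀ (Function.update a s j) l - μ l)) ?_ (Function.update a s j) ?_ rfl
      · rw [← hm]
        refine Finset.sum_lt_sum (fun l _ => ?_) ⟨i, mem_univ i, by omega⟩
        by_cases hli : l = i
        · subst hli
          omega
        · by_cases hlj : l = j
          · subst hlj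
            omega
          · rw [u3 l hli hlj]
      · intro t ht
        by_cases hts : t = s
        · subst hts
          rw [Function.update_self]
          exact hpj
        · rw [Function.update_of_ne hts]
          exact ha t ht
  have hass : ∀ s, ∃ i, s ≠ s₀ → p i s ≠ p i s₀ := by
    intro s
    by_cases hs : s = s₀
    · exact ⟨Classical.arbitrary κ, fun h => absurd hs h⟩
    · by_contra hno
      push Not at hno
      exact hs (hinj s s₀ fun i => (hno i).2)
  choose a ha using hass
  exact key _ a ha rfl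

theorem cbc [Nonempty ι] (hinj : ∀ σ τ, (∀ i, p i σ = p i τ) → σ = τ)
    {μ : κ → ℕ} {W : ∀ i, Set (X i → R)}
    (hsep : ∀ i (T : Finset (X i)) (q : X i), q ∉ T → T.card ≤ μ i →
      ∃ w ∈ W i, w q ≠ 0 ∧ ∀ t ∈ T, w t = 0)
    {c : ι → R} (hc : ∀ σ, c σ ≠ 0)
    (hrel : ∀ w : ∀ i, X i → R, (∀ i, w i ∈ W i) → ∑ σ, c σ * ∏ i, w i (p i σ) = 0)
    (h1 : ∀ i j, i ≠ j → Fintype.card ι ≤ μ i + μ j + 1)
    (h2 : ∀ i, Fintype.card ι ≤ 2 * μ i + 3 ∨ ∀ j, j = i) :
    ∃ i, μ i + 2 ≤ Fintype.card ι ∧ ∀ j, j ≠ i → ∀ σ τ, p j σ = p j τ := by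
  classical
  obtain ⟨s₀⟩ := ‹Nonempty ι›
  rcases isEmpty_or_nonempty κ with hκ | hκ
  · exfalso
    have h3 := hrel (fun i => isEmptyElim i) (fun i => isEmptyElim i)
    rw [Finset.sum_eq_single s₀] at h3
    · rw [Finset.univ_eq_empty (α := κ), Finset.prod_empty, mul_one] at h3
      exact hc s₀ h3
    · intro s _ hs
      exact absurd (hinj s s₀ fun i => isEmptyElim i) hs
    · intro h
      exact absurd (mem_univ s₀) h
  have hline := exists_line p hinj hsep hc hrel h1
  obtain ⟨i, hi⟩ := hline s₀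
  by_cases hall : ∀ s, s ∈ ln p s₀ i
  · refine ⟨i, hi.trans (card_le_univ _), fun j hj σ τ => ?_⟩
    exact ((mem_ln p).1 (hall σ) j hj).trans ((mem_ln p).1 (hall τ) j hj).symm
  · exfalso
    push Not at hall
    obtain ⟨s₁, hs₁⟩ := hall
    obtain ⟨i₁, hi₁⟩ := hline s₁
    have hu : (ln p s₀ i ∪ ln p s₁ i₁).card ≤ Fintype.card ι := card_le_univ _
    have hui := card_union_add_card_inter (ln p s₀ i) (ln p s₁ i₁)
    by_cases hii : i₁ = i
    · subst hii
      have hdis : ln p s₀ i₁ ∩ ln p s₁ i₁ = ∅ := by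
        rw [Finset.eq_empty_iff_forall_notMem]
        intro s hs
        rw [mem_inter, mem_ln, mem_ln] at hs
        apply hs₁
        rw [mem_ln]
        intro j hj
        exact (hs.2 j hj).symm.trans (hs.1 j hj)
      rw [hdis, card_empty] at hui
      rcases h2 i₁ with h3 | h3
      · omega
      · apply hs₁
        rw [mem_ln]
        intro j hj
        exact absurd (h3 j) hj
    · have hle : (ln p s₀ i ∩ ln p s₁ i₁).card ≤ 1 := by
        rw [card_le_one]
        intro s hs t ht
        rw [mem_inter, mem_ln, mem_ln] at hs ht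
        refine hinj s t fun j => ?_
        by_cases hj : j = i
        · have hj1 : j ≠ i₁ := by
            rw [hj]
            exact fun h => hii h.symm
          exact (hs.2 j hj1).trans (ht.2 j hj1).symm
        · exact (hs.1 j hj).trans (ht.1 j hj).symm
      have h3 := h1 i i₁ (fun h => hii h.symm)
      omega

end CBC

/-- TARGET -/
theorem t_CBC : S_CBC := by
  intro ι κ _ _ _ _ _ X R _ p hinj μ W hsep c hc hrel h1 h2
  exact CBC.cbc p hinj hsep hc hrel h1 h2

end Pool.Agent.Helper320.PC
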