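import Pool.Agent.Helper320.PC.Stm3

/-!
Images of products of curves: the relation between the traces, with some factors of small degree.
Assembly.
-/

set_option autoImplicit false
set_option linter.overlappingInstances false
set_option linter.unusedSectionVars false

open FF Pool.Agent.W603.LV

namespace Pool.Agent.Helper320.PC

namespace CORE2

section general

variable {K L : Type} [Field K] [Field L] [Algebra L K]

/-- an embedding over `L` which is the inclusion on `L'` is `L'`-linear -/
theorem exists_lift (L' : IntermediateField L K) (σ : K →ₐ[L] AlgebraicClosure K)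
    (h : ∀ x : K, x ∈ L' → σ x = algebraMap K (AlgebraicClosure K) x) :
    ∃ τ : K →ₐ[L'] AlgebraicClosure K, τ.restrictScalars L = σ := by
  refine ⟨{ toRingHom := σ.toRingHom, commutes' := ?_ }, ?_⟩
  · intro x
    have h1 := h x x.2
    have h2 : algebraMap L' (AlgebraicClosure K) x =
        algebraMap K (AlgebraicClosure K) (algebraMap L' K x) :=
      IsScalarTower.algebraMap_apply L' K (AlgebraicClosure K) x
    rw [h2]
    exact h1
  · ext x
    rfl

theorem eq_on_adjoin (S : Set K) (σ : K →ₐ[L] AlgebraicClosure K)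
    (h : ∀ x ∈ S, σ x = algebraMap K (AlgebraicClosure K) x) (x : K)
    (hx : x ∈ IntermediateField.adjoin L S) :
    σ x = algebraMap K (AlgebraicClosure K) x := by
  induction hx using IntermediateField.adjoin_induction with
  | mem x hx => exact h x hx
  | algebraMap x =>
    rw [AlgHom.commutes]
    exact IsScalarTower.algebraMap_apply L K (AlgebraicClosure K) x
  | add x y _ _ hx hy => rw [map_add, map_add, hx, hy]
  | inv x _ hx => rw [map_inv₀, map_inv₀, hx]
  | mul x y _ _ hx hy => rw [map_mul, map_mul, hx, hy]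

end general

section

variable {K L : Type} [Field K] [Field L] [Algebra ℂ K] [Algebra ℂ L] [Algebra L K]
    [IsScalarTower ℂ L K] [FiniteDimensional L K]

/-- the number of the restrictions of the embeddings to a subfield -/
theorem card_image_le (F : IntermediateField ℂ K) [DecidableEq (F →ₐ[ℂ] AlgebraicClosure K)] :
    (Finset.univ.image fun σ : K →ₐ[L] AlgebraicClosure K =>
        (σ.restrictScalars ℂ).comp F.val).card ≤
      Module.finrank L (IntermediateField.adjoin L (F : Set K)) := by
  classical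
  have : CharZero L := charZero_of_injective_algebraMap (algebraMap ℂ L).injective
  set M := IntermediateField.adjoin L (F : Set K) with hM
  have hFM : ∀ z : F, (z : K) ∈ M := fun z => IntermediateField.subset_adjoin L _ z.2
  let r : (M →ₐ[L] AlgebraicClosure K) → (F → AlgebraicClosure K) :=
    fun ρ z => ρ ⟨z, hFM z⟩
  have hinj : Function.Injective fun (s : F →ₐ[ℂ] AlgebraicClosure K) (z : F) => s z := by
    intro s t hst
    ext z
    exact congrFun hst z
  have h1 : ((Finset.univ.image fun σ : K →ₐ[L] AlgebraicClosure K =>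
        (σ.restrictScalars ℂ).comp F.val).image
          fun (s : F →ₐ[ℂ] AlgebraicClosure K) (z : F) => s z) ⊆ Finset.univ.image r := by
    intro f hf
    rw [Finset.mem_image] at hf
    obtain ⟨s, hs, rfl⟩ := hf
    rw [Finset.mem_image] at hs
    obtain ⟨σ, -, rfl⟩ := hs
    rw [Finset.mem_image]
    refine ⟨σ.comp M.val, Finset.mem_univ _, ?_⟩
    funext z
    rfl
  rw [← Finset.card_image_of_injective _ hinj]
  refine (Finset.card_le_card h1).trans (Finset.card_image_le.trans ?_)
  rw [Finset.card_univ, AlgHom.card]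

end

end CORE2

open CORE2 in
theorem t_CORE2 (hCBC : S_CBC) (hSEP : S_SEP) (hMUL : S_MUL) (hFIX : S_FIX) : S_CORE2 := by
  classical
  intro K L _ _ _ _ _ _ _ n F _ htop I γ hγ L' hL' hI hγ2 D hD δ hδ hrel hsum hdich
  have cL : CharZero L := charZero_of_injective_algebraMap (algebraMap ℂ L).injective
  have cL' : CharZero L' := charZero_of_injective_algebraMap (algebraMap L L').injective
  have fd' : FiniteDimensional L' K := inferInstance
  -- the values of the embeddings
  let p : ∀ i, (K →ₐ[L] AlgebraicClosure K) → (F i →ₐ[ℂ] AlgebraicClosure K) :=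
    fun i σ => (σ.restrictScalars ℂ).comp (F i).val
  have hp : ∀ i σ (z : F i), p i σ z = σ z := fun i σ z => rfl
  let σ0 : K →ₐ[L] AlgebraicClosure K := IsScalarTower.toAlgHom L K (AlgebraicClosure K)
  have hσ0 : ∀ z, σ0 z = algebraMap K (AlgebraicClosure K) z := fun z => rfl
  let res : (K →ₐ[L'] AlgebraicClosure K) → (K →ₐ[L] AlgebraicClosure K) :=
    fun τ => τ.restrictScalars L
  have hres : ∀ τ z, res τ z = τ z := fun τ z => rfl
  have hresinj : Function.Injective res := by
    intro τ τ' h
    ext z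
    exact DFunLike.congr_fun h z
  have hFL' : ∀ i ∈ I, ∀ z ∈ F i, z ∈ L' := by
    intro i hi z hz
    rw [hL']
    exact IntermediateField.subset_adjoin L _ (Set.mem_iUnion₂.2 ⟨i, hi, hz⟩)
  have hconst : ∀ τ : K →ₐ[L'] AlgebraicClosure K, ∀ z ∈ L',
      τ z = algebraMap K (AlgebraicClosure K) z := by
    intro τ z hz
    have := τ.commutes ⟨z, hz⟩
    rw [IsScalarTower.algebraMap_apply L' K (AlgebraicClosure K)] at this
    exact this
  have hpres : ∀ i ∈ I, ∀ τ, p i (res τ) = p i σ0 := by
    intro i hi τ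
    ext z
    rw [hp, hp, hres, hσ0]
    exact hconst τ z (hFL' i hi z z.2)
  have hrange : ∀ σ : K →ₐ[L] AlgebraicClosure K, σ ∉ Set.range res →
      ∃ i ∈ I, p i σ ≠ p i σ0 := by
    intro σ hσ
    by_contra hcon
    push Not at hcon
    apply hσ
    refine exists_lift L' σ ?_
    intro x hx
    rw [hL'] at hx
    refine eq_on_adjoin _ σ ?_ x hx
    intro y hy
    obtain ⟨i, hi, hy⟩ := Set.mem_iUnion₂.1 hy
    have h1 := DFunLike.congr_fun (hcon i hi) ⟨y, hy⟩
    rw [hp, hp] at h1
    exact h1
  -- the bound on the gonalities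
  have hγ2' : ∀ i, 2 ≤ γ i := by
    intro i
    by_cases hi : i ∈ I
    · have h1 := hI i hi
      have h2 : 0 < Module.finrank L (IntermediateField.adjoin L (F i : Set K)) :=
        Module.finrank_pos
      omega
    · exact hγ2 i hi
  have hsep : ∀ i (T : Finset (F i →ₐ[ℂ] AlgebraicClosure K))
      (q : F i →ₐ[ℂ] AlgebraicClosure K), q ∉ T → T.card + 2 ≤ γ i →
      ∃ w ∈ Wsp (AlgebraicClosure K) (D i), w q ≠ 0 ∧ ∀ t ∈ T, w t = 0 := by
    intro i T q hq hT
    exact hSEP hq (fun t ht => hT.trans (hγ i t ht)) (hD i)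
  -- the auxiliary functions
  have haux : ∀ i, ∃ w : (F i →ₐ[ℂ] AlgebraicClosure K) → AlgebraicClosure K,
      i ∈ I → w ∈ Wsp (AlgebraicClosure K) (D i) ∧ w (p i σ0) ≠ 0 ∧
        ∀ σ, p i σ ≠ p i σ0 → w (p i σ) = 0 := by
    intro i
    by_cases hi : i ∈ I
    · have hcard := card_image_le (L := L) (F i)
      set V := Finset.univ.image fun σ : K →ₐ[L] AlgebraicClosure K =>
        (σ.restrictScalars ℂ).comp (F i).val with hV
      have hmem : ∀ σ, p i σ ∈ V := fun σ => Finset.mem_image_of_mem _ (Finset.mem_univ σ)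
      have hc : (V.erase (p i σ0)).card + 1 = V.card := Finset.card_erase_add_one (hmem σ0)
      have h1 := hI i hi
      obtain ⟨w, hw, hw0, hw1⟩ := hsep i (V.erase (p i σ0)) (p i σ0)
        (Finset.notMem_erase _ _) (by omega)
      exact ⟨w, fun _ => ⟨hw, hw0, fun σ hσ => hw1 _ (Finset.mem_erase.2 ⟨hσ, hmem σ⟩)⟩⟩
    · exact ⟨0, fun h => absurd h hi⟩
  choose w0 hw0 using haux
  -- the restricted relation
  have hstar : ∀ w : ∀ i, (F i →ₐ[ℂ] AlgebraicClosure K) → AlgebraicClosure K,
      (∀ i, i ∉ I → w i ∈ Wsp (AlgebraicClosure K) (D i)) →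
      ∑ τ : K →ₐ[L'] AlgebraicClosure K, τ δ * ∏ i ∈ Iᶜ, w i (p i (res τ)) = 0 := by
    intro w hw
    let w' : ∀ i, (F i →ₐ[ℂ] AlgebraicClosure K) → AlgebraicClosure K :=
      fun i => if i ∈ I then w0 i else w i
    have hw'1 : ∀ i, i ∈ I → w' i = w0 i := fun i hi => if_pos hi
    have hw'2 : ∀ i, i ∉ I → w' i = w i := fun i hi => if_neg hi
    have hw' : ∀ i, w' i ∈ Wsp (AlgebraicClosure K) (D i) := by
      intro i
      by_cases hi : i ∈ I
      · rw [hw'1 i hi]; exact (hw0 i hi).1
      · rw [hw'2 i hi]; exact hw i hi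
    have h1 := hMUL (L := L) (Ω := AlgebraicClosure K) F D δ hrel w' hw'
    have h2 : ∑ τ : K →ₐ[L'] AlgebraicClosure K, τ δ * ∏ i, w' i (p i (res τ)) =
        ∑ σ : K →ₐ[L] AlgebraicClosure K,
          σ δ * ∏ i, w' i ((σ.restrictScalars ℂ).comp (F i).val) := by
      refine Finset.sum_of_injOn res hresinj.injOn (fun _ _ => Finset.mem_univ _) ?_ ?_
      · intro σ _ hσ
        have hσ' : σ ∉ Set.range res := by
          intro h
          obtain ⟨τ, hτ⟩ := h
          exact hσ ⟨τ, Finset.mem_coe.2 (Finset.mem_univ _), hτ⟩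
        obtain ⟨i, hi, hne⟩ := hrange σ hσ'
        have h3 : w' i (p i σ) = 0 := by
          rw [hw'1 i hi]
          exact (hw0 i hi).2.2 σ hne
        have h4 : ∏ i, w' i (p i σ) = 0 := Finset.prod_eq_zero (Finset.mem_univ i) h3
        exact mul_eq_zero_of_right _ h4
      · intro τ _
        rfl
    rw [h1] at h2
    have hC : ∏ i ∈ I, w0 i (p i σ0) ≠ 0 :=
      Finset.prod_ne_zero_iff.2 fun i hi => (hw0 i hi).2.1
    have h5 : ∀ τ, ∏ i, w' i (p i (res τ)) =
        (∏ i ∈ I, w0 i (p i σ0)) * ∏ i ∈ Iᶜ, w i (p i (res τ)) := by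
      intro τ
      rw [← Finset.prod_mul_prod_compl I]
      congr 1
      · refine Finset.prod_congr rfl fun i hi => ?_
        rw [hw'1 i hi, hpres i hi]
      · refine Finset.prod_congr rfl fun i hi => ?_
        rw [hw'2 i (Finset.mem_compl.1 hi)]
    have h6 : (∏ i ∈ I, w0 i (p i σ0)) *
        ∑ τ : K →ₐ[L'] AlgebraicClosure K, τ δ * ∏ i ∈ Iᶜ, w i (p i (res τ)) = 0 := by
      rw [← h2, Finset.mul_sum]
      refine Finset.sum_congr rfl fun τ _ => ?_
      rw [h5 τ]
      ring
    exact (mul_eq_zero.1 h6).resolve_left hC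
  have hcard : Fintype.card (K →ₐ[L'] AlgebraicClosure K) = Module.finrank L' K :=
    AlgHom.card L' K (AlgebraicClosure K)
  have hne : Nonempty (K →ₐ[L'] AlgebraicClosure K) :=
    ⟨IsScalarTower.toAlgHom L' K (AlgebraicClosure K)⟩
  refine ⟨?_, ?_⟩
  · -- the first conclusion
    have hmain := hCBC (ι := K →ₐ[L'] AlgebraicClosure K) (κ := {j : Fin n // j ∉ I})
      (X := fun j => F j.1 →ₐ[ℂ] AlgebraicClosure K) (R := AlgebraicClosure K)
      (fun j τ => p j.1 (res τ)) ?_ (fun j => γ j.1 - 2)
      (fun j => (Wsp (AlgebraicClosure K) (D j.1) : Set _)) ?_ (fun τ => τ δ) ?_ ?_ ?_ ?_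
    · obtain ⟨i, hi1, hi2⟩ := hmain
      refine ⟨i.1, i.2, ?_, ?_⟩
      · have h1 : γ i.1 - 2 + 2 ≤ Fintype.card (K →ₐ[L'] AlgebraicClosure K) := hi1
        have h2 := hγ2' i.1
        omega
      · intro j hj z hz
        by_cases hjI : j ∈ I
        · exact hFL' j hjI z hz
        · have h1 := hi2 ⟨j, hjI⟩ (fun h => hj (congrArg Subtype.val h))
          have h2 : z ∈ Set.range (algebraMap L' K) := by
            refine hFIX (L := L') (Ω := AlgebraicClosure K) z ?_
            intro σ τ
            exact DFunLike.congr_fun (h1 σ τ) ⟨z, hz⟩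
          obtain ⟨y, rfl⟩ := h2
          exact y.2
    · -- injectivity
      intro σ τ h
      have hall : ∀ i, ∀ z ∈ F i, σ z = τ z := by
        intro i z hz
        by_cases hi : i ∈ I
        · rw [hconst σ z (hFL' i hi z hz), hconst τ z (hFL' i hi z hz)]
        · exact DFunLike.congr_fun (h ⟨i, hi⟩) ⟨z, hz⟩
      let G : IntermediateField ℂ K :=
        { AlgHom.equalizer ((res σ).restrictScalars ℂ) ((res τ).restrictScalars ℂ) with
          inv_mem' := by
            intro x hx
            have hx' : σ x = τ x := hx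
            change σ x⁻¹ = τ x⁻¹
            rw [map_inv₀, map_inv₀, hx'] }
      have hG : ∀ i, F i ≤ G := fun i z hz => hall i z hz
      have hG' : (⊤ : IntermediateField ℂ K) ≤ G := by
        rw [← htop]
        exact iSup_le hG
      ext z
      exact hG' (IntermediateField.mem_top (F := ℂ) (x := z))
    · intro i T q hq hT
      have h2 := hγ2' i.1
      have hT' : T.card ≤ γ i.1 - 2 := hT
      exact hsep i.1 T q hq (by omega)
    · intro τ h
      exact hδ ((map_eq_zero τ).1 h)
    · intro w hw
      let w' : ∀ i, (F i →ₐ[ℂ] AlgebraicClosure K) → AlgebraicClosure K :=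
        fun i => if h : i ∉ I then w ⟨i, h⟩ else 0
      have hw' : ∀ i (h : i ∉ I), w' i = w ⟨i, h⟩ := fun i h => dif_pos h
      have h1 := hstar w' (by
        intro i hi
        rw [hw' i hi]
        exact hw ⟨i, hi⟩)
      rw [← h1]
      refine Finset.sum_congr rfl fun τ _ => ?_
      congr 1
      rw [Finset.prod_subtype (p := fun j => j ∉ I) Iᶜ (fun j => Finset.mem_compl)]
      refine Finset.prod_congr rfl fun i _ => ?_
      rw [hw' i.1 i.2]
    · intro i j hij
      have h1 := hsum i.1 j.1 i.2 j.2 (fun h => hij (Subtype.ext h))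
      have h2 := hγ2' i.1
      have h3 := hγ2' j.1
      rw [hcard]
      change Module.finrank L' K ≤ (γ i.1 - 2) + (γ j.1 - 2) + 1
      omega
    · intro i
      rcases hdich with h | h
      · right
        intro j
        exact Subtype.ext (h _ _ j.2 i.2)
      · left
        have h1 := h i.1 i.2
        have h2 := hγ2' i.1
        rw [hcard]
        change Module.finrank L' K ≤ 2 * (γ i.1 - 2) + 3
        omega
  · -- the second conclusion
    intro c hc
    have h1 := hstar (fun i s => s (c i)) (fun i _ => Submodule.subset_span ⟨⟨c i, hc i⟩, rfl⟩)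
    have h2 : algebraMap L' (AlgebraicClosure K)
        (Algebra.trace L' K ((∏ i, (c i : K)) * δ)) = 0 := by
      rw [trace_eq_sum_embeddings (AlgebraicClosure K)]
      have h3 : ∀ τ : K →ₐ[L'] AlgebraicClosure K, τ ((∏ i, (c i : K)) * δ) =
          (∏ i ∈ I, algebraMap K (AlgebraicClosure K) (c i)) *
            (τ δ * ∏ i ∈ Iᶜ, (p i (res τ)) (c i)) := by
        intro τ
        rw [map_mul, map_prod, ← Finset.prod_mul_prod_compl I]
        have h4 : ∏ i ∈ I, τ (c i : K) = ∏ i ∈ I, algebraMap K (AlgebraicClosure K) (c i) :=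
          Finset.prod_congr rfl fun i hi => hconst τ _ (hFL' i hi _ (c i).2)
        have h5 : ∏ i ∈ Iᶜ, τ (c i : K) = ∏ i ∈ Iᶜ, (p i (res τ)) (c i) :=
          Finset.prod_congr rfl fun i hi => rfl
        rw [h4, h5]
        ring
      rw [Finset.sum_congr rfl fun τ _ => h3 τ, ← Finset.mul_sum, h1, mul_zero]
    exact (map_eq_zero (algebraMap L' (AlgebraicClosure K))).1 h2

end Pool.Agent.Helper320.PC
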