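import Pool.Agent.Helper320.PC.Stm2
import Pool.Agent.W619.TW.Loc

/-!
Regular differentials of a curve after an extension of the field of constants.
-/

set_option autoImplicit false
set_option linter.overlappingInstances false
set_option linter.unusedSectionVars false

open FF Pool.Agent.W603.LV
open Pool.Agent.W619.TW (Cur rk)
open Pool.Agent.W619.PQ (ratio')

namespace Pool.Agent.Helper320.PC

theorem t_GEN : S_GEN := by
  intro k Λ A _ _ _ _ _ _ _ _ _ _ _ M F hM hcur x hx D0 hD0 D hD f hf
  classical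
  have hFF : IsFF k F := hcur.ff
  have hchar : CharZero Λ := charZero_of_injective_algebraMap (algebraMap k Λ).injective
  -- places over `Λ` and over `M`
  have hPM : ∀ w : Place M A, ∃ Q : Place Λ A, ∀ y, Q.ord y = w.ord y := fun w =>
    ⟨{ ord := w.ord
       ord_zero := w.ord_zero
       ord_mul := w.ord_mul
       ord_add := w.ord_add
       ord_const := fun {c} hc => by
         have h1 : algebraMap Λ A c ∈ M := (hM _).2 ⟨c, rfl⟩
         exact w.ord_const (c := (⟨algebraMap Λ A c, h1⟩ : M)) (fun h => hc (by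
           have h2 := congrArg Subtype.val h
           exact (map_eq_zero (algebraMap Λ A)).1 h2))
       surj := w.surj }, fun y => rfl⟩
  -- transcendence
  have hxΛ : Transcendental Λ (x : A) := by
    intro halg
    apply hcur.tr x hx
    obtain ⟨p, hp0, hp⟩ := halg
    let φ : Λ →+* M := (algebraMap Λ A).codRestrict M fun c => (hM _).2 ⟨c, rfl⟩
    refine ⟨p.map φ, (Polynomial.map_ne_zero_iff φ.injective).2 hp0, ?_⟩
    rw [Polynomial.aeval_def, Polynomial.eval₂_map]
    have h1 : (algebraMap M A).comp φ = algebraMap Λ A := by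
      ext c
      rfl
    rw [h1]
    exact hp
  have hDx := der_ne_zero hD hxΛ
  have hD0x := der_ne_zero hD0 hx
  have hDxA : ((D0 x : F) : A) ≠ 0 := fun h => hD0x (Subtype.ext h)
  obtain ⟨D', hD'⟩ : ∃ D' : Derivation Λ A A, D' = (D (x : A))⁻¹ • D := ⟨_, rfl⟩
  obtain ⟨D0', hD0'⟩ : ∃ D0' : Derivation k F F, D0' = (D0 x)⁻¹ • D0 := ⟨_, rfl⟩
  have hD'x : D' (x : A) = 1 := by
    rw [hD', Derivation.smul_apply, smul_eq_mul, inv_mul_cancel₀ hDx]
  have hD0'x : D0' x = 1 := by
    rw [hD0', Derivation.smul_apply, smul_eq_mul, inv_mul_cancel₀ hD0x]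
  have hD'0 : D' ≠ 0 := by
    rintro h
    rw [h] at hD'x
    exact zero_ne_one hD'x
  have hD0'0 : D0' ≠ 0 := by
    rintro h
    rw [h] at hD0'x
    exact zero_ne_one hD0'x
  let Dk : Derivation k A A := D'.restrictScalars k
  have hDk : ∀ y, Dk y = D' y := fun y => rfl
  have hβ : ∀ β : F, D' (β : A) = ((D0' β : F) : A) := by
    intro β
    obtain ⟨r, h1, h2⟩ := ratio' (K := A) hx β
    have h3 := h1 D0'
    rw [hD0'x, mul_one] at h3
    have h4 : Dk (β : A) = (r : A) * Dk (x : A) := h2 Dk
    rw [hDk, hDk, hD'x, mul_one] at h4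
    rw [h4, h3]
  -- the function
  obtain ⟨g, hg⟩ : ∃ g : A, g = f / D (x : A) := ⟨_, rfl⟩
  have hfg : f = g * D (x : A) := by
    rw [hg, div_mul_cancel₀ _ hDx]
  have hgQ : ∀ Q : Place Λ A, Ge Q (vo Q D') g := by
    intro Q
    have h1 : vo Q D' = -Q.ord (D (x : A)) + vo Q D := by
      rw [hD', vo_smul Q hD (inv_ne_zero hDx), Q.ord_inv]
    rcases hf Q with h2 | h2
    · left
      rw [hg, h2, zero_div]
    · by_cases h3 : f = 0
      · left
        rw [hg, h3, zero_div]
      · right
        rw [hg, Q.ord_div h3 hDx, h1]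
        omega
  let E : Place k F →₀ ℤ := Finsupp.ofSupportFinite (fun P => -(vo P D0'))
    ((vo_finite hD0'0).subset fun P hP => by
      simp only [Function.mem_support, ne_eq, neg_eq_zero] at hP
      exact hP)
  have hE : ∀ P, E P = -(vo P D0') := fun P => rfl
  obtain ⟨s, β, hs, hβE⟩ := hcur.mem_span E g (by
    intro w hw
    obtain ⟨Q, hQ⟩ := hPM w
    have h1 : ∀ β : F, w.Reg (β : A) := by
      intro β
      by_cases h : (β : A) = 0
      · exact Or.inl h
      · exact Or.inr (hw β).ge
    have h2 : Pool.Agent.W619.PQ.Pres (rk w) Dk := by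
      refine hcur.pres w Dk (fun z hz => ?_) (fun β _ => ?_)
      · obtain ⟨c, rfl⟩ := (hM z).1 hz
        rw [hDk, Derivation.map_algebraMap]
        exact zero_mem _
      · rw [hDk, hβ]
        exact h1 _
    have h3 : 0 ≤ vo Q D' := by
      have h4 := ord_unif Q
      have h5 : (rk w).Reg (unif Q) := Or.inr (by
        change 0 ≤ w.ord (unif Q)
        rw [← hQ, h4]
        norm_num)
      rcases h2 _ h5 with h6 | h6
      · exact absurd h6 (der_pi_ne_zero hD'0 Q h4)
      · unfold vo
        rw [hQ]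
        exact h6
    rcases hgQ Q with h4 | h4
    · exact Or.inl h4
    · right
      rw [← hQ]
      omega) (by
    intro w q hq
    obtain ⟨Q, hQ⟩ := hPM w
    obtain ⟨π, hπ0, hπ⟩ := q.surj
    have h1 : Q.ord (π : A) = 1 := by rw [hQ, hq, hπ]
    have h2 : vo Q D' = vo q D0' := by
      rw [← vo_eq Q h1 hD'0, hβ, hQ, hq, vo_eq q hπ hD0'0]
    rw [hE, neg_neg, ← h2]
    rcases hgQ Q with h4 | h4
    · exact Or.inl h4
    · right
      rw [← hQ]
      exact h4)
  -- the conclusion
  rw [hfg, hs, Finset.sum_mul]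
  refine Submodule.sum_mem _ fun i hi => ?_
  obtain ⟨a, ha⟩ := (hM _).1 (Module.Basis.ofVectorSpace k M i).2
  have hreg : IsRegD D0 (β i * D0 x) := by
    intro P
    have h1 : vo P D0' = -P.ord (D0 x) + vo P D0 := by
      rw [hD0', vo_smul P hD0 (inv_ne_zero hD0x), P.ord_inv]
    by_cases h0 : β i = 0
    · left
      rw [h0, zero_mul]
    · right
      have h2 := (mem_LL.1 (hβE i hi)).resolve_left h0 P
      rw [hE, neg_neg, h1] at h2
      rw [P.ord_mul h0 hD0x]
      omega
  have h1 : ((Module.Basis.ofVectorSpace k M i : M) : A) * (β i : A) * D (x : A) =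
      a • (((β i * D0 x / D0 x : F) : A) * D (x : A)) := by
    rw [Algebra.smul_def, ha, mul_div_assoc, div_self hD0x, mul_one]
    ring
  rw [h1]
  exact Submodule.smul_mem _ _ (Submodule.subset_span ⟨⟨β i * D0 x, hreg⟩, rfl⟩)

end Pool.Agent.Helper320.PC
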