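import Mathlib

/-!
Images of products of curves: statements on derivations.
-/

set_option autoImplicit false
set_option linter.overlappingInstances false
set_option linter.unusedSectionVars false

namespace Pool.Agent.Helper320.PC

/-- traces commute with derivations -/
def S_TRD : Prop :=
  ∀ {k K L : Type} [Field k] [Field K] [Field L] [Algebra k K] [Algebra k L] [Algebra L K]
    [IsScalarTower k L K] [FiniteDimensional L K] (D : Derivation k L L) (D' : Derivation k K K)
    (_ : ∀ f : L, D' (algebraMap L K f) = algebraMap L K (D f)) (f : K),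
    Algebra.trace L K (D' f) = D (Algebra.trace L K f)

/-- algebraic independence of ratios from derivations -/
def S_KOD : Prop :=
  ∀ {K L : Type} [Field K] [Field L] [Algebra ℂ K] [Algebra ℂ L] [Algebra L K]
    [IsScalarTower ℂ L K] [FiniteDimensional L K] [Algebra.EssFiniteType ℂ L]
    (S : Set L) (s₀ : L) (_ : s₀ ∈ S) (_ : s₀ ≠ 0) {h : ℕ} (x : Fin h → K)
    (_ : AlgebraicIndependent ℂ x)
    (_ : ∀ (D : Derivation ℂ L L) (D' : Derivation ℂ K K),
      (∀ f : L, D' (algebraMap L K f) = algebraMap L K (D f)) →
      (∀ s ∈ S, D (s / s₀) = 0) → ∀ i, D' (x i) = 0),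
    ∃ s : Fin h → L, (∀ j, s j ∈ S) ∧ AlgebraicIndependent ℂ fun j => s j / s₀

end Pool.Agent.Helper320.PC
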