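import Mathlib
import Pool.Agent.Helper320.PC.Stm5
import Pool.Agent.W619.PQ.Dual

/-!
Algebraic independence of ratios from derivations.
-/

set_option autoImplicit false
set_option linter.overlappingInstances false
set_option linter.unusedSectionVars false

namespace Pool.Agent.Helper320.PC.Kod

open Polynomial KaehlerDifferential

/-- derivations extend along algebraic extensions in characteristic zero -/
theorem exists_ext {k L K : Type*} [Field k] [Field L] [Field K] [Algebra k L] [Algebra k K]
    [Algebra L K] [IsScalarTower k L K] [CharZero L] [Algebra.IsAlgebraic L K]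
    (D : Derivation k L L) :
    ∃ D' : Derivation k K K, ∀ f : L, D' (algebraMap L K f) = algebraMap L K (D f) := by
  have hsep : Algebra.IsSeparable L K := inferInstance
  have h1 : Algebra.FormallyEtale L K := Algebra.FormallyEtale.of_isSeparable _ _
  let e := KaehlerDifferential.tensorKaehlerEquivOfFormallyEtale k L K
  let d : Derivation k L K := (Algebra.linearMap L K).compDer D
  let F : Ω[K⁄k] →ₗ[K] K :=
    (LinearMap.liftBaseChange K d.liftKaehlerDifferential).comp e.symm.toLinearMap
  refine ⟨F.compDer (KaehlerDifferential.D k K), fun f => ?_⟩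
  change LinearMap.liftBaseChange K d.liftKaehlerDifferential
    (e.symm (KaehlerDifferential.D k K (algebraMap L K f))) = _
  rw [KaehlerDifferential.tensorKaehlerEquivOfFormallyEtale_symm_D_algebraMap]
  simp only [LinearMap.liftBaseChange_tmul, one_smul, Derivation.liftKaehlerDifferential_comp_D]
  rfl

/-- an element killed by all derivations is algebraic -/
theorem isAlgebraic_of_forall {k L : Type*} [Field k] [Field L] [Algebra k L] [CharZero k] (c : L)
    (h : ∀ D : Derivation k L L, D c = 0) : IsAlgebraic k c := by
  classical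
  by_contra hc
  have h1 : AlgebraicIndepOn k id ({c} : Set L) := by
    have : AlgebraicIndependent k (fun x : ({c} : Set L) => (x : L)) := by
      rw [algebraicIndependent_unique_type_iff]
      exact hc
    exact this
  obtain ⟨u, hu, -, hB⟩ := exists_isTranscendenceBasis_between ({c} : Set L) Set.univ
    (Set.subset_univ _) h1 (ht := by
      constructor
      intro x
      exact isAlgebraic_algebraMap (⟨x, Algebra.subset_adjoin (Set.mem_univ x)⟩ :
        Algebra.adjoin k (Set.univ : Set L)))
  have hcu : c ∈ u := hu rfl
  obtain ⟨D, hD⟩ := Pool.Agent.W619.PQ.exists_dual _ hB ⟨c, hcu⟩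
  have h2 := hD ⟨c, hcu⟩
  rw [if_pos rfl] at h2
  rw [h D] at h2
  exact zero_ne_one h2

/-- the relative version -/
theorem rel {k L K : Type*} [Field k] [Field L] [Field K] [Algebra k L] [Algebra k K]
    [Algebra L K] [IsScalarTower k L K] [CharZero k] [CharZero L] [Algebra.IsAlgebraic L K] (y : K)
    (h : ∀ (D : Derivation k L L) (D' : Derivation k K K),
      (∀ f : L, D' (algebraMap L K f) = algebraMap L K (D f)) → D' y = 0) : IsAlgebraic k y := by
  have hy : IsIntegral L y := Algebra.IsIntegral.isIntegral y
  have hco : ∀ (D : Derivation k L L) (i : ℕ), D ((minpoly L y).coeff i) = 0 := by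
    intro D
    obtain ⟨D', hD'⟩ := exists_ext (K := K) D
    let _ : Differential L := ⟨D.restrictScalars ℤ⟩
    let _ : Differential K := ⟨D'.restrictScalars ℤ⟩
    have : DifferentialAlgebra L K := ⟨fun a => hD' a⟩
    have h1 := Differential.deriv_aeval_eq (A := L) (R := K) y (minpoly L y)
    have h2 : (Differential.deriv y : K) = 0 := h D D' hD'
    rw [minpoly.aeval, h2, mul_zero, add_zero, map_zero] at h1
    have h3 : Differential.mapCoeffs (minpoly L y) = 0 := by
      have hdvd : minpoly L y ∣ Differential.mapCoeffs (minpoly L y) := minpoly.dvd L y h1.symm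
      refine Polynomial.eq_zero_of_dvd_of_degree_lt hdvd ?_
      rw [Polynomial.degree_eq_natDegree (minpoly.ne_zero hy), Polynomial.degree_lt_iff_coeff_zero]
      intro m hm
      rw [Differential.coeff_mapCoeffs]
      change D ((minpoly L y).coeff m) = 0
      rcases hm.lt_or_eq with hm | hm
      · rw [Polynomial.coeff_eq_zero_of_natDegree_lt hm, map_zero]
      · rw [← hm, (minpoly.monic hy).coeff_natDegree, Derivation.map_one_eq_zero]
    intro i
    have h4 := congrArg (fun q => Polynomial.coeff q i) h3
    simp only [Differential.coeff_mapCoeffs, Polynomial.coeff_zero] at h4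
    exact h4
  have halg : ∀ i, IsIntegral k ((minpoly L y).coeff i) := fun i =>
    (isAlgebraic_of_forall _ fun D => hco D i).isIntegral
  have h5 : IsIntegral (integralClosure k L) y := by
    have h6 : minpoly L y ∈ Polynomial.lifts (algebraMap (integralClosure k L) L) := by
      rw [Polynomial.lifts_iff_coeff_lifts]
      intro i
      exact ⟨⟨_, halg i⟩, rfl⟩
    obtain ⟨q, hq, -, hqm⟩ := Polynomial.lifts_and_natDegree_eq_and_monic h6 (minpoly.monic hy)
    refine ⟨q, hqm, ?_⟩
    have h7 : Polynomial.aeval y (q.map (algebraMap (integralClosure k L) L)) = 0 := by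
      rw [hq, minpoly.aeval]
    rw [Polynomial.aeval_map_algebraMap] at h7
    rw [← Polynomial.aeval_def]
    exact h7
  exact (isIntegral_trans (R := k) (A := integralClosure k L) y h5).isAlgebraic

end Pool.Agent.Helper320.PC.Kod

namespace Pool.Agent.Helper320.PC

open Kod

theorem t_KOD : S_KOD := by
  intro K L _ _ _ _ _ _ _ _ S s₀ hs₀ hs₀0 h x hx hD
  classical
  have hc0L : CharZero L := charZero_of_injective_algebraMap (algebraMap ℂ L).injective
  set T : Set L := {t | ∃ s ∈ S, t = s / s₀} with hT
  let N : IntermediateField ℂ L := IntermediateField.adjoin ℂ T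
  have hcN : CharZero N := charZero_of_injective_algebraMap (algebraMap ℂ N).injective
  have hTN : ∀ t ∈ T, t ∈ N := fun t ht => IntermediateField.subset_adjoin ℂ T ht
  have halg : ∀ i, IsAlgebraic N (x i) := by
    intro i
    refine rel (k := N) (L := L) (x i) fun D D' hDD => ?_
    refine hD (D.restrictScalars ℂ) (D'.restrictScalars ℂ) hDD (fun s hs => ?_) i
    have h1 : s / s₀ ∈ N := hTN _ ⟨s, hs, rfl⟩
    exact D.map_algebraMap (⟨s / s₀, h1⟩ : N)
  -- pass to `K` and the algebraic matroid
  let φ : L →ₐ[ℂ] K := IsScalarTower.toAlgHom ℂ L K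
  let T' : Set K := φ '' T
  have hcl : ∀ i, x i ∈ (AlgebraicIndependent.matroid ℂ K).closure T' := by
    intro i
    rw [AlgebraicIndependent.matroid_closure_eq, SetLike.mem_coe, Subalgebra.mem_algebraicClosure,
      ← IntermediateField.isAlgebraic_adjoin_iff]
    have hmem : ∀ n : N, φ n ∈ IntermediateField.adjoin ℂ T' := by
      intro n
      rw [← IntermediateField.adjoin_map]
      exact ⟨n, n.2, rfl⟩
    let f : N →+* IntermediateField.adjoin ℂ T' :=
      { toFun := fun n => ⟨φ n, hmem n⟩
        map_one' := by ext; simp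
        map_mul' := fun a b => by ext; simp
        map_zero' := by ext; simp
        map_add' := fun a b => by ext; simp }
    exact (halg i).ringHom_of_comp_eq f (RingHom.id K) f.injective (by ext n; rfl)
  have hI : (AlgebraicIndependent.matroid ℂ K).Indep (Set.range x) := by
    rw [AlgebraicIndependent.matroid_indep_iff]
    exact hx.coe_range
  have hIcl : Set.range x ⊆ (AlgebraicIndependent.matroid ℂ K).closure T' := by
    rintro _ ⟨i, rfl⟩
    exact hcl i
  obtain ⟨B, hB⟩ := (AlgebraicIndependent.matroid ℂ K).exists_isBasis T'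
  have hcard : (h : ℕ∞) ≤ B.encard := by
    have h1 := hI.encard_le_eRk_of_subset hIcl
    rw [Matroid.eRk_closure_eq, ← hB.encard_eq_eRk] at h1
    have h2 : (Set.range x).encard = h := by
      rw [← Set.image_univ, hx.injective.encard_image, Set.encard_univ]
      simp
    rwa [h2] at h1
  obtain ⟨C, hCB, hC⟩ := Set.exists_subset_encard_eq hcard
  have hCfin : C.Finite := Set.finite_of_encard_eq_coe hC
  have hCn : Nat.card C = h := by
    have h1 := hC
    rw [← hCfin.cast_ncard_eq] at h1
    rw [Nat.card_coe_set_eq]
    exact_mod_cast h1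
  have : Finite C := hCfin
  let e : C ≃ Fin h := Finite.equivFinOfCardEq hCn
  have hCT : ∀ j, ∃ s ∈ S, φ (s / s₀) = (e.symm j : K) := by
    intro j
    obtain ⟨t, ⟨s, hs, rfl⟩, ht⟩ := hB.subset (hCB (e.symm j).2)
    exact ⟨s, hs, ht⟩
  choose s hsS hs using hCT
  refine ⟨s, hsS, ?_⟩
  have hBI : AlgebraicIndepOn ℂ id B := by
    have := hB.indep
    rwa [AlgebraicIndependent.matroid_indep_iff] at this
  have hCI : AlgebraicIndependent ℂ (fun c : C => (c : K)) := hBI.mono hCB
  have h3 : AlgebraicIndependent ℂ (fun j => φ (s j / s₀)) := by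
    have h4 : (fun j => φ (s j / s₀)) = (fun c : C => (c : K)) ∘ e.symm := by
      funext j
      exact hs j
    rw [h4]
    exact hCI.comp _ e.symm.injective
  exact AlgebraicIndependent.of_comp φ h3

end Pool.Agent.Helper320.PC
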