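import Mathlib
import Pool.Agent.Helper320.PC.Stm

/-!
Images of products of curves: the relation between the embeddings, and the elements which are fixed
by all embeddings.
-/

set_option autoImplicit false
set_option linter.overlappingInstances false
set_option linter.unusedSectionVars false

open FF Pool.Agent.W603.LV

namespace Pool.Agent.Helper320.PC.MUL

open Finset

/-- the value at the restriction -/
def ev {k K L Ω : Type} [Field k] [Field K] [Field L] [Field Ω] [Algebra k K]
    [Algebra k L] [Algebra L K] [IsScalarTower k L K] [Algebra k Ω] [Algebra L Ω]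
    [IsScalarTower k L Ω] (E : IntermediateField k K) (u : (E →ₐ[k] Ω) → Ω) (σ : K →ₐ[L] Ω) : Ω :=
  u ((σ.restrictScalars k).comp E.val)

theorem base {k K L Ω : Type} [Field k] [Field K] [Field L] [Field Ω] [CharZero L] [Algebra k K]
    [Algebra k L] [Algebra L K] [IsScalarTower k L K] [Algebra k Ω] [Algebra L Ω]
    [IsScalarTower k L Ω] [FiniteDimensional L K] [IsAlgClosed Ω] {n : ℕ}
    (F : Fin n → IntermediateField k K) (δ : K) (c : ∀ i, F i)
    (h : Algebra.trace L K ((∏ i, (c i : K)) * δ) = 0) :
    ∑ σ : K →ₐ[L] Ω, σ δ * ∏ i, ev (F i) (fun s => s (c i)) σ = 0 := by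
  have h1 := trace_eq_sum_embeddings (K := L) (L := K) Ω (x := (∏ i, (c i : K)) * δ)
  rw [h, map_zero] at h1
  rw [h1]
  refine Finset.sum_congr rfl fun σ _ => ?_
  rw [map_mul, map_prod, mul_comm]
  rfl

theorem step {k K L Ω : Type} [Field k] [Field K] [Field L] [Field Ω] [CharZero L] [Algebra k K]
    [Algebra k L] [Algebra L K] [IsScalarTower k L K] [Algebra k Ω] [Algebra L Ω]
    [IsScalarTower k L Ω] [FiniteDimensional L K] [IsAlgClosed Ω] {n : ℕ}
    (F : Fin n → IntermediateField k K) (D : ∀ i, Derivation k (F i) (F i)) (δ : K)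
    (h : ∀ c : ∀ i, F i, (∀ i, IsRegD (D i) (c i)) →
      Algebra.trace L K ((∏ i, (c i : K)) * δ) = 0) (S : Finset (Fin n)) :
    ∀ (w : ∀ i, (F i →ₐ[k] Ω) → Ω), (∀ i ∈ S, w i ∈ Wsp Ω (D i)) →
      (∀ i, i ∉ S → ∃ c : F i, IsRegD (D i) c ∧ w i = fun s => s c) →
      ∑ σ : K →ₐ[L] Ω, σ δ * ∏ i, ev (F i) (w i) σ = 0 := by
  induction S using Finset.induction_on with
  | empty =>
    intro w _ hw
    choose c hc1 hc2 using fun i => hw i (Finset.notMem_empty i)
    have := base (Ω := Ω) F δ c (h c hc1)
    rw [← this]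
    refine Finset.sum_congr rfl fun σ _ => ?_
    congr 1
    refine Finset.prod_congr rfl fun i _ => ?_
    rw [hc2 i]
  | insert i0 S hi0 ih =>
    intro w hw1 hw2
    -- linear in the coordinate `i0`
    have key : ∀ u : (F i0 →ₐ[k] Ω) → Ω, ∀ σ : K →ₐ[L] Ω,
        ∏ i, ev (F i) (Function.update w i0 u i) σ =
          ev (F i0) u σ * ∏ i ∈ univ.erase i0, ev (F i) (w i) σ := by
      intro u σ
      rw [← Finset.mul_prod_erase univ _ (Finset.mem_univ i0), Function.update_self]
      congr 1
      refine Finset.prod_congr rfl fun i hi => ?_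
      rw [Function.update_of_ne (Finset.ne_of_mem_erase hi)]
    have hmain : ∀ u ∈ Wsp Ω (D i0),
        ∑ σ : K →ₐ[L] Ω, σ δ * (ev (F i0) u σ * ∏ i ∈ univ.erase i0, ev (F i) (w i) σ) = 0 := by
      intro u hu
      induction hu using Submodule.span_induction with
      | mem u hu =>
        obtain ⟨c, rfl⟩ := hu
        have h1 := ih (Function.update w i0 fun s => s c.1) (by
          intro i hi
          have hne : i ≠ i0 := fun e => hi0 (e ▸ hi)
          rw [Function.update_of_ne hne]
          exact hw1 i (Finset.mem_insert_of_mem hi)) (by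
          intro i hi
          by_cases hne : i = i0
          · subst hne
            exact ⟨c.1, c.2, by rw [Function.update_self]⟩
          · rw [Function.update_of_ne hne]
            exact hw2 i (by
              rw [Finset.mem_insert]
              push Not
              exact ⟨hne, hi⟩))
        rw [← h1]
        refine Finset.sum_congr rfl fun σ _ => ?_
        rw [key]
      | zero =>
        apply Finset.sum_eq_zero
        intro σ _
        simp [ev]
      | add u v _ _ hu hv =>
        have h2 : ∀ σ : K →ₐ[L] Ω, σ δ * (ev (F i0) (u + v) σ *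
            ∏ i ∈ univ.erase i0, ev (F i) (w i) σ) =
            σ δ * (ev (F i0) u σ * ∏ i ∈ univ.erase i0, ev (F i) (w i) σ) +
            σ δ * (ev (F i0) v σ * ∏ i ∈ univ.erase i0, ev (F i) (w i) σ) := by
          intro σ
          simp only [ev, Pi.add_apply]
          ring
        rw [Finset.sum_congr rfl fun σ _ => h2 σ, Finset.sum_add_distrib, hu, hv, add_zero]
      | smul a u _ hu =>
        have h2 : ∀ σ : K →ₐ[L] Ω, σ δ * (ev (F i0) (a • u) σ *
            ∏ i ∈ univ.erase i0, ev (F i) (w i) σ) =
            a * (σ δ * (ev (F i0) u σ * ∏ i ∈ univ.erase i0, ev (F i) (w i) σ)) := by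
          intro σ
          simp only [ev, Pi.smul_apply, smul_eq_mul]
          ring
        rw [Finset.sum_congr rfl fun σ _ => h2 σ, ← Finset.mul_sum, hu, mul_zero]
    have h3 := hmain (w i0) (hw1 i0 (Finset.mem_insert_self _ _))
    rw [← h3]
    refine Finset.sum_congr rfl fun σ _ => ?_
    rw [← key, Function.update_eq_self]

end Pool.Agent.Helper320.PC.MUL

namespace Pool.Agent.Helper320.PC

theorem t_MUL : S_MUL := by
  intro k K L Ω _ _ _ _ _ _ _ _ _ _ _ _ _ _ n F D δ h w hw
  have := MUL.step (Ω := Ω) F D δ h Finset.univ w (fun i _ => hw i)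
    (fun i hi => absurd (Finset.mem_univ i) hi)
  simp only [MUL.ev] at this
  convert this

theorem t_FIX : S_FIX := by
  intro K L Ω _ _ _ _ _ _ _ _ z hz
  apply minpoly.mem_range_of_degree_eq_one
  have hint : IsIntegral L z := Algebra.IsIntegral.isIntegral z
  have hsep : (minpoly L z).Separable := (minpoly.irreducible hint).separable
  have hne : ((minpoly L z).map (algebraMap L Ω)) ≠ 0 :=
    Polynomial.map_ne_zero (minpoly.ne_zero hint)
  -- all roots are equal
  have hroot : ∀ x ∈ (minpoly L z).rootSet Ω, ∃ σ : K →ₐ[L] Ω, σ z = x := by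
    intro x hx
    have h1 := Algebra.IsAlgebraic.range_eval_eq_rootSet_minpoly (F := L) (K := K) Ω z
    rw [← h1] at hx
    obtain ⟨σ, hσ⟩ := hx
    exact ⟨σ, hσ⟩
  have hcard : Fintype.card ((minpoly L z).rootSet Ω) = (minpoly L z).natDegree :=
    Polynomial.card_rootSet_eq_natDegree hsep (IsAlgClosed.splits _)
  have hle : Fintype.card ((minpoly L z).rootSet Ω) ≤ 1 := by
    rw [Fintype.card_le_one_iff]
    rintro ⟨x, hx⟩ ⟨y, hy⟩
    obtain ⟨σ, hσ⟩ := hroot x hx
    obtain ⟨τ, hτ⟩ := hroot y hy
    apply Subtype.ext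
    show x = y
    rw [← hσ, ← hτ]
    exact hz σ τ
  have hpos : 0 < (minpoly L z).natDegree := minpoly.natDegree_pos hint
  rw [Polynomial.degree_eq_natDegree (minpoly.ne_zero hint)]
  have : (minpoly L z).natDegree = 1 := by omega
  rw [this]
  rfl

end Pool.Agent.Helper320.PC
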