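import Pool.Agent.Helper320.PC.Stm2
import Pool.Agent.W619.PQ.Core
import Pool.Agent.W619.PQ.Final

/-!
Exterior products of regular differentials are regular.
-/

set_option autoImplicit false
set_option linter.overlappingInstances false
set_option linter.unusedSectionVars false

open FF Pool.Agent.W603.LV
open Pool.Agent.W602.GT (IsPluri Divisorial RegAt)
open Pool.Agent.W619.PQ (extForm)

namespace Pool.Agent.Helper320.PC

open scoped Classical in
theorem t_REG : S_REG := by
  intro K _ _ n F _ D0 hD0 x c hx hc
  refine ⟨Pool.Agent.W619.PQ.extForm_pluri 1 D0 x c, ?_⟩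
  intro P _ D hD
  by_cases hz : ∃ i, c i = 0
  · obtain ⟨i, hi⟩ := hz
    have h0 : extForm (K := K) 1 D0 x c D = 0 := by
      unfold extForm
      rw [Finset.prod_eq_zero (Finset.mem_univ i) (by rw [hi, zero_div, map_zero]), zero_mul]
    rw [h0]
    exact P.reg_zero
  · have hz' : ∀ i, c i ≠ 0 := fun i hi => hz ⟨i, hi⟩
    let s : Fin n → ℚ := fun i =>
      if ∀ f : F i, P.ord (algebraMap (F i) K f) = 0 then 0 else 1
    have hs0 : ∀ i, 0 ≤ s i := by
      intro i
      simp only [s]
      split_ifs <;> norm_num
    refine Pool.Agent.W619.PQ.extForm_regular 1 D0 hD0 x c hx hz' P s ?_ ?_ D hD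
    · intro i
      by_cases htriv : ∀ f : F i, P.ord (algebraMap (F i) K f) = 0
      · exact Or.inl ⟨htriv, if_pos htriv⟩
      · right
        have hs1 : s i = 1 := if_neg htriv
        push Not at htriv
        obtain ⟨e, p, hp⟩ := exists_over (K := F i) P htriv
        refine ⟨p, e, hp, ?_⟩
        have h1 : vo p (D0 i) ≤ p.ord (c i) := (hc i p).resolve_left (hz' i)
        have he : 1 ≤ e := hp.1
        have h1' : (vo p (D0 i) : ℚ) ≤ (p.ord (c i) : ℚ) := by exact_mod_cast h1
        have he' : (1 : ℚ) ≤ e := by exact_mod_cast he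
        rw [hs1]
        push_cast
        nlinarith
    · by_cases hall : ∀ i, ∀ f : F i, P.ord (algebraMap (F i) K f) = 0
      · exact Or.inl hall
      · right
        push Not at hall
        obtain ⟨i, f, hf⟩ := hall
        refine le_trans ?_ (Finset.single_le_sum (fun i _ => hs0 i) (Finset.mem_univ i))
        have hs1 : s i = 1 := if_neg fun h => hf (h f)
        rw [hs1]

end Pool.Agent.Helper320.PC
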