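-- t_RRS : S_RRS proved (file Pool/Agent/Helper320/PC/Rrs.lean, imports Stm and W619.TW.Span; own copy of trace_ge; axioms propext, Classical.choice, Quot.sound; builds in 10 s).
import Pool.Agent.Helper320.PC.Stm
import Pool.Agent.W619.TW.Span

/-!
Riemann-Roch for simple points on a curve of given gonality.
-/

set_option autoImplicit false
set_option linter.overlappingInstances false
set_option linter.unusedSectionVars false

open Polynomial FF IsDedekindDomain IntermediateField

namespace Pool.Agent.Helper320.PC.RRS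

open Pool.Agent.W603.LV Pool.Agent.W619.PQ Pool.Agent.W619.TW

section

variable {k K F : Type*} [Field k] [Field K] [Field F] [Algebra k K] [Algebra k F] [Algebra K F]
  [IsScalarTower k K F]

/-- the trace of an element vanishing at all the places over `q` vanishes at `q` -/
theorem trace_ge [CharZero k] [FiniteDimensional K F] (q : Place k K) (y : F) (N : ℕ)
    (hN : ∀ (w : Place k F) (e : ℕ), Over w q e → e ≤ N)
    (hy : ∀ (w : Place k F) (e : ℕ), Over w q e → Ge w 1 y) :
    Ge q 1 (Algebra.trace K F y) := by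
  classical
  let iA : Algebra q.O F := algO q
  let ik : Algebra k q.O := algk q
  obtain ⟨t, ht0, ht⟩ := q.surj
  have htr : q.Reg t := Or.inr (by omega)
  have htF : algebraMap K F t ≠ 0 := by simpa using ht0
  have : IsDiscreteValuationRing q.O := q.isDVR
  have : CharZero K := charZero_of_injective_algebraMap (algebraMap k K).injective
  have : IsScalarTower q.O K F := IsScalarTower.of_algebraMap_eq fun _ => rfl
  have : IsScalarTower k q.O F := IsScalarTower.of_algebraMap_eq fun c => by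
    rw [IsScalarTower.algebraMap_apply k K F]
    rfl
  let B := integralClosure q.O F
  have : IsDedekindDomain B := integralClosure.isDedekindDomain q.O K F
  have : IsFractionRing B F := integralClosure.isFractionRing_of_finite_extension K F
  have hfin : Module.Finite q.O B := IsIntegralClosure.finite q.O K F B
  have hinj : Function.Injective (algebraMap q.O F) := by
    rw [IsScalarTower.algebraMap_eq q.O K F]
    exact (algebraMap K F).injective.comp (IsFractionRing.injective q.O K)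
  have htf : Module.IsTorsionFree q.O B := by
    have hinj' : Function.Injective (algebraMap q.O B) := by
      intro a b h
      apply hinj
      rw [IsScalarTower.algebraMap_apply q.O B F, IsScalarTower.algebraMap_apply q.O B F, h]
    exact Module.isTorsionFree_iff_algebraMap_injective.2 hinj'
  have hfree : Module.Free q.O B := inferInstance
  -- `y` and `y ^ N / t` are integral
  have hyB : IsIntegral q.O y := isIntegral_of_reg q y fun w e hwe =>
    (hy w e hwe).mono (by norm_num)
  have hzB : IsIntegral q.O (y ^ N / algebraMap K F t) := by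
    refine isIntegral_of_reg q _ fun w e hwe => ?_
    have h2 := (hy w e hwe).pow N
    by_cases h3 : y ^ N = 0
    · left; rw [h3, zero_div]
    · right
      rw [w.ord_div h3 htF, hwe.2, ht]
      have h4 := h2.resolve_left h3
      have h5 : (e : ℤ) ≤ N := by exact_mod_cast hN w e hwe
      omega
  let yB : B := ⟨y, hyB⟩
  let zB : B := ⟨y ^ N / algebraMap K F t, hzB⟩
  let tA : q.O := ⟨t, htr⟩
  have hmul : yB ^ N = algebraMap q.O B tA * zB := by
    apply Subtype.ext
    change y ^ N = algebraMap K F t * (y ^ N / algebraMap K F t)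
    field_simp
  -- trace over the valuation ring
  have htrace : algebraMap q.O K (Algebra.trace q.O B yB) = Algebra.trace K F y := by
    rw [← Algebra.intTrace_eq_trace, Algebra.algebraMap_intTrace (L := F)]
    rfl
  rw [← htrace]
  change Ge q 1 ((Algebra.trace q.O B yB : q.O) : K)
  rw [← mem_maximalIdeal_iff]
  let p := IsLocalRing.maximalIdeal q.O
  let _ : Field (q.O ⧸ p) := Ideal.Quotient.field p
  have hq := Algebra.trace_quotient_mk (R := q.O) (S := B) yB
  rw [← Ideal.Quotient.eq_zero_iff_mem, ← hq]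
  have hnil : IsNilpotent (Algebra.lmul (q.O ⧸ p) (B ⧸ Ideal.map (algebraMap q.O B) p)
      (Ideal.Quotient.mk (Ideal.map (algebraMap q.O B) p) yB)) := by
    refine ⟨N, ?_⟩
    rw [← map_pow, ← map_pow]
    have h3 : (Ideal.Quotient.mk (Ideal.map (algebraMap q.O B) p)) (yB ^ N) = 0 := by
      rw [Ideal.Quotient.eq_zero_iff_mem, hmul]
      exact Ideal.mul_mem_right _ _ (Ideal.mem_map_of_mem _
        ((mem_maximalIdeal_iff q tA).2 (Or.inr ht.ge)))
    rw [h3, map_zero]
  exact (LinearMap.isNilpotent_trace_of_isNilpotent hnil).eq_zero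

end

section

variable {k F : Type*} [Field k] [Field F] [Algebra k F]

/-- functions whose poles at the poles of `x` are simple and at places of `T` -/
def BT (x : F) (T : Finset (Place k F)) : Submodule k F where
  carrier := {y | ∀ w : Place k F, w.ord x < 0 → (w ∈ T → Ge w (-1) y) ∧ (w ∉ T → Ge w 0 y)}
  add_mem' := fun ha hb w hw =>
    ⟨fun h => ((ha w hw).1 h).add ((hb w hw).1 h), fun h => ((ha w hw).2 h).add ((hb w hw).2 h)⟩
  zero_mem' := fun w _ => ⟨fun _ => Ge.zero, fun _ => Ge.zero⟩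
  smul_mem' := by
    intro c y hy w hw
    rw [Algebra.smul_def]
    refine ⟨fun h => ?_, fun h => ?_⟩
    · simpa using (Ge.const (P := w) c).mul ((hy w hw).1 h)
    · simpa using (Ge.const (P := w) c).mul ((hy w hw).2 h)

theorem mem_BT {x : F} {T : Finset (Place k F)} {y : F} : y ∈ BT x T ↔
    ∀ w : Place k F, w.ord x < 0 → (w ∈ T → Ge w (-1) y) ∧ (w ∉ T → Ge w 0 y) := Iff.rfl

theorem BI_le_BT (x : F) (T : Finset (Place k F)) : BI (k := k) x ≤ BT x T := by
  intro y hy w hw
  exact ⟨fun _ => (hy w hw).mono (by norm_num), fun _ => hy w hw⟩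

theorem zpow_mul_BT {x : F} {T : Finset (Place k F)} {y : F} (hy : y ∈ BT x T) {j : ℤ} (hj : j ≤ 0) :
    x ^ j * y ∈ BT x T := by
  intro w hw
  have h8 : Ge w 0 (x ^ j) := by
    right
    rw [w.ord_zpow]
    exact mul_nonneg_of_nonpos_of_nonpos hj hw.le
  refine ⟨fun h => ?_, fun h => ?_⟩
  · simpa using h8.mul ((hy w hw).1 h)
  · simpa using h8.mul ((hy w hw).2 h)

variable [CharZero k] [IsFF k F] [IsAlgClosed k]

/-- an element with a simple pole at `P` and regular at the other poles of `x` -/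
theorem exists_simple {x : F} (hx : Transcendental k x) (P : Place k F) :
    ∃ t π : F, π ≠ 0 ∧ P.ord π = 1 ∧ Ge P 0 (t - π⁻¹) ∧ t ≠ 0 ∧ P.ord t = -1 ∧
      ∀ w : Place k F, w.ord x < 0 → w ≠ P → Ge w 0 t := by
  classical
  obtain ⟨S, hS, -⟩ := poles (k := k) (K := F) hx
  obtain ⟨π, hπ0, hπ⟩ := P.surj
  obtain ⟨y, hy1, hy2⟩ := approx_one (S.erase P) P (by simp) π⁻¹ 0
  have hπi : P.ord π⁻¹ = -1 := by rw [P.ord_inv, hπ]
  have h2 : y ≠ 0 ∧ P.ord y = -1 := by
    by_cases h3 : y - π⁻¹ = 0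
    · rw [sub_eq_zero.1 h3]
      exact ⟨inv_ne_zero hπ0, hπi⟩
    · have h4 := hy1.resolve_left h3
      have h5 := P.ord_add_eq (f := π⁻¹) (g := y - π⁻¹) (inv_ne_zero hπ0) h3 (by omega)
      rwa [add_sub_cancel, hπi] at h5
  exact ⟨y, π, hπ0, hπ, hy1, h2.1, h2.2, fun w hw hwP => hy2 w (Finset.mem_erase.2 ⟨hwP, (hS w).2 hw⟩)⟩

theorem notMem_sup {x : F} {T : Finset (Place k F)} {P : Place k F} (hP : P ∉ T)
    (hPx : P.ord x < 0)
    (hgon : ∀ t : F, Transcendental k t → T.card + 2 ≤ Module.finrank k⟮t⟯ F)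
    {y π : F} (hπ0 : π ≠ 0) (hπ : P.ord π = 1) (hy1 : Ge P 0 (y - π⁻¹))
    (hy2 : ∀ w : Place k F, w.ord x < 0 → w ≠ P → Ge w 0 y) :
    y ∉ BB (k := k) x ⊔ BT x T := by
  classical
  intro hy
  obtain ⟨b, hb, c, hc, hbc⟩ := Submodule.mem_sup.1 hy
  have h1 : Ge P 0 (b - π⁻¹) := by
    have e : b - π⁻¹ = (y - π⁻¹) - c := by rw [← hbc]; ring
    rw [e]
    exact hy1.sub ((hc P hPx).2 hP)
  have hπi : P.ord π⁻¹ = -1 := by rw [P.ord_inv, hπ]
  have h2 : b ≠ 0 ∧ P.ord b = -1 := by
    by_cases h3 : b - π⁻¹ = 0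
    · rw [sub_eq_zero.1 h3]
      exact ⟨inv_ne_zero hπ0, hπi⟩
    · have h4 := h1.resolve_left h3
      have h5 := P.ord_add_eq (f := π⁻¹) (g := b - π⁻¹) (inv_ne_zero hπ0) h3 (by omega)
      rwa [add_sub_cancel, hπi] at h5
  have e : b = y - c := by rw [← hbc]; ring
  have hbt : Transcendental k b := P.transcendental_of_ord_ne (by omega)
  obtain ⟨S, hS, hS2⟩ := poles (k := k) (K := F) hbt
  have h3 : ∀ Q ∈ S, Q ∈ insert P T ∧ -Q.ord b ≤ 1 := by
    intro Q hQ
    have hQb := (hS Q).1 hQ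
    have hQx : Q.ord x < 0 := by
      by_contra hcon
      have := (hb Q (not_lt.1 hcon)).resolve_left h2.1
      omega
    by_cases hQP : Q = P
    · subst hQP
      exact ⟨Finset.mem_insert_self _ _, by omega⟩
    · have h4 := hy2 Q hQx hQP
      by_cases hQT : Q ∈ T
      · refine ⟨Finset.mem_insert_of_mem hQT, ?_⟩
        have h5 : Ge Q (-1) b := by
          rw [e]
          exact (h4.mono (by norm_num)).sub ((hc Q hQx).1 hQT)
        have := h5.resolve_left h2.1
        omega
      · exfalso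
        have h5 : Ge Q 0 b := by
          rw [e]
          exact h4.sub ((hc Q hQx).2 hQT)
        have := h5.resolve_left h2.1
        omega
  have h4 : ∑ w ∈ S, (-w.ord b).toNat * w.deg ≤ ∑ w ∈ S, 1 := by
    apply Finset.sum_le_sum
    intro w hw
    rw [deg_one, mul_one]
    have := (h3 w hw).2
    omega
  have h5 : S.card ≤ (insert P T).card := Finset.card_le_card fun Q hQ => (h3 Q hQ).1
  rw [Finset.card_insert_of_notMem hP] at h5
  rw [hS2, Finset.sum_const, smul_eq_mul, mul_one] at h4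
  have h6 := hgon b hbt
  have h7 : Module.finrank k⟮b⟯ F = Module.finrank (IntermediateField.adjoin k {b}) F := rfl
  omega

/-- the place of `k(x)` under a pole of `x` -/
theorem exists_under {x : F} (hx : Transcendental k x) {P : Place k F} (hPx : P.ord x < 0) :
    ∃ (e0 : ℕ) (q : Place k k⟮x⟯), Over P q e0 ∧
      ∀ (w : Place k F) (e : ℕ), Over w q e → w.ord x < 0 := by
  have hfin := IsFF.finite hx
  let xx : k⟮x⟯ := ⟨x, mem_adjoin_simple_self k x⟩
  obtain ⟨e0, q, hq⟩ := exists_over (K := k⟮x⟯) P ⟨xx, by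
    change P.ord x ≠ 0; omega⟩
  have hqx : q.ord xx < 0 := by
    have h1 := hq.2 xx
    have h2 : P.ord (algebraMap k⟮x⟯ F xx) = P.ord x := rfl
    have h3 := hq.1
    by_contra hcon
    push Not at hcon
    have : (0 : ℤ) ≤ e0 * q.ord xx := by positivity
    omega
  refine ⟨e0, q, hq, fun w e hw => ?_⟩
  have h1 := hw.2 xx
  have h2 : w.ord (algebraMap k⟮x⟯ F xx) = w.ord x := rfl
  have h3 := hw.1
  have h4 : (e : ℤ) * q.ord xx < 0 := mul_neg_of_pos_of_neg (by exact_mod_cast h3) hqx
  omega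

/-- the orders of an element of `k(x)` at a pole of `x` and of its expansion -/
theorem ord_iota {x : F} (hx : Transcendental k x) {P : Place k F} (hPx : P.ord x < 0)
    {r : k⟮x⟯} (hr0 : r ≠ 0) :
    P.ord (algebraMap k⟮x⟯ F r) = -((iota hx r).order * P.ord x) := by
  obtain ⟨p, g, hg, hpg⟩ := exists_px_div r
  have hp : p ≠ 0 := by
    rintro rfl
    rw [map_zero, mul_eq_zero] at hpg
    rcases hpg with h | h
    · exact hr0 h
    · exact hg (px_injective hx (by rw [h, map_zero]))
  have h7 := congrArg (iota hx) hpg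
  rw [map_mul, iota_px, iota_px] at h7
  have h9 := congrArg HahnSeries.order h7
  rw [HahnSeries.order_mul (by rwa [Ne, map_eq_zero]) (eU_ne hg), order_eU hg, order_eU hp] at h9
  have h10 := congrArg (fun z : k⟮x⟯ => P.ord (algebraMap k⟮x⟯ F z)) hpg
  simp only [map_mul] at h10
  have h11 : ∀ s : k[X], algebraMap k⟮x⟯ F (px x s) = aeval x s := coe_px
  rw [h11, h11, P.ord_mul (by simpa using hr0) (ord_aeval_of_neg P hPx hg).1,
    (ord_aeval_of_neg P hPx hg).2, (ord_aeval_of_neg P hPx hp).2] at h10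
  have h12 : (iota hx r).order = (g.natDegree : ℤ) - p.natDegree := by omega
  rw [h12]
  linarith

theorem ord_x_mul {x : F} (hx : Transcendental k x) {P : Place k F} (hPx : P.ord x < 0)
    {r : k⟮x⟯} (hr0 : r ≠ 0) {q : Place k k⟮x⟯} {e0 : ℕ} (hq : Over P q e0) :
    (e0 : ℤ) * q.ord ((⟨x, mem_adjoin_simple_self k x⟩ : k⟮x⟯) * r) =
      (1 - (iota hx r).order) * P.ord x := by
  have hx0 : x ≠ 0 := by
    rintro rfl
    exact hx isAlgebraic_zero
  have h12 : P.ord (algebraMap k⟮x⟯ F ((⟨x, mem_adjoin_simple_self k x⟩ : k⟮x⟯) * r)) =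
      P.ord x + P.ord (algebraMap k⟮x⟯ F r) := by
    rw [map_mul, P.ord_mul _ (by simpa using hr0)]
    · rfl
    · change x ≠ 0; exact hx0
  rw [hq.2, ord_iota hx hPx hr0] at h12
  rw [h12]
  ring

theorem ge_of_coeff {x : F} (hx : Transcendental k x) {P : Place k F} (hPx : P.ord x < 0)
    (r : k⟮x⟯) {q : Place k k⟮x⟯} {e0 : ℕ} (hq : Over P q e0)
    (h6 : ∀ j : ℤ, j < 2 → (iota hx r).coeff j = 0) :
    Ge q 1 ((⟨x, mem_adjoin_simple_self k x⟩ : k⟮x⟯) * r) := by
  by_cases hr0 : r = 0
  · left; rw [hr0, mul_zero]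
  have h8 : 2 ≤ (iota hx r).order := by
    by_contra hlt
    push Not at hlt
    have h9 := h6 _ hlt
    rw [HahnSeries.coeff_order_eq_zero, map_eq_zero] at h9
    exact hr0 h9
  right
  have h12 := ord_x_mul hx hPx hr0 hq
  have h16 : (0 : ℤ) < e0 * q.ord ((⟨x, mem_adjoin_simple_self k x⟩ : k⟮x⟯) * r) := by
    rw [h12]
    exact mul_pos_of_neg_of_neg (by omega) hPx
  have h17 := (pos_iff_pos_of_mul_pos h16).1 (by exact_mod_cast hq.1)
  omega

theorem coeff_of_ge {x : F} (hx : Transcendental k x) {P : Place k F} (hPx : P.ord x < 0)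
    (r : k⟮x⟯) {q : Place k k⟮x⟯} {e0 : ℕ} (hq : Over P q e0)
    (h : Ge q 1 ((⟨x, mem_adjoin_simple_self k x⟩ : k⟮x⟯) * r)) :
    (iota hx r).coeff 1 = 0 := by
  by_cases hr0 : r = 0
  · rw [hr0, map_zero, HahnSeries.coeff_zero]
  have hx0 : x ≠ 0 := by
    rintro rfl
    exact hx isAlgebraic_zero
  have hxx : (⟨x, mem_adjoin_simple_self k x⟩ : k⟮x⟯) ≠ 0 := by
    intro h
    exact hx0 (congrArg Subtype.val h)
  have h1 := h.resolve_left (mul_ne_zero hxx hr0)
  have h12 := ord_x_mul hx hPx hr0 hq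
  have h16 : (0 : ℤ) < e0 * q.ord ((⟨x, mem_adjoin_simple_self k x⟩ : k⟮x⟯) * r) :=
    mul_pos (by exact_mod_cast hq.1) (by omega)
  rw [h12] at h16
  have h17 : 1 - (iota hx r).order < 0 := by
    by_contra hcon
    push Not at hcon
    have := mul_nonpos_of_nonneg_of_nonpos hcon hPx.le
    omega
  exact HahnSeries.coeff_eq_zero_of_lt_order (by omega)

theorem rrs_core {x : F} {T : Finset (Place k F)} {P : Place k F} (hP : P ∉ T)
    (hPx : P.ord x < 0) (hT : ∀ Q ∈ T, Q.ord x < 0)
    (hgon : ∀ t : F, Transcendental k t → T.card + 2 ≤ Module.finrank k⟮t⟯ F)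
    {D : Derivation k F F} (hD : D x = 1) :
    ∃ f : F, f ≠ 0 ∧ (∀ Q : Place k F, vo Q D ≤ Q.ord f) ∧ P.ord f = vo P D ∧
      ∀ Q ∈ T, vo Q D + 1 ≤ Q.ord f := by
  classical
  have hD0 : D ≠ 0 := by
    rintro rfl
    simp at hD
  have hx : Transcendental k x := P.transcendental_of_ord_ne (by omega)
  have hx0 : x ≠ 0 := by
    rintro rfl
    exact hx isAlgebraic_zero
  have hfin := IsFF.finite hx
  have hsF : IsScalarTower k k⟮x⟯ F := inferInstance
  obtain ⟨y, π, hπ0, hπ, hy1, hy0, hyP, hy2⟩ := exists_simple hx P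
  have hnot := notMem_sup hP hPx hgon hπ0 hπ hy1 hy2
  obtain ⟨lam, hlam, hle⟩ := Submodule.exists_le_ker_of_notMem hnot
  have hB : ∀ z ∈ BB (k := k) x, lam z = 0 := fun z hz => hle (Submodule.mem_sup_left hz)
  have hTT : ∀ z ∈ BT (k := k) x T, lam z = 0 := fun z hz => hle (Submodule.mem_sup_right hz)
  have hI : ∀ z ∈ BI (k := k) x, lam z = 0 := fun z hz => hTT z (BI_le_BT x T hz)
  have hlam0 : lam ≠ 0 := by
    rintro rfl
    exact hlam rfl
  obtain ⟨f, hf0, hf⟩ := exists_mult lam hI hx hB hlam0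
  have hreg := mult_regular hx D hD lam hI hB hf0 hf
  have hvo : ∀ Q : Place k F, Q.ord x < 0 → Q.ord x = 1 - vo Q D := by
    intro Q hQ
    have h := (ord_der Q hD0 (f := x) (by omega)).2
    rw [hD, Q.ord_one] at h
    omega
  have hfs := finite_support (k := k) x
  have hmemZ : ∀ w : Place k F, w.ord x < 0 → w ∈ hfs.toFinset.filter fun w => w.ord x < 0 := by
    intro w hw
    rw [Finset.mem_filter, hfs.mem_toFinset]
    refine ⟨?_, hw⟩
    show w.ord x ≠ 0
    omega
  refine ⟨f, hf0, hreg, ?_, ?_⟩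
  · -- the order at `P`
    by_contra hcon
    have h1 : vo P D + 1 ≤ P.ord f := by
      have := hreg P
      omega
    apply hlam
    obtain ⟨e0, q, hq, hover⟩ := exists_under hx hPx
    have h2 : ∀ w : Place k F, w.ord x < 0 → Ge w 1 (x * f * y) := by
      intro w hw
      have h3 := hvo w hw
      have h4 : Ge w (1 - vo w D) x := Or.inr h3.ge
      by_cases hwP : w = P
      · subst hwP
        have h5 : Ge w (vo w D + 1) f := Or.inr h1
        have h6 : Ge w (-1) y := Or.inr hyP.ge
        refine ((h4.mul h5).mul h6).mono (by omega)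
      · have h5 : Ge w (vo w D) f := Or.inr (hreg w)
        refine ((h4.mul h5).mul (hy2 w hw hwP)).mono (by omega)
    obtain ⟨t, ht0, ht⟩ := q.surj
    set Z := hfs.toFinset.filter fun w => w.ord x < 0 with hZ
    have h3 : Ge q 1 (Algebra.trace k⟮x⟯ F (x * f * y)) := by
      refine trace_ge q (x * f * y) (∑ w ∈ Z, (w.ord (algebraMap k⟮x⟯ F t)).natAbs) ?_ ?_
      · intro w e hw
        have h4 := hmemZ w (hover w e hw)
        have h5 := Finset.single_le_sum (f := fun w : Place k F => (w.ord (algebraMap k⟮x⟯ F t)).natAbs)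
          (fun _ _ => Nat.zero_le _) h4
        refine le_trans ?_ h5
        change e ≤ (w.ord (algebraMap k⟮x⟯ F t)).natAbs
        rw [hw.2, ht]
        omega
      · intro w e hw
        exact h2 w (hover w e hw)
    have h5 : Algebra.trace k⟮x⟯ F (x * f * y) =
        (⟨x, mem_adjoin_simple_self k x⟩ : k⟮x⟯) * Algebra.trace k⟮x⟯ F (f * y) := by
      rw [mul_assoc]
      exact trace_mul_left (⟨x, mem_adjoin_simple_self k x⟩ : k⟮x⟯) (f * y)
    rw [h5] at h3
    have h6 := coeff_of_ge hx hPx _ hq h3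
    rw [hf y, SS_coeff, sub_self, zpow_zero, one_mul] at h6
    exact h6
  · -- the order at the places of `T`
    intro Q hQ
    have hQx := hT Q hQ
    by_contra hcon
    obtain ⟨e0, q, hq, hover⟩ := exists_under hx hQx
    obtain ⟨t, π', -, -, -, ht0, htQ, ht2⟩ := exists_simple hx Q
    have h3 := hvo Q hQx
    obtain ⟨b, hb1, hb2⟩ := exists_contra q Q e0 hq (hfs.toFinset.filter fun w => w.ord x < 0)
      (fun w e hw => hmemZ w (hover w e hw))
      (x * f * t) (mul_ne_zero (mul_ne_zero hx0 hf0) ht0) (by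
        rw [Q.ord_mul (mul_ne_zero hx0 hf0) ht0, Q.ord_mul hx0 hf0]
        omega)
    apply hb2
    have hbT : t * b ∈ BT (k := k) x T := by
      intro w hw
      have h4 : Ge w 0 b := hb1 w (hmemZ w hw)
      by_cases hwQ : w = Q
      · subst hwQ
        have h5 : Ge w (-1) t := Or.inr htQ.ge
        refine ⟨fun _ => (h5.mul h4).mono (by norm_num), fun h => absurd hQ h⟩
      · have h5 := (ht2 w hw hwQ).mul h4
        exact ⟨fun _ => h5.mono (by norm_num), fun _ => h5.mono (by norm_num)⟩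
    have h5 : Algebra.trace k⟮x⟯ F (x * f * t * b) =
        (⟨x, mem_adjoin_simple_self k x⟩ : k⟮x⟯) * Algebra.trace k⟮x⟯ F (f * (t * b)) := by
      have e1 : x * f * t * b = x * (f * (t * b)) := by ring
      rw [e1]
      exact trace_mul_left (⟨x, mem_adjoin_simple_self k x⟩ : k⟮x⟯) (f * (t * b))
    rw [h5]
    refine ge_of_coeff hx hQx _ hq fun j hj => ?_
    rw [hf (t * b), SS_coeff]
    exact hTT _ (zpow_mul_BT hbT (by omega))

theorem rrs {T : Finset (Place k F)} {P : Place k F} (hP : P ∉ T)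
    (hgon : ∀ t : F, Transcendental k t → T.card + 2 ≤ Module.finrank k⟮t⟯ F)
    {D : Derivation k F F} (hD : D ≠ 0) :
    ∃ f : F, f ≠ 0 ∧ (∀ Q : Place k F, vo Q D ≤ Q.ord f) ∧ P.ord f = vo P D ∧
      ∀ Q ∈ T, vo Q D + 1 ≤ Q.ord f := by
  classical
  obtain ⟨x, hxT⟩ := exists_poles_at (insert P T)
  have hPx := hxT P (Finset.mem_insert_self _ _)
  have hx : Transcendental k x := P.transcendental_of_ord_ne (by omega)
  have hDx := der_ne_zero hD hx
  obtain ⟨f, hf0, hf1, hf2, hf3⟩ := rrs_core hP hPx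
    (fun Q hQ => hxT Q (Finset.mem_insert_of_mem hQ)) hgon (D := (D x)⁻¹ • D) (by simp [hDx])
  have hvo : ∀ Q : Place k F, vo Q ((D x)⁻¹ • D) = -Q.ord (D x) + vo Q D := fun Q => by
    rw [vo_smul Q hD (inv_ne_zero hDx), Q.ord_inv]
  have hmul : ∀ Q : Place k F, Q.ord (f * D x) = Q.ord f + Q.ord (D x) := fun Q =>
    Q.ord_mul hf0 hDx
  refine ⟨f * D x, mul_ne_zero hf0 hDx, fun Q => ?_, ?_, fun Q hQ => ?_⟩
  · have h1 := hf1 Q
    rw [hvo] at h1
    rw [hmul]
    omega
  · rw [hvo] at hf2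
    rw [hmul]
    omega
  · have h1 := hf3 Q hQ
    rw [hvo] at h1
    rw [hmul]
    omega

end

end Pool.Agent.Helper320.PC.RRS

namespace Pool.Agent.Helper320.PC

theorem t_RRS : S_RRS := by
  intro k F _ _ _ _ _ _ T P hP hgon D hD
  exact RRS.rrs hP hgon hD

end Pool.Agent.Helper320.PC
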