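import Pool.Agent.Helper320.PC.Stm2

/-!
Images of products of curves: the forms span the differentials of the geometric generic fibre.
-/

set_option autoImplicit false
set_option linter.overlappingInstances false
set_option linter.unusedSectionVars false

open Polynomial FF IntermediateField Pool.Agent.W603.LV
open Pool.Agent.W619.PQ (extForm)
open Pool.Agent.W619.TW (MM Cur)

namespace Pool.Agent.Helper320.PC.SPF

section

variable {k K V : Type*} [Field k] [Field K] [Algebra k K] [CharZero k] [AddCommGroup V]
  [Module k V] [Module K V] [IsScalarTower k K V]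

/-- A derivation with values in a module which vanishes on a transcendence basis is zero. -/
theorem der_zero_mod {ι : Type*} (d : Derivation k K V) (x : ι → K)
    (hx : IsTranscendenceBasis k x) (h : ∀ i, d (x i) = 0) (f : K) : d f = 0 := by
  let C : IntermediateField k K :=
    { carrier := {f | d f = 0}
      mul_mem' := fun {a b} ha hb => by
        change d (a * b) = 0
        rw [d.leibniz, show d a = 0 from ha, show d b = 0 from hb, smul_zero, smul_zero, add_zero]
      one_mem' := d.map_one_eq_zero
      add_mem' := fun {a b} ha hb => by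
        change d (a + b) = 0
        rw [map_add, show d a = 0 from ha, show d b = 0 from hb, add_zero]
      zero_mem' := map_zero d
      algebraMap_mem' := fun r => d.map_algebraMap r
      inv_mem' := fun a ha => by
        change d a⁻¹ = 0
        rw [d.leibniz_inv, show d a = 0 from ha, smul_zero] }
  have hle : Algebra.adjoin k (Set.range x) ≤ C.toSubalgebra := by
    rw [Algebra.adjoin_le_iff]
    rintro _ ⟨i, rfl⟩
    exact h i
  have halg := hx.isAlgebraic
  let φ : Algebra.adjoin k (Set.range x) →+* C := (Subalgebra.inclusion hle : _ →+* _)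
  have hf : IsAlgebraic C f :=
    (halg.isAlgebraic f).ringHom_of_comp_eq φ (RingHom.id K)
      (Subalgebra.inclusion_injective hle) (by ext z; rfl)
  have hchar : CharZero C := charZero_of_injective_algebraMap (algebraMap k C).injective
  have key : ∀ p : C[X], d (aeval f p) = (aeval f (derivative p)) • d f := by
    intro p
    induction p using Polynomial.induction_on' with
    | add p q hp hq => rw [map_add, map_add, hp, hq, derivative_add, map_add, add_smul]
    | monomial i a =>
      have ha : d (a : K) = 0 := a.2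
      rw [aeval_monomial, derivative_monomial, aeval_monomial, d.leibniz]
      change (a : K) • d (f ^ i) + f ^ i • d (a : K) = _
      rw [ha, smul_zero, add_zero, d.leibniz_pow, map_mul, map_natCast]
      change _ = ((a : K) * (i : K) * f ^ (i - 1)) • d f
      rw [mul_assoc, mul_smul, mul_smul, Nat.cast_smul_eq_nsmul]
  have h1 := key (minpoly C f)
  rw [minpoly.aeval, map_zero] at h1
  have h2 : aeval f (derivative (minpoly C f)) ≠ 0 :=
    (minpoly.irreducible hf.isIntegral).separable.aeval_derivative_ne_zero (minpoly.aeval _ _)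
  exact (smul_eq_zero.1 h1.symm).resolve_left h2

theorem sum_der_apply {ι : Type*} (s : Finset ι) (D : ι → Derivation k K V) (z : K) :
    (∑ i ∈ s, D i) z = ∑ i ∈ s, D i z := by
  classical
  induction s using Finset.induction_on with
  | empty => simp
  | insert a s ha ih => rw [Finset.sum_insert ha, Finset.sum_insert ha, Derivation.add_apply, ih]

end

section

variable {k K : Type*} [Field k] [Field K] [Algebra k K] [CharZero k]

theorem zero_B (B : IntermediateField k K) {ι : Type*} (t : ι → B)
    (ht : IsTranscendenceBasis k t) (D : Derivation k K K) (h : ∀ i, D (t i : K) = 0) (z : K)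
    (hz : z ∈ B) : D z = 0 :=
  der_zero_mod (D.compAlgebraMap B) t ht h ⟨z, hz⟩

theorem stab_B (B : IntermediateField k K) {m : ℕ} (t : Fin m → B)
    (ht : IsTranscendenceBasis k t) (D : Derivation k K K) (h : ∀ i, D (t i : K) ∈ B) (z : K)
    (hz : z ∈ B) : D z ∈ B := by
  classical
  choose G hG using fun j => Pool.Agent.W619.PQ.exists_dual t ht j
  have h1 := der_zero_mod ((D.compAlgebraMap B) -
    ∑ j, D (t j : K) • ((Algebra.linearMap B K).compDer (G j))) t ht (fun i => by
      rw [Derivation.sub_apply, sum_der_apply]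
      have h2 : ∀ j, (D (t j : K) • ((Algebra.linearMap B K).compDer (G j)) :
          Derivation k B K) (t i) = D (t j : K) * ((G j (t i) : B) : K) := fun j => rfl
      simp only [h2, hG]
      rw [Finset.sum_eq_single i]
      · rw [if_pos rfl]
        change D (t i : K) - D (t i : K) * (1 : K) = 0
        ring
      · intro j _ hj
        rw [if_neg (Ne.symm hj)]
        exact mul_zero _
      · intro h; exact absurd (Finset.mem_univ _) h) ⟨z, hz⟩
  rw [Derivation.sub_apply, sum_der_apply, sub_eq_zero] at h1
  change D z = _ at h1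
  rw [h1]
  refine sum_mem fun j _ => ?_
  change D (t j : K) * ((G j ⟨z, hz⟩ : B) : K) ∈ B
  exact mul_mem (h j) (G j ⟨z, hz⟩).2

theorem det_ne {m : ℕ} (y x : Fin m → K) (hx : IsTranscendenceBasis k x)
    (hy : IsTranscendenceBasis k y) (E : Fin m → Derivation k K K)
    (hE : ∀ a b, E a (y b) = if a = b then 1 else 0) :
    (Matrix.of fun a l => E a (x l)).det ≠ 0 := by
  classical
  choose G hG using fun l => Pool.Agent.W619.PQ.exists_dual x hx l
  have key : ∀ l z, G l z = ∑ a, G l (y a) * E a z := by
    intro l z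
    have h1 := der_zero_mod (G l - ∑ a, (G l (y a)) • E a) y hy (fun b => by
      rw [Derivation.sub_apply, sum_der_apply]
      have h2 : ∀ a, (G l (y a) • E a : Derivation k K K) (y b) = G l (y a) * E a (y b) :=
        fun a => rfl
      simp only [h2, hE]
      rw [Finset.sum_eq_single b]
      · rw [if_pos rfl]; ring
      · intro a _ ha
        rw [if_neg ha, mul_zero]
      · intro h; exact absurd (Finset.mem_univ _) h) z
    rw [Derivation.sub_apply, sum_der_apply, sub_eq_zero] at h1
    exact h1
  have hP : (Matrix.of fun l a => G l (y a)) * (Matrix.of fun a l => E a (x l)) = 1 := by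
    ext l m
    rw [Matrix.mul_apply]
    simp only [Matrix.of_apply]
    rw [← key, hG, Matrix.one_apply]
    by_cases h : m = l
    · rw [if_pos h, if_pos h.symm]
    · rw [if_neg h, if_neg (Ne.symm h)]
  intro h0
  have h1 := congrArg Matrix.det hP
  rw [Matrix.det_mul, h0, mul_zero, Matrix.det_one] at h1
  exact zero_ne_one h1

/-- expansion of the determinant along a row with one nonzero entry -/
theorem det_expand {n : ℕ} (B : IntermediateField k K) (M : Matrix (Fin (n + 1)) (Fin (n + 1)) K)
    (i : Fin (n + 1)) (h0 : ∀ l, l ≠ i → M (Fin.last n) l = 0)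
    (hB : ∀ a l, a ≠ Fin.last n → l ≠ i → M a l ∈ B) :
    ∃ u ∈ B, M.det = u * M (Fin.last n) i := by
  classical
  have hdet : (M.submatrix (Fin.last n).succAbove i.succAbove).det ∈ B := by
    rw [Matrix.det_apply]
    refine sum_mem fun σ _ => ?_
    rw [Units.smul_def, zsmul_eq_mul]
    refine mul_mem (intCast_mem _ _) (prod_mem fun a _ => ?_)
    exact hB _ _ (Fin.succAbove_ne _ _) (Fin.succAbove_ne _ _)
  refine ⟨(-1) ^ (((Fin.last n : Fin (n + 1)) : ℕ) + (i : ℕ)) *
    (M.submatrix (Fin.last n).succAbove i.succAbove).det, ?_, ?_⟩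
  · exact mul_mem (pow_mem (neg_mem (one_mem _)) _) hdet
  · rw [Matrix.det_succ_row M (Fin.last n), Finset.sum_eq_single i]
    · ring
    · intro l _ hl
      rw [h0 l hl, mul_zero, zero_mul]
    · intro h; exact absurd (Finset.mem_univ _) h

end

section

variable {k : Type} [Field k]

theorem isFF_equiv {K A : Type} [Field K] [Field A] [Algebra k K] [Algebra k A] (e : K ≃ₐ[k] A)
    (h : IsFF k K) : IsFF k A := by
  constructor
  · exact (Algebra.EssFiniteType.iff_of_algEquiv e).1 h.ess
  · rw [← e.trdeg_eq]
    exact h.trdeg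

variable {K A : Type} [Field K] [Field A] [Algebra k K] [Algebra k A]

/-- transport of a derivation -/
noncomputable def tder (e : K ≃ₐ[k] A) (D : Derivation k K K) : Derivation k A A :=
  Derivation.mk' ((e.toLinearMap ∘ₗ (D : K →ₗ[k] K)) ∘ₗ e.symm.toLinearMap) (by
    intro a b
    change e (D (e.symm (a * b))) = a • e (D (e.symm b)) + b • e (D (e.symm a))
    rw [map_mul, D.leibniz, map_add]
    simp only [smul_eq_mul, map_mul, AlgEquiv.apply_symm_apply])

theorem tder_apply (e : K ≃ₐ[k] A) (D : Derivation k K K) (z : K) :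
    tder e D (e z) = e (D z) := by
  change e (D (e.symm (e z))) = _
  rw [e.symm_apply_apply]

/-- transport of a place -/
def tpl (e : K ≃ₐ[k] A) (P : Place k K) : Place k A where
  ord w := P.ord (e.symm w)
  ord_zero := by rw [map_zero, P.ord_zero]
  ord_mul := fun {f g} hf hg => by
    rw [map_mul, P.ord_mul (by simpa using hf) (by simpa using hg)]
  ord_add := fun {f g} hf hg h => by
    rw [map_add]
    refine P.ord_add (by simpa using hf) (by simpa using hg) ?_
    rw [← map_add]
    exact fun h0 => h ((map_eq_zero_iff e.symm e.symm.injective).1 h0)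
  ord_const := fun {c} hc => by
    rw [AlgEquiv.commutes]
    exact P.ord_const hc
  surj := by
    obtain ⟨t, ht0, ht⟩ := P.surj
    exact ⟨e t, by simpa using ht0, by rw [e.symm_apply_apply]; exact ht⟩

theorem isRegD_back [CharZero k] [IsAlgClosed k] [IsFF k K] (e : K ≃ₐ[k] A)
    {D : Derivation k K K} (hD : D ≠ 0) {c : A} (h : IsRegD (tder e D) c) :
    IsRegD D (e.symm c) := by
  intro P
  have h1 := h (tpl e P)
  have h2 : vo (tpl e P) (tder e D) = vo P D := by
    have h3 : P.ord (e.symm (unif (tpl e P))) = 1 := ord_unif (tpl e P)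
    rw [← vo_eq P h3 hD]
    change P.ord (e.symm (e (D (e.symm (unif (tpl e P)))))) = _
    rw [e.symm_apply_apply]
  rw [h2] at h1
  rcases h1 with h1 | h1
  · left; rw [h1, map_zero]
  · right; exact h1

end

section

variable {k : Type} [Field k]

/-- the image of the field of constants -/
noncomputable def img {Λ A : Type} [Field Λ] [Field A] [Algebra k Λ] [Algebra Λ A] [Algebra k A]
    [IsScalarTower k Λ A] : IntermediateField k A := (IsScalarTower.toAlgHom k Λ A).fieldRange

theorem mem_img {Λ A : Type} [Field Λ] [Field A] [Algebra k Λ] [Algebra Λ A] [Algebra k A]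
    [IsScalarTower k Λ A] (z : A) :
    z ∈ (img (k := k) (Λ := Λ) (A := A)) ↔ z ∈ Set.range (algebraMap Λ A) := Iff.rfl

variable {K Λ A : Type} [Field K] [Algebra k K] [Field Λ] [Algebra k Λ] [Field A] [Algebra Λ A]
  [Algebra k A] [IsScalarTower k Λ A]

theorem tr_img {w : A} (h : Transcendental Λ w) : Transcendental (img (k := k) (Λ := Λ) (A := A)) w := by
  intro halg
  apply h
  have hc : ∀ z : img (k := k) (Λ := Λ) (A := A), ∃ a : Λ, algebraMap Λ A a = z := fun z => z.2
  choose g hg using hc
  have hinj := (algebraMap Λ A).injective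
  let f : img (k := k) (Λ := Λ) (A := A) →+* Λ :=
    { toFun := g
      map_one' := hinj (by rw [hg, map_one]; rfl)
      map_mul' := fun a b => hinj (by rw [hg, map_mul, hg, hg]; rfl)
      map_zero' := hinj (by rw [hg, map_zero]; rfl)
      map_add' := fun a b => hinj (by rw [hg, map_add, hg, hg]; rfl) }
  exact halg.ringHom_of_comp_eq f (RingHom.id A) f.injective (by ext z; exact hg z)

theorem cur_img {M F : IntermediateField k K} (hc : Cur M F) (φ : K →ₐ[k] A)
    (hgen : IntermediateField.adjoin Λ (Set.range φ) = ⊤)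
    (hM : ∀ z ∈ M, ∃ a : Λ, algebraMap Λ A a = φ z)
    (htr : ∀ z : K, ¬ IsAlgebraic M z → Transcendental Λ (φ z)) :
    Cur (img (k := k) (Λ := Λ) (A := A)) (F.map φ) := by
  refine ⟨isFF_equiv (F.equivMap φ) hc.ff, ?_, ?_⟩
  · rintro ⟨y, hy⟩ hyt
    obtain ⟨z, hz, rfl⟩ := hy
    have hzt : Transcendental k (⟨z, hz⟩ : F) := by
      intro halg
      apply hyt
      have h1 := halg.algHom (F.equivMap φ : F →ₐ[k] F.map φ)
      exact h1
    exact tr_img (htr z (hc.tr ⟨z, hz⟩ hzt))
  · rw [eq_top_iff]
    intro w _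
    have hKT : ∀ z : K, φ z ∈ (img (k := k) (Λ := Λ) (A := A)) ⊔ F.map φ := by
      intro z
      have h1 : (M ⊔ F).map φ ≤ (img (k := k) (Λ := Λ) (A := A)) ⊔ F.map φ := by
        rw [IntermediateField.map_sup]
        refine sup_le_sup ?_ le_rfl
        rintro _ ⟨z, hz, rfl⟩
        exact hM z hz
      rw [hc.sup] at h1
      exact h1 ⟨z, trivial, rfl⟩
    let T : IntermediateField Λ A :=
      { ((img (k := k) (Λ := Λ) (A := A)) ⊔ F.map φ).toSubfield with
        algebraMap_mem' := fun r => (le_sup_left :
          (img (k := k) (Λ := Λ) (A := A)) ≤ _ ⊔ F.map φ) ⟨r, rfl⟩ }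
    have h2 : IntermediateField.adjoin Λ (Set.range φ) ≤ T := by
      rw [IntermediateField.adjoin_le_iff]
      rintro _ ⟨z, rfl⟩
      exact hKT z
    rw [hgen] at h2
    exact h2 (by trivial : w ∈ (⊤ : IntermediateField Λ A))

end

end Pool.Agent.Helper320.PC.SPF

namespace Pool.Agent.Helper320.PC

open Pool.Agent.W619.TW (cur_MM le_MM der_comp)
open Pool.Agent.W619.PQ (basis_of_iSup)

theorem t_SPF (hGEN : S_GEN) : S_SPF := by
  intro K _ _ n F _ hsup hn D0 hD0 x c hx hc i J b hb Λ A _ _ _ _ _ _ _ φ hFF hgen hM htr t ξ ht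
    hbas E hE D hDξ f hf0 hf
  classical
  set B := MM F i with hBdef
  have hcur : Cur B (F i) := cur_MM F hsup hn i
  have hBff : IsFF B K := hcur.isFF
  have htB : Algebra.trdeg ℂ B = n := by
    have h1 := trdeg_add_eq ℂ B (A := K)
    rw [hBff.trdeg, hn] at h1
    push_cast at h1
    exact Cardinal.eq_of_add_eq_add_right h1 Cardinal.one_lt_aleph0
  have hyt : ∀ j, Fin.append t (fun _ : Fin 1 => ξ) (Fin.castSucc j) = t j :=
    fun j => Fin.append_left t (fun _ : Fin 1 => ξ) j
  have hyx : Fin.append t (fun _ : Fin 1 => ξ) (Fin.last n) = ξ :=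
    Fin.append_right t (fun _ : Fin 1 => ξ) 0
  let t' : Fin n → B := fun j => ⟨t j, ht j⟩
  have ht'ind : AlgebraicIndependent ℂ t' := by
    have h1 := hbas.1.comp (Fin.castSucc : Fin n → Fin (n + 1)) (Fin.castSucc_injective n)
    have h2 : AlgebraicIndependent ℂ t := by
      convert h1 using 1
      ext j
      exact (hyt j).symm
    exact AlgebraicIndependent.of_comp B.val h2
  have ht'b : IsTranscendenceBasis ℂ t' :=
    ht'ind.isTranscendenceBasis_of_lift_trdeg_le_of_finite (by rw [htB]; simp)
  have hEt : ∀ a j, E a (t j) = if a = Fin.castSucc j then 1 else 0 := fun a j => by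
    rw [← hE, hyt]
  have hE'B : ∀ z ∈ B, E (Fin.last n) z = 0 := fun z hz =>
    SPF.zero_B B t' ht'b _ (fun j => by
      change E (Fin.last n) (t j) = 0
      rw [hEt, if_neg (Fin.castSucc_lt_last j).ne']) z hz
  have hEB : ∀ a, ∀ z ∈ B, E a z ∈ B := fun a z hz =>
    SPF.stab_B B t' ht'b _ (fun j => by
      change E a (t j) ∈ B
      rw [hEt]
      split_ifs
      · exact one_mem _
      · exact zero_mem _) z hz
  have hxB : ∀ l, l ≠ i → (x l : K) ∈ B := fun l hl => le_MM F hl (x l).2
  have hxbas : IsTranscendenceBasis ℂ fun l => (x l : K) := basis_of_iSup F hsup hn x hx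
  obtain ⟨u, huB, hu⟩ := SPF.det_expand B (Matrix.of fun a l => E a (x l : K)) i
    (fun l hl => hE'B _ (hxB l hl)) (fun a l _ hl => hEB a _ (hxB l hl))
  have hdet := SPF.det_ne _ (fun l => (x l : K)) hxbas hbas E hE
  rw [hu] at hdet
  have hu0 : u ≠ 0 := left_ne_zero_of_mul hdet
  have hDx : ∀ l, D0 l (x l) ≠ 0 := fun l => der_ne_zero (hD0 l) (hx l)
  set v : K := u * ∏ l ∈ Finset.univ.erase i, ((c l / D0 l (x l) : F l) : K) with hv
  have hvB : v ∈ B := mul_mem huB (prod_mem fun l hl =>
    le_MM F (Finset.ne_of_mem_erase hl) (c l / D0 l (x l) : F l).2)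
  have hv0 : v ≠ 0 := mul_ne_zero hu0 (Finset.prod_ne_zero_iff.2 fun l _ => by
    have := div_ne_zero (hc l) (hDx l)
    simpa using this)
  have hext : ∀ j, extForm (K := K) 1 D0 x (fun l => if h : l = i then h ▸ b j else c l) E =
      v * (((b j / D0 i (x i) : F i) : K) * E (Fin.last n) (x i : K)) := by
    intro j
    have hprod : ∏ l, algebraMap (F l) K
        ((if h : l = i then h ▸ b j else c l) / D0 l (x l) ^ 1) =
        ((b j / D0 i (x i) : F i) : K) *
          ∏ l ∈ Finset.univ.erase i, ((c l / D0 l (x l) : F l) : K) := by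
      rw [← Finset.mul_prod_erase Finset.univ _ (Finset.mem_univ i)]
      congr 1
      · rw [dif_pos rfl, pow_one]
        rfl
      · refine Finset.prod_congr rfl fun l hl => ?_
        rw [dif_neg (Finset.ne_of_mem_erase hl), pow_one]
        rfl
    unfold extForm
    rw [pow_one]
    change (∏ l, algebraMap (F l) K ((if h : l = i then h ▸ b j else c l) / D0 l (x l) ^ 1)) *
      (Matrix.of fun a l => E a (x l : K)).det = _
    rw [hprod, hu, hv, Matrix.of_apply]
    ring
  let _ : Algebra K A := φ.toRingHom.toAlgebra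
  have _ : IsScalarTower ℂ K A := IsScalarTower.of_algebraMap_eq fun r => (φ.commutes r).symm
  have hDφ : ∀ z : K, D (φ z) = φ (E (Fin.last n) z) := by
    intro z
    refine der_comp (E (Fin.last n)) (D.restrictScalars ℂ) _ hbas (fun a => ?_) z
    change D (φ _) = φ _
    rw [hE]
    rcases Fin.eq_castSucc_or_eq_last a with ⟨j, rfl⟩ | rfl
    · rw [hyt, if_neg (Fin.castSucc_lt_last j).ne', map_zero]
      obtain ⟨a, ha⟩ := hM _ (ht j)
      rw [← ha, Derivation.map_algebraMap]
    · rw [hyx, if_pos rfl, map_one, hDξ]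
  have hDne : D ≠ 0 := by
    rintro rfl
    rw [Derivation.zero_apply] at hDξ
    exact zero_ne_one hDξ
  let e := (F i).equivMap φ
  have he : ∀ w : F i, ((e w : (F i).map φ) : A) = φ (w : K) := fun w => rfl
  have hx1 : Transcendental ℂ (e (x i)) := by
    intro halg
    apply hx i
    have h1 := halg.algHom (e.symm : (F i).map φ →ₐ[ℂ] F i)
    change IsAlgebraic ℂ (e.symm (e (x i))) at h1
    rwa [e.symm_apply_apply] at h1
  have hD1 : SPF.tder e (D0 i) ≠ 0 := by
    intro h0
    have h1 := SPF.tder_apply e (D0 i) (x i)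
    rw [h0, Derivation.zero_apply] at h1
    exact hDx i ((map_eq_zero_iff e e.injective).1 h1.symm)
  have hG := hGEN (k := ℂ) (Λ := Λ) (A := A) SPF.img ((F i).map φ) (fun z => SPF.mem_img z)
    (SPF.cur_img hcur φ hgen hM htr) (e (x i)) hx1 (SPF.tder e (D0 i)) hD1 D hDne f
    (fun Q => Or.inr (hf Q))
  obtain ⟨a, ha⟩ := hM v hvB
  have ha0 : a ≠ 0 := by
    rintro rfl
    rw [map_zero] at ha
    exact hv0 ((map_eq_zero_iff φ φ.injective).1 ha.symm)
  have hmain : ∀ z ∈ Submodule.span ℂ (Set.range b),
      φ (((z / D0 i (x i) : F i) : K) * E (Fin.last n) (x i : K)) ∈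
      Submodule.span Λ (Set.range fun j : J =>
        φ (extForm (K := K) 1 D0 x (fun l => if h : l = i then h ▸ b j else c l) E)) := by
    intro z hz
    induction hz using Submodule.span_induction with
    | mem z hz =>
      obtain ⟨j, rfl⟩ := hz
      have h1 : φ (((b j / D0 i (x i) : F i) : K) * E (Fin.last n) (x i : K)) = a⁻¹ •
          φ (extForm (K := K) 1 D0 x (fun l => if h : l = i then h ▸ b j else c l) E) := by
        rw [hext j, map_mul φ v, ← ha, ← Algebra.smul_def, smul_smul, inv_mul_cancel₀ ha0, one_smul]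
      rw [h1]
      exact Submodule.smul_mem _ _ (Submodule.subset_span ⟨j, rfl⟩)
    | zero =>
      rw [zero_div]
      change φ ((0 : K) * _) ∈ _
      rw [zero_mul, map_zero]
      exact Submodule.zero_mem _
    | add z w _ _ hz hw =>
      rw [add_div]
      change φ ((_ + _) * _) ∈ _
      rw [add_mul, map_add]
      exact Submodule.add_mem _ hz hw
    | smul r z _ hz =>
      rw [smul_div_assoc]
      change φ ((r • ((z / D0 i (x i) : F i) : K)) * _) ∈ _
      rw [smul_mul_assoc, map_smul]
      exact Submodule.smul_of_tower_mem _ r hz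
  refine (Submodule.span_le.2 ?_) hG
  rintro _ ⟨⟨c1, hc1⟩, rfl⟩
  have h1 := hmain _ (hb (e.symm c1) (SPF.isRegD_back e (hD0 i) hc1))
  rw [map_mul, ← hDφ] at h1
  have h2 : c1 / (SPF.tder e (D0 i)) (e (x i)) = e (e.symm c1 / D0 i (x i)) := by
    rw [SPF.tder_apply, map_div₀, e.apply_symm_apply]
  change ((c1 / (SPF.tder e (D0 i)) (e (x i)) : (F i).map φ) : A) * D ((e (x i) : (F i).map φ) : A) ∈ _
  rw [h2]
  exact h1

end Pool.Agent.Helper320.PC
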