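import Pool.Agent.Helper320.PC.Stm3
import Pool.Agent.Helper320.PC.Cbc
import Pool.Agent.Helper320.PC.Mul
import Pool.Agent.Helper320.PC.Rrs
import Pool.Agent.Helper320.PC.Sep
import Pool.Agent.Helper320.PC.Reg
import Pool.Agent.Helper320.PC.Gen
import Pool.Agent.Helper320.PC.Spf
import Pool.Agent.Helper320.PC.Core2
import Pool.Agent.Y692.NT.Tr
import Pool.Agent.R882.GLd
import Pool.Agent.Y184.NT.Top

/-!
Images of products of curves of large gonality: geometric genus zero implies uniruled.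
-/

set_option autoImplicit false
set_option linter.overlappingInstances false
set_option linter.unusedSectionVars false
set_option maxHeartbeats 4000000
set_option synthInstance.maxHeartbeats 400000

open FF Pool.Agent.W603.LV
open Pool.Agent.W602.GT (IsPluri Divisorial RegAt)
open Pool.Agent.W619.PQ (extForm IsUniruled)
open Pool.Agent.W619.TW (MM Cur)
open Pool.Agent.Y172 (exists_crd exists_lift lift_dual pluri_coord)

namespace Pool.Agent.Helper320.PC

theorem t_CORE2' : S_CORE2 := t_CORE2 t_CBC (t_SEP t_RRS) t_MUL t_FIX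

theorem t_SPF' : S_SPF := t_SPF t_GEN

/-- a finite basis of the regular differentials of a curve -/
theorem exists_basis_reg {F : Type} [Field F] [Algebra ℂ F] [IsFF ℂ F] {D : Derivation ℂ F F}
    (hD : D ≠ 0) : ∃ (m : ℕ) (b : Fin m → F), (∀ j, IsRegD D (b j)) ∧
      ∀ z : F, IsRegD D z → z ∈ Submodule.span ℂ (Set.range b) := by
  classical
  let E : Place ℂ F →₀ ℤ := Finsupp.ofSupportFinite (fun P => -(vo P D))
    ((vo_finite hD).subset fun P hP => by
      simp only [Function.mem_support, ne_eq, neg_eq_zero] at hP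
      exact hP)
  have hE : ∀ P, E P = -(vo P D) := fun P => rfl
  have hmem : ∀ z : F, z ∈ LL E ↔ IsRegD D z := by
    intro z
    rw [mem_LL]
    unfold IsRegD Ge
    constructor
    · intro h P
      rcases h with h | h
      · exact Or.inl h
      · right
        have := h P
        rw [hE, neg_neg] at this
        exact this
    · intro h
      by_cases hz : z = 0
      · exact Or.inl hz
      · right
        intro P
        rw [hE, neg_neg]
        exact (h P).resolve_left hz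
  let B := Module.finBasis ℂ (LL E)
  refine ⟨_, fun j => ((B j : LL E) : F), fun j => (hmem _).1 (B j).2, fun z hz => ?_⟩
  have h1 : (⟨z, (hmem z).2 hz⟩ : LL E) ∈ Submodule.span ℂ (Set.range B) := by
    rw [B.span_eq]
    trivial
  have h2 := Submodule.mem_map_of_mem (f := (LL E).subtype) h1
  rw [Submodule.map_span, ← Set.range_comp] at h2
  exact h2

/-- the embedding of the function field of a variety with a rational factor -/
theorem uniruled_of_rational {n : ℕ} {K : Type} [Field K] [Algebra ℂ K]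
    (hK : Algebra.trdeg ℂ K = n) (F : Fin n → IntermediateField ℂ K) [∀ i, IsFF ℂ (F i)]
    (hsup : ⨆ i, F i = ⊤) (L : Type) [Field L] [Algebra ℂ L] [Algebra L K] [IsScalarTower ℂ L K]
    (i : Fin n) (t : F i) (ht : IntermediateField.adjoin ℂ {t} = ⊤) : IsUniruled ℂ L n := by
  obtain ⟨M, h1, h2, h3, h4⟩ := Pool.Agent.W619.PQ.rational_factor F hsup hK i t ht
  refine ⟨M, inferInstance, inferInstance, h1, h2, ⟨?_⟩⟩
  let e1 : RatFunc M ≃ₐ[M] IntermediateField.adjoin M {(t : K)} :=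
    RatFunc.algEquivOfTranscendental (t : K) h3
  let e2 : IntermediateField.adjoin M {(t : K)} ≃ₐ[M] K :=
    (IntermediateField.equivOfEq h4).trans IntermediateField.topEquiv
  exact (((e1.trans e2).symm.restrictScalars ℂ : K ≃ₐ[ℂ] RatFunc M) : K →ₐ[ℂ] RatFunc M).comp
      (IsScalarTower.toAlgHom ℂ L K)

/-- the function field of a curve over `M` has no further constants -/
theorem alg_mem {K : Type} [Field K] [Algebra ℂ K] {M F : IntermediateField ℂ K} (h : Cur M F)
    (z : K) (hz : IsAlgebraic M z) : z ∈ M := by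
  classical
  have hff := h.ff
  have hord : ∀ w : Place M K, Ge w 0 z := by
    intro w
    by_cases h0 : w.ord z = 0
    · exact Or.inr h0.ge
    · exact absurd hz (w.transcendental_of_ord_ne h0)
  obtain ⟨s, β, hs, hβ⟩ := h.mem_span (0 : Place ℂ F →₀ ℤ) z (fun w _ => hord w)
    (fun w q _ => by simpa using hord w)
  rw [hs]
  refine sum_mem fun i hi => ?_
  refine mul_mem (Subtype.property _) ?_
  have h1 : IsAlgebraic ℂ (β i) := by
    by_contra hcon
    obtain ⟨S, hS, hS2⟩ := poles (k := ℂ) (K := F) hcon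
    have hfin := IsFF.finite hcon
    have hpos : 0 < Module.finrank (IntermediateField.adjoin ℂ {β i}) F := Module.finrank_pos
    obtain ⟨P, hP⟩ : S.Nonempty := by
      rw [Finset.nonempty_iff_ne_empty]
      rintro rfl
      rw [Finset.sum_empty] at hS2
      omega
    have h2 := (hS P).1 hP
    rcases (mem_LL.1 (hβ i hi)) with h3 | h3
    · rw [h3, P.ord_zero] at h2
      omega
    · have h4 := h3 P
      simp at h4
      omega
  obtain ⟨a, h2⟩ := minpoly.mem_range_of_degree_eq_one ℂ (β i)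
    (IsAlgClosed.degree_eq_one_of_irreducible ℂ (minpoly.irreducible h1.isIntegral))
  rw [← h2]
  exact M.algebraMap_mem a

theorem trdeg_MM {m : ℕ} {K : Type} [Field K] [Algebra ℂ K]
    (hK : Algebra.trdeg ℂ K = (m + 1 : ℕ)) {M F : IntermediateField ℂ K} (h : Cur M F) :
    Algebra.trdeg ℂ M = (m : ℕ) := by
  have h1 := trdeg_add_eq ℂ M (A := K)
  rw [h.isFF.trdeg, hK] at h1
  have hle : Algebra.trdeg ℂ M ≤ (m + 1 : ℕ) := by
    rw [← hK]
    exact trdeg_le_of_injective M.val (Subtype.val_injective)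
  obtain ⟨m', hm'⟩ : ∃ m' : ℕ, Algebra.trdeg ℂ M = m' :=
    Cardinal.lt_aleph0.1 (hle.trans_lt Cardinal.natCast_lt_aleph0)
  rw [hm'] at h1 ⊢
  have h2 : m' + 1 = m + 1 := by exact_mod_cast h1
  have h3 : m' = m := by omega
  rw [h3]

theorem ess_sup {n : ℕ} {K : Type} [Field K] [Algebra ℂ K] (F : Fin n → IntermediateField ℂ K)
    [hF : ∀ i, IsFF ℂ (F i)] (hsup : ⨆ i, F i = ⊤) : Algebra.EssFiniteType ℂ K := by
  rw [← IntermediateField.fg_top_iff, ← hsup]
  refine IntermediateField.fg_iSup fun i => ?_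
  exact IntermediateField.essFiniteType_iff.1 (hF i).ess

/-- the form `c ↦ extForm` on a frame -/
theorem form_eq {n : ℕ} {K : Type} [Field K] [Algebra ℂ K] (F : Fin n → IntermediateField ℂ K)
    [∀ i, IsFF ℂ (F i)] (D0 : ∀ i, Derivation ℂ (F i) (F i)) (x c : ∀ i, F i)
    (E' : Fin n → Derivation ℂ K K) {δ : K}
    (hδ : δ = (∏ i, algebraMap (F i) K (1 / (D0 i (x i)) ^ 1)) *
      (Matrix.det (Matrix.of fun j i => E' j (algebraMap (F i) K (x i)))) ^ 1) :
    extForm (K := K) 1 D0 x c E' = (∏ i, (c i : K)) * δ := by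
  rw [hδ]
  unfold extForm
  rw [← mul_assoc, ← Finset.prod_mul_distrib]
  congr 1
  refine Finset.prod_congr rfl fun i _ => ?_
  rw [div_eq_mul_one_div, map_mul]
  rfl

/-- **The relation over a field which contains all factors but one implies uniruled.** -/
theorem uniruled_of_rel (hS : S_SPF) {m : ℕ} {K : Type} [Field K] [Algebra ℂ K]
    (hK : Algebra.trdeg ℂ K = (m + 1 : ℕ)) (F : Fin (m + 1) → IntermediateField ℂ K)
    [hF : ∀ i, IsFF ℂ (F i)] (hsup : ⨆ i, F i = ⊤)
    (hnr : ∀ i, ¬ ∃ t : F i, IntermediateField.adjoin ℂ {t} = ⊤)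
    (D0 : ∀ i, Derivation ℂ (F i) (F i)) (hD0 : ∀ i, D0 i ≠ 0) (x : ∀ i, F i)
    (hx : ∀ i, Transcendental ℂ (x i)) (N : IntermediateField ℂ K) [FiniteDimensional N K]
    (i : Fin (m + 1)) (hN : ∀ j, j ≠ i → F j ≤ N) {z : Fin (m + 1) → K} (hzN : ∀ l, z l ∈ N)
    (hz : IsTranscendenceBasis ℂ z) {E' : Fin (m + 1) → Derivation ℂ K K}
    (hE' : ∀ a l, E' a (z l) = if a = l then 1 else 0)
    (hrel : ∀ c : ∀ i, F i, (∀ i, IsRegD (D0 i) (c i)) →
      Algebra.trace N K (extForm (K := K) 1 D0 x c E') = 0) :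
    IsUniruled ℂ N (m + 1) := by
  classical
  have hess : Algebra.EssFiniteType ℂ K := ess_sup F hsup
  choose c0 hc0 hc0r using fun i => Pool.Agent.W619.PQ.exists_regular (hnr i) (hD0 i)
  have hcur := Pool.Agent.W619.TW.cur_MM F hsup hK i
  have hB : MM F i ≤ N := iSup_le fun j => hN j.1 j.2
  obtain ⟨E2, hE2⟩ : ∃ E2 : IntermediateField (MM F i) K, E2.restrictScalars ℂ = N :=
    ⟨IntermediateField.extendScalars hB, IntermediateField.extendScalars_restrictScalars hB⟩
  obtain ⟨q, b, hbr, hbs⟩ := exists_basis_reg (hD0 i)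
  have hcreg : ∀ j l, IsRegD (D0 l) (if h : l = i then h ▸ b j else c0 l) := by
    intro j l
    by_cases h : l = i
    · subst h
      rw [dif_pos rfl]
      exact hbr j
    · rw [dif_neg h]
      exact fun P => Or.inr (hc0r l P)
  let ω : Fin q → (Fin (m + 1) → Derivation ℂ K K) → K := fun j =>
    extForm (K := K) 1 D0 x (fun l => if h : l = i then h ▸ b j else c0 l)
  have hω : ∀ j, IsPluri 1 (ω j) := fun j => (t_REG F D0 hD0 x _ hx (hcreg j)).1
  have hωr : ∀ j (P : Place ℂ K), Divisorial (m + 1) P → RegAt P (ω j) := fun j =>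
    (t_REG F D0 hD0 x _ hx (hcreg j)).2
  have hspan : Pool.Agent.R882.GL.SpanFib (MM F i) ω := by
    intro Λ A _ _ _ _ _ _ _ φ h3 h4 h5 h6 t ξ h7 h8 E3 h9 D3 h10 h11 f h12 h13
    exact hS F hsup hK D0 hD0 x c0 hx hc0 i b hbs Λ A φ h3 h4 h5 h6 t ξ h7 h8
      E3 h9 D3 h10 f h12 h13
  have hrelω : ∀ j, Algebra.trace N K (ω j E') = 0 := fun j => hrel _ (hcreg j)
  have htr : ∀ j, ¬ Pool.Agent.R882.LT.TraceNe (ω j) (E2.restrictScalars ℂ) := by
    rw [hE2]
    rintro j ⟨D3, D3', hl, hne⟩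
    apply hne
    obtain ⟨d, hd⟩ : ∃ d : N, d = (Matrix.of fun a l => D3 a ⟨z l, hzN l⟩ :
      Matrix (Fin (m + 1)) (Fin (m + 1)) N).det := ⟨_, rfl⟩
    have h3 : ω j D3' = d • ω j E' := by
      rw [pluri_coord hz hE' (hω j) D3', pow_one, Algebra.smul_def, hd, RingHom.map_det]
      congr 1
      congr 1
      ext a l
      rw [RingHom.mapMatrix_apply, Matrix.map_apply, Matrix.of_apply, Matrix.of_apply]
      exact hl a ⟨z l, hzN l⟩
    rw [h3, map_smul, hrelω j, smul_zero]
  have hfin2 : FiniteDimensional E2 K := by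
    have h3 : FiniteDimensional (E2.restrictScalars ℂ : IntermediateField ℂ K) K := by
      rw [hE2]
      infer_instance
    exact h3
  have huni := Pool.Agent.R882.GL.dich (n := m) hK (MM F i) (trdeg_MM hK hcur)
    (fun z hz => alg_mem hcur z hz) E2 ω hω hωr hspan htr
  rwa [hE2] at huni

/-- uniruledness of a subfield -/
theorem uniruled_sub {n : ℕ} {K : Type} [Field K] [Algebra ℂ K] (L : Type) [Field L]
    [Algebra ℂ L] [Algebra L K] [IsScalarTower ℂ L K] (N : IntermediateField ℂ K)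
    (hmem : ∀ z : L, algebraMap L K z ∈ N) (h : IsUniruled ℂ N n) : IsUniruled ℂ L n := by
  obtain ⟨M, i1, i2, hM, htrM, ⟨ψ⟩⟩ := h
  let φ : L →ₐ[ℂ] N :=
    { toFun := fun f => ⟨algebraMap L K f, hmem f⟩
      map_one' := Subtype.ext (map_one _)
      map_mul' := fun f g => Subtype.ext (map_mul _ _ _)
      map_zero' := Subtype.ext (map_zero _)
      map_add' := fun f g => Subtype.ext (map_add _ _ _)
      commutes' := fun c => Subtype.ext (IsScalarTower.algebraMap_apply ℂ L K c).symm }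
  exact ⟨M, i1, i2, hM, htrM, ⟨ψ.comp φ⟩⟩

/-- **Geometric genus zero implies uniruled.** -/
theorem uniruled_main (hC : S_CORE2) (hS : S_SPF) {m : ℕ} {K : Type} [Field K] [Algebra ℂ K]
    (hK : Algebra.trdeg ℂ K = (m + 1 : ℕ)) (F : Fin (m + 1) → IntermediateField ℂ K)
    [hF : ∀ i, IsFF ℂ (F i)] (hsup : ⨆ i, F i = ⊤)
    (L : Type) [Field L] [Algebra ℂ L] [Algebra L K] [IsScalarTower ℂ L K]
    [FiniteDimensional L K] (I : Finset (Fin (m + 1))) (γ : Fin (m + 1) → ℕ)
    (hγ : ∀ i, GonGe ℂ (F i) (γ i)) (L' : IntermediateField L K)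
    (hL' : L' = IntermediateField.adjoin L (⋃ i ∈ I, (F i : Set K)))
    (hI : ∀ i ∈ I, Module.finrank L (IntermediateField.adjoin L (F i : Set K)) < γ i)
    (hJ : ∀ i, i ∉ I → 2 ≤ γ i)
    (h1 : ∀ i j, i ∉ I → j ∉ I → i ≠ j → Module.finrank L' K + 3 ≤ γ i + γ j)
    (h2 : (∀ i j, i ∉ I → j ∉ I → i = j) ∨ ∀ i, i ∉ I → Module.finrank L' K + 1 ≤ 2 * γ i)
    (hg : ∀ ω : (Fin (m + 1) → Derivation ℂ L L) → L, IsPluri 1 ω →
      (∀ P : Place ℂ L, Divisorial (m + 1) P → RegAt P ω) → ∀ D, ω D = 0) :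
    IsUniruled ℂ L (m + 1) ∧
      ∃ i, i ∉ I ∧ γ i ≤ Module.finrank L' K ∧ ∀ j, j ≠ i → ∀ z ∈ F j, z ∈ L' := by
  classical
  have hess : Algebra.EssFiniteType ℂ K := ess_sup F hsup
  have hessL : Algebra.EssFiniteType ℂ L := Pool.Agent.TH466.QG.ess_below (K := K)
  have hL : Algebra.trdeg ℂ L = (m + 1 : ℕ) := Pool.Agent.Y184.NT.trdeg_below (K := K) hK
  have hD0 : ∀ i, der ℂ (F i) ≠ 0 := fun i => der_ne
  choose x hx using fun i => IsFF.exists_transcendental (k := ℂ) (K := F i)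
  have hnr : ∀ i, ¬ ∃ t : F i, IntermediateField.adjoin ℂ {t} = ⊤ := by
    rintro i ⟨t, ht⟩
    have ht' := Pool.Agent.W619.PQ.transcendental_of_top ht
    have h3 := hγ i t ht'
    rw [ht, IntermediateField.finrank_top] at h3
    by_cases h : i ∈ I
    · have h4 := hI i h
      have h5 : 0 < Module.finrank L (IntermediateField.adjoin L (F i : Set K)) :=
        Module.finrank_pos
      omega
    · have h4 := hJ i h
      omega
  obtain ⟨z, E, hz, hE⟩ := exists_crd (k := ℂ) (K := L) hL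
  choose E' hE' using fun i => exists_lift (k := ℂ) (K := L) (L := K) hL (E i)
  have hzK : IsTranscendenceBasis ℂ (fun j => algebraMap L K (z j)) := hz.algebraMap_comp
  have hE'd := lift_dual hE hE'
  obtain ⟨δ, hδ⟩ : ∃ δ : K, δ = (∏ i, algebraMap (F i) K (1 / (der ℂ (F i) (x i)) ^ 1)) *
    (Matrix.det (Matrix.of fun j i => E' j (algebraMap (F i) K (x i)))) ^ 1 := ⟨_, rfl⟩
  have hform : ∀ c : ∀ i, F i, extForm (K := K) 1 (fun i => der ℂ (F i)) x c E' =
      (∏ i, (c i : K)) * δ := fun c => form_eq F (fun i => der ℂ (F i)) x c E' hδ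
  have hrel : ∀ c : ∀ i, F i, (∀ i, IsRegD (der ℂ (F i)) (c i)) →
      Algebra.trace L K ((∏ i, (c i : K)) * δ) = 0 := by
    intro c hc
    obtain ⟨h3, h4⟩ := t_REG F (fun i => der ℂ (F i)) hD0 x c hx hc
    rw [← hform]
    exact Pool.Agent.Y692.NT.trace_form hL hg _ h3 h4 E E' hE'
  have hδ0 : δ ≠ 0 := by
    have hxb : IsTranscendenceBasis ℂ fun i => algebraMap (F i) K (x i) :=
      Pool.Agent.W619.PQ.basis_of_iSup F hsup hK x hx
    obtain ⟨G, hG⟩ := Pool.Agent.W619.PQ.extForm_ne 1 (fun i => der ℂ (F i)) x (fun _ => 1)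
      (fun _ => one_ne_zero) (fun i => der_ne_zero (hD0 i) (hx i)) hxb
    intro h0
    apply hG
    rw [pluri_coord hzK hE'd (Pool.Agent.W619.PQ.extForm_pluri 1 _ x _) G, hform, h0, mul_zero,
      mul_zero]
  obtain ⟨⟨i, hiI, hγi, hjL⟩, hrel'⟩ := hC F hsup I γ hγ L' hL' hI hJ
    (fun i => der ℂ (F i)) hD0 δ hδ0 hrel h1 h2
  refine ⟨?_, i, hiI, hγi, hjL⟩
  have hmem : ∀ z : L, algebraMap L K z ∈ L'.restrictScalars ℂ := fun z => L'.algebraMap_mem z
  have hfin : FiniteDimensional (L'.restrictScalars ℂ) K :=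
    inferInstanceAs (FiniteDimensional L' K)
  refine uniruled_sub L _ hmem (uniruled_of_rel hS hK F hsup hnr (fun i => der ℂ (F i)) hD0 x hx
    (L'.restrictScalars ℂ) i (fun j hj z hz => hjL j hj z hz) (fun l => hmem (z l)) hzK hE'd
    fun c hc => ?_)
  rw [hform]
  have h5 : ((Algebra.trace L' K ((∏ i, (c i : K)) * δ) : L') : K) = 0 := by
    rw [hrel' c hc]
    rfl
  exact Subtype.ext h5

end Pool.Agent.Helper320.PC
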