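import Pool.Agent.Helper320.PC.Stm4

/-!
Images of products of curves: the relation between the embeddings, with derivatives.
-/

set_option autoImplicit false
set_option linter.overlappingInstances false
set_option linter.unusedSectionVars false

open FF Pool.Agent.W603.LV

namespace Pool.Agent.Helper320.PC.MULJ

open Finset

/-- the value at the restriction -/
def ev {k K L Ω : Type} [Field k] [Field K] [Field L] [Field Ω] [Algebra k K]
    [Algebra k L] [Algebra L K] [IsScalarTower k L K] [Algebra k Ω] [Algebra L Ω]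
    [IsScalarTower k L Ω] (E : IntermediateField k K) (u : (E →ₐ[k] Ω) → Ω × Ω)
    (σ : K →ₐ[L] Ω) : Ω × Ω :=
  u ((σ.restrictScalars k).comp E.val)

/-- the expression -/
def Phi {k K L Ω : Type} [Field k] [Field K] [Field L] [Field Ω] [Algebra k K]
    [Algebra k L] [Algebra L K] [IsScalarTower k L K] [Algebra k Ω] [Algebra L Ω]
    [IsScalarTower k L Ω] {n : ℕ}
    (F : Fin n → IntermediateField k K) (a δ : K) (lam : Fin n → K)
    (w : ∀ i, (F i →ₐ[k] Ω) → Ω × Ω) (σ : K →ₐ[L] Ω) : Ω :=
  (∏ i, (ev (F i) (w i) σ).1) * σ a +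
    ∑ l, σ δ * σ (lam l) * (ev (F l) (w l) σ).2 *
      ∏ i ∈ Finset.univ.erase l, (ev (F i) (w i) σ).1

theorem base {k K L Ω : Type} [Field k] [Field K] [Field L] [Field Ω] [CharZero L] [Algebra k K]
    [Algebra k L] [Algebra L K] [IsScalarTower k L K] [Algebra k Ω] [Algebra L Ω]
    [IsScalarTower k L Ω] [FiniteDimensional L K] [IsAlgClosed Ω] {n : ℕ}
    (F : Fin n → IntermediateField k K) (D : ∀ i, Derivation k (F i) (F i)) (a δ : K)
    (lam : Fin n → K) (c : ∀ i, F i)
    (h : Algebra.trace L K ((∏ i, (c i : K)) * a +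
        ∑ l, δ * lam l * (D l (c l) : K) * ∏ i ∈ Finset.univ.erase l, (c i : K)) = 0) :
    ∑ σ : K →ₐ[L] Ω, Phi F a δ lam (fun i s => (s (c i), s (D i (c i)))) σ = 0 := by
  have h1 := trace_eq_sum_embeddings (K := L) (L := K) Ω (x := (∏ i, (c i : K)) * a +
        ∑ l, δ * lam l * (D l (c l) : K) * ∏ i ∈ Finset.univ.erase l, (c i : K))
  rw [h, map_zero] at h1
  rw [h1]
  refine Finset.sum_congr rfl fun σ _ => ?_
  simp only [map_add, map_mul, map_prod, map_sum]
  rfl

theorem key {k K L Ω : Type} [Field k] [Field K] [Field L] [Field Ω] [Algebra k K]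
    [Algebra k L] [Algebra L K] [IsScalarTower k L K] [Algebra k Ω] [Algebra L Ω]
    [IsScalarTower k L Ω] {n : ℕ}
    (F : Fin n → IntermediateField k K) (a δ : K) (lam : Fin n → K)
    (w : ∀ i, (F i →ₐ[k] Ω) → Ω × Ω) (i0 : Fin n) :
    ∃ A B : (K →ₐ[L] Ω) → Ω, ∀ (u : (F i0 →ₐ[k] Ω) → Ω × Ω) (σ : K →ₐ[L] Ω),
      Phi F a δ lam (Function.update w i0 u) σ =
        (ev (F i0) u σ).1 * A σ + (ev (F i0) u σ).2 * B σ := by
  refine ⟨fun σ => (∏ i ∈ univ.erase i0, (ev (F i) (w i) σ).1) * σ a +
      ∑ l ∈ univ.erase i0, σ δ * σ (lam l) * (ev (F l) (w l) σ).2 *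
        ∏ i ∈ (univ.erase l).erase i0, (ev (F i) (w i) σ).1,
    fun σ => σ δ * σ (lam i0) * ∏ i ∈ univ.erase i0, (ev (F i) (w i) σ).1, ?_⟩
  intro u σ
  have e1 : ∏ i, (ev (F i) (Function.update w i0 u i) σ).1 =
      (ev (F i0) u σ).1 * ∏ i ∈ univ.erase i0, (ev (F i) (w i) σ).1 := by
    rw [← Finset.mul_prod_erase univ _ (Finset.mem_univ i0), Function.update_self]
    congr 1
    refine Finset.prod_congr rfl fun i hi => ?_
    rw [Function.update_of_ne (Finset.ne_of_mem_erase hi)]
  have e2 : ∀ l ∈ univ.erase i0,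
      ∏ i ∈ univ.erase l, (ev (F i) (Function.update w i0 u i) σ).1 =
      (ev (F i0) u σ).1 * ∏ i ∈ (univ.erase l).erase i0, (ev (F i) (w i) σ).1 := by
    intro l hl
    rw [← Finset.mul_prod_erase (univ.erase l) _ (Finset.mem_erase.2
      ⟨(Finset.ne_of_mem_erase hl).symm, Finset.mem_univ i0⟩), Function.update_self]
    congr 1
    refine Finset.prod_congr rfl fun i hi => ?_
    rw [Function.update_of_ne (Finset.ne_of_mem_erase hi)]
  have e3 : ∏ i ∈ univ.erase i0, (ev (F i) (Function.update w i0 u i) σ).1 =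
      ∏ i ∈ univ.erase i0, (ev (F i) (w i) σ).1 := by
    refine Finset.prod_congr rfl fun i hi => ?_
    rw [Function.update_of_ne (Finset.ne_of_mem_erase hi)]
  unfold Phi
  rw [e1, ← Finset.add_sum_erase univ _ (Finset.mem_univ i0), e3, Function.update_self]
  have e4 : ∑ l ∈ univ.erase i0, σ δ * σ (lam l) * (ev (F l) (Function.update w i0 u l) σ).2 *
      ∏ i ∈ univ.erase l, (ev (F i) (Function.update w i0 u i) σ).1 =
      (ev (F i0) u σ).1 * ∑ l ∈ univ.erase i0, σ δ * σ (lam l) * (ev (F l) (w l) σ).2 *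
        ∏ i ∈ (univ.erase l).erase i0, (ev (F i) (w i) σ).1 := by
    rw [Finset.mul_sum]
    refine Finset.sum_congr rfl fun l hl => ?_
    rw [e2 l hl, Function.update_of_ne (Finset.ne_of_mem_erase hl)]
    ring
  rw [e4]
  ring

theorem step {k K L Ω : Type} [Field k] [Field K] [Field L] [Field Ω] [CharZero L] [Algebra k K]
    [Algebra k L] [Algebra L K] [IsScalarTower k L K] [Algebra k Ω] [Algebra L Ω]
    [IsScalarTower k L Ω] [FiniteDimensional L K] [IsAlgClosed Ω] {n : ℕ}
    (F : Fin n → IntermediateField k K) (D : ∀ i, Derivation k (F i) (F i)) (a δ : K)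
    (lam : Fin n → K)
    (h : ∀ c : ∀ i, F i, (∀ i, IsRegD (D i) (c i)) →
      Algebra.trace L K ((∏ i, (c i : K)) * a +
        ∑ l, δ * lam l * (D l (c l) : K) * ∏ i ∈ Finset.univ.erase l, (c i : K)) = 0)
    (S : Finset (Fin n)) :
    ∀ (w : ∀ i, (F i →ₐ[k] Ω) → Ω × Ω), (∀ i ∈ S, w i ∈ WspJ Ω (D i)) →
      (∀ i, i ∉ S → ∃ c : F i, IsRegD (D i) c ∧ w i = fun s => (s c, s (D i c))) →
      ∑ σ : K →ₐ[L] Ω, Phi F a δ lam w σ = 0 := by
  induction S using Finset.induction_on with
  | empty =>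
    intro w _ hw
    choose c hc1 hc2 using fun i => hw i (Finset.notMem_empty i)
    have h1 := base (Ω := Ω) F D a δ lam c (h c hc1)
    rw [show w = fun i s => (s (c i), s (D i (c i))) from funext fun i => hc2 i]
    exact h1
  | insert i0 S hi0 ih =>
    intro w hw1 hw2
    obtain ⟨A, B, hAB⟩ := key (L := L) F a δ lam w i0
    have hmain : ∀ u ∈ WspJ Ω (D i0),
        ∑ σ : K →ₐ[L] Ω, ((ev (F i0) u σ).1 * A σ + (ev (F i0) u σ).2 * B σ) = 0 := by
      intro u hu
      induction hu using Submodule.span_induction with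
      | mem u hu =>
        obtain ⟨c, rfl⟩ := hu
        have h1 := ih (Function.update w i0 fun s => (s c.1, s (D i0 c.1))) (by
          intro i hi
          have hne : i ≠ i0 := fun e => hi0 (e ▸ hi)
          rw [Function.update_of_ne hne]
          exact hw1 i (Finset.mem_insert_of_mem hi)) (by
          intro i hi
          by_cases hne : i = i0
          · subst hne
            exact ⟨c.1, c.2, by rw [Function.update_self]⟩
          · rw [Function.update_of_ne hne]
            exact hw2 i (by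
              rw [Finset.mem_insert]
              push Not
              exact ⟨hne, hi⟩))
        rw [← h1]
        exact Finset.sum_congr rfl fun σ _ => (hAB _ σ).symm
      | zero =>
        apply Finset.sum_eq_zero
        intro σ _
        simp [ev]
      | add u v _ _ hu hv =>
        have h2 : ∀ σ : K →ₐ[L] Ω, (ev (F i0) (u + v) σ).1 * A σ + (ev (F i0) (u + v) σ).2 * B σ =
            ((ev (F i0) u σ).1 * A σ + (ev (F i0) u σ).2 * B σ) +
            ((ev (F i0) v σ).1 * A σ + (ev (F i0) v σ).2 * B σ) := by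
          intro σ
          simp only [ev, Pi.add_apply, Prod.fst_add, Prod.snd_add]
          ring
        rw [Finset.sum_congr rfl fun σ _ => h2 σ, Finset.sum_add_distrib, hu, hv, add_zero]
      | smul r u _ hu =>
        have h2 : ∀ σ : K →ₐ[L] Ω, (ev (F i0) (r • u) σ).1 * A σ + (ev (F i0) (r • u) σ).2 * B σ =
            r * ((ev (F i0) u σ).1 * A σ + (ev (F i0) u σ).2 * B σ) := by
          intro σ
          simp only [ev, Pi.smul_apply, Prod.smul_fst, Prod.smul_snd, smul_eq_mul]
          ring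
        rw [Finset.sum_congr rfl fun σ _ => h2 σ, ← Finset.mul_sum, hu, mul_zero]
    have h3 := hmain (w i0) (hw1 i0 (Finset.mem_insert_self _ _))
    rw [← h3]
    refine Finset.sum_congr rfl fun σ _ => ?_
    rw [← hAB, Function.update_eq_self]

end Pool.Agent.Helper320.PC.MULJ

namespace Pool.Agent.Helper320.PC

theorem t_MULJ : S_MULJ := by
  intro k K L Ω _ _ _ _ _ _ _ _ _ _ _ _ _ _ n F D a δ lam h w hw
  have := MULJ.step (Ω := Ω) F D a δ lam h Finset.univ w (fun i _ => hw i)
    (fun i hi => absurd (Finset.mem_univ i) hi)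
  simp only [MULJ.Phi, MULJ.ev] at this
  convert this

end Pool.Agent.Helper320.PC
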