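import Pool.Agent.Helper320.PC.Stm4
import Pool.Agent.Helper320.PC.Rrs
import Pool.Agent.W619.TW.Span

/-!
Riemann-Roch with multiplicities on a curve of given gonality.
-/

set_option autoImplicit false
set_option linter.overlappingInstances false
set_option linter.unusedSectionVars false

open Polynomial FF IsDedekindDomain IntermediateField

namespace Pool.Agent.Helper320.PC.RRM

open Pool.Agent.W603.LV Pool.Agent.W619.PQ Pool.Agent.W619.TW

section

variable {k F : Type*} [Field k] [Field F] [Algebra k F]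

/-- functions whose poles at the poles `w` of `x` have order at most `Z w` -/
def BT (x : F) (Z : Place k F → ℕ) : Submodule k F where
  carrier := {y | ∀ w : Place k F, w.ord x < 0 → Ge w (-(Z w : ℤ)) y}
  add_mem' := fun ha hb w hw => (ha w hw).add (hb w hw)
  zero_mem' := fun w _ => Ge.zero
  smul_mem' := by
    intro c y hy w hw
    rw [Algebra.smul_def]
    simpa using (Ge.const (P := w) c).mul (hy w hw)

theorem BI_le_BT (x : F) (Z : Place k F → ℕ) : BI (k := k) x ≤ BT x Z := by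
  intro y hy w hw
  exact (hy w hw).mono (by omega)

theorem zpow_mul_BT {x : F} {Z : Place k F → ℕ} {y : F} (hy : y ∈ BT x Z) {j : ℤ} (hj : j ≤ 0) :
    x ^ j * y ∈ BT x Z := by
  intro w hw
  have h8 : Ge w 0 (x ^ j) := by
    right
    rw [w.ord_zpow]
    exact mul_nonneg_of_nonpos_of_nonpos hj hw.le
  simpa using h8.mul (hy w hw)

variable [CharZero k] [IsFF k F] [IsAlgClosed k]

/-- an element with a pole of order `n` at `P` and regular at the other poles of `x` -/
theorem exists_pole {x : F} (hx : Transcendental k x) (P : Place k F) {n : ℕ} (hn : 1 ≤ n) :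
    ∃ t : F, t ≠ 0 ∧ P.ord t = -(n : ℤ) ∧
      ∀ w : Place k F, w.ord x < 0 → w ≠ P → Ge w 0 t := by
  classical
  obtain ⟨S, hS, -⟩ := poles (k := k) (K := F) hx
  obtain ⟨π, hπ0, hπ⟩ := P.surj
  obtain ⟨y, hy1, hy2⟩ := approx_one (S.erase P) P (by simp) (π ^ (-(n : ℤ))) 0
  have hπi : P.ord (π ^ (-(n : ℤ))) = -(n : ℤ) := by rw [P.ord_zpow, hπ, mul_one]
  have h2 : y ≠ 0 ∧ P.ord y = -(n : ℤ) := by
    by_cases h3 : y - π ^ (-(n : ℤ)) = 0
    · rw [sub_eq_zero.1 h3]
      exact ⟨zpow_ne_zero _ hπ0, hπi⟩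
    · have h4 := hy1.resolve_left h3
      have h5 := P.ord_add_eq (f := π ^ (-(n : ℤ))) (g := y - π ^ (-(n : ℤ)))
        (zpow_ne_zero _ hπ0) h3 (by omega)
      rwa [add_sub_cancel, hπi] at h5
  exact ⟨y, h2.1, h2.2, fun w hw hwP => hy2 w (Finset.mem_erase.2 ⟨hwP, (hS w).2 hw⟩)⟩

theorem notMem_sup {x : F} {T : Finset (Place k F)} {Z : Place k F → ℕ}
    (hZ : ∀ Q, Q ∉ T → Z Q = 0) {P : Place k F}
    (hPx : P.ord x < 0)
    (hgon : ∀ t : F, Transcendental k t → (∑ Q ∈ T, Z Q) + 2 ≤ Module.finrank k⟮t⟯ F)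
    {y : F} (hy0 : y ≠ 0) (hy1 : P.ord y = -((Z P + 1 : ℕ) : ℤ))
    (hy2 : ∀ w : Place k F, w.ord x < 0 → w ≠ P → Ge w 0 y) :
    y ∉ BB (k := k) x ⊔ BT x Z := by
  classical
  intro hy
  obtain ⟨b, hb, c, hc, hbc⟩ := Submodule.mem_sup.1 hy
  have hcP : Ge P (-(Z P : ℤ)) c := hc P hPx
  have e : b = y - c := by rw [← hbc]; ring
  have h2 : b ≠ 0 ∧ P.ord b = -((Z P + 1 : ℕ) : ℤ) := by
    have h1 : Ge P (-(Z P : ℤ)) (b - y) := by
      have e' : b - y = 0 - c := by rw [e]; ring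
      rw [e']
      exact Ge.zero.sub hcP
    by_cases h3 : b - y = 0
    · rw [sub_eq_zero.1 h3]
      exact ⟨hy0, hy1⟩
    · have h4 := h1.resolve_left h3
      have h5 := P.ord_add_eq (f := y) (g := b - y) hy0 h3 (by rw [hy1]; omega)
      rwa [add_sub_cancel, hy1] at h5
  have hbt : Transcendental k b := P.transcendental_of_ord_ne (by omega)
  obtain ⟨S, hS, hS2⟩ := poles (k := k) (K := F) hbt
  have h3 : ∀ Q ∈ S, -Q.ord b ≤ Z Q + if Q = P then 1 else 0 := by
    intro Q hQ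
    have hQb := (hS Q).1 hQ
    have hQx : Q.ord x < 0 := by
      by_contra hcon
      have := (hb Q (not_lt.1 hcon)).resolve_left h2.1
      omega
    by_cases hQP : Q = P
    · subst hQP
      rw [if_pos rfl]
      omega
    · rw [if_neg hQP]
      have h4 := hy2 Q hQx hQP
      have h5 : Ge Q (-(Z Q : ℤ)) b := by
        rw [e]
        exact (h4.mono (by omega)).sub (hc Q hQx)
      have := h5.resolve_left h2.1
      omega
  have h4 : ∑ w ∈ S, (-w.ord b).toNat * w.deg ≤ ∑ w ∈ S, (Z w + if w = P then 1 else 0) := by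
    apply Finset.sum_le_sum
    intro w hw
    rw [deg_one, mul_one]
    have h6 := h3 w hw
    by_cases hwP : w = P
    · rw [if_pos hwP] at h6 ⊢
      omega
    · rw [if_neg hwP] at h6 ⊢
      omega
  rw [hS2, Finset.sum_add_distrib, Finset.sum_ite_eq'] at h4
  have h5 : ∑ w ∈ S, Z w ≤ ∑ w ∈ T, Z w := by
    apply Finset.sum_le_sum_of_ne_zero
    intro w _ hw
    by_contra hcon
    exact hw (hZ w hcon)
  have h6 := hgon b hbt
  have h7 : Module.finrank k⟮b⟯ F = Module.finrank (IntermediateField.adjoin k {b}) F := rfl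
  have h8 : (if P ∈ S then 1 else 0) ≤ 1 := by split_ifs <;> norm_num
  omega

theorem rrm_core {x : F} {T : Finset (Place k F)} {Z : Place k F → ℕ}
    (hZ : ∀ Q, Q ∉ T → Z Q = 0) {P : Place k F}
    (hPx : P.ord x < 0) (hT : ∀ Q ∈ T, Q.ord x < 0)
    (hgon : ∀ t : F, Transcendental k t → (∑ Q ∈ T, Z Q) + 2 ≤ Module.finrank k⟮t⟯ F)
    {D : Derivation k F F} (hD : D x = 1) :
    ∃ f : F, f ≠ 0 ∧ (∀ Q : Place k F, vo Q D + Z Q ≤ Q.ord f) ∧ P.ord f = vo P D + Z P := by
  classical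
  have hD0 : D ≠ 0 := by
    rintro rfl
    simp at hD
  have hx : Transcendental k x := P.transcendental_of_ord_ne (by omega)
  have hx0 : x ≠ 0 := by
    rintro rfl
    exact hx isAlgebraic_zero
  have hfin := IsFF.finite hx
  have hsF : IsScalarTower k k⟮x⟯ F := inferInstance
  obtain ⟨y, hy0, hyP, hy2⟩ := exists_pole hx P (n := Z P + 1) (by omega)
  have hnot := notMem_sup hZ hPx hgon hy0 hyP hy2
  obtain ⟨lam, hlam, hle⟩ := Submodule.exists_le_ker_of_notMem hnot
  have hB : ∀ z ∈ BB (k := k) x, lam z = 0 := fun z hz => hle (Submodule.mem_sup_left hz)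
  have hTT : ∀ z ∈ BT (k := k) x Z, lam z = 0 := fun z hz => hle (Submodule.mem_sup_right hz)
  have hI : ∀ z ∈ BI (k := k) x, lam z = 0 := fun z hz => hTT z (BI_le_BT x Z hz)
  have hlam0 : lam ≠ 0 := by
    rintro rfl
    exact hlam rfl
  obtain ⟨f, hf0, hf⟩ := exists_mult lam hI hx hB hlam0
  have hreg := mult_regular hx D hD lam hI hB hf0 hf
  have hvo : ∀ Q : Place k F, Q.ord x < 0 → Q.ord x = 1 - vo Q D := by
    intro Q hQ
    have h := (ord_der Q hD0 (f := x) (by omega)).2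
    rw [hD, Q.ord_one] at h
    omega
  have hfs := finite_support (k := k) x
  have hmemZ : ∀ w : Place k F, w.ord x < 0 → w ∈ hfs.toFinset.filter fun w => w.ord x < 0 := by
    intro w hw
    rw [Finset.mem_filter, hfs.mem_toFinset]
    refine ⟨?_, hw⟩
    show w.ord x ≠ 0
    omega
  -- the order at all places
  have hall : ∀ Q : Place k F, vo Q D + Z Q ≤ Q.ord f := by
    intro Q
    by_cases hZQ : Z Q = 0
    · rw [hZQ]
      simpa using hreg Q
    have hQ : Q ∈ T := by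
      by_contra hcon
      exact hZQ (hZ Q hcon)
    have hQx := hT Q hQ
    by_contra hcon
    obtain ⟨e0, q, hq, hover⟩ := RRS.exists_under hx hQx
    obtain ⟨t, ht0, htQ, ht2⟩ := exists_pole hx Q (n := Z Q) (by omega)
    have h3 := hvo Q hQx
    obtain ⟨b, hb1, hb2⟩ := exists_contra q Q e0 hq (hfs.toFinset.filter fun w => w.ord x < 0)
      (fun w e hw => hmemZ w (hover w e hw))
      (x * f * t) (mul_ne_zero (mul_ne_zero hx0 hf0) ht0) (by
        rw [Q.ord_mul (mul_ne_zero hx0 hf0) ht0, Q.ord_mul hx0 hf0]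
        omega)
    apply hb2
    have hbT : t * b ∈ BT (k := k) x Z := by
      intro w hw
      have h4 : Ge w 0 b := hb1 w (hmemZ w hw)
      by_cases hwQ : w = Q
      · subst hwQ
        have h5 : Ge w (-(Z w : ℤ)) t := Or.inr htQ.ge
        exact (h5.mul h4).mono (by omega)
      · have h5 := (ht2 w hw hwQ).mul h4
        exact h5.mono (by omega)
    have h5 : Algebra.trace k⟮x⟯ F (x * f * t * b) =
        (⟨x, mem_adjoin_simple_self k x⟩ : k⟮x⟯) * Algebra.trace k⟮x⟯ F (f * (t * b)) := by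
      have e1 : x * f * t * b = x * (f * (t * b)) := by ring
      rw [e1]
      exact trace_mul_left (⟨x, mem_adjoin_simple_self k x⟩ : k⟮x⟯) (f * (t * b))
    rw [h5]
    refine RRS.ge_of_coeff hx hQx _ hq fun j hj => ?_
    rw [hf (t * b), SS_coeff]
    exact hTT _ (zpow_mul_BT hbT (by omega))
  refine ⟨f, hf0, hall, ?_⟩
  -- the order at `P`
  by_contra hcon
  have h1 : vo P D + Z P + 1 ≤ P.ord f := by
    have := hall P
    omega
  apply hlam
  obtain ⟨e0, q, hq, hover⟩ := RRS.exists_under hx hPx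
  have h2 : ∀ w : Place k F, w.ord x < 0 → Ge w 1 (x * f * y) := by
    intro w hw
    have h3 := hvo w hw
    have h4 : Ge w (1 - vo w D) x := Or.inr h3.ge
    by_cases hwP : w = P
    · subst hwP
      have h5 : Ge w (vo w D + Z w + 1) f := Or.inr h1
      have h6 : Ge w (-((Z w + 1 : ℕ) : ℤ)) y := Or.inr hyP.ge
      refine ((h4.mul h5).mul h6).mono (by push_cast; omega)
    · have h5 : Ge w (vo w D) f := Or.inr (hreg w)
      refine ((h4.mul h5).mul (hy2 w hw hwP)).mono (by omega)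
  obtain ⟨t, ht0, ht⟩ := q.surj
  set Z' := hfs.toFinset.filter fun w => w.ord x < 0 with hZ'
  have h3 : Ge q 1 (Algebra.trace k⟮x⟯ F (x * f * y)) := by
    refine RRS.trace_ge q (x * f * y) (∑ w ∈ Z', (w.ord (algebraMap k⟮x⟯ F t)).natAbs) ?_ ?_
    · intro w e hw
      have h4 := hmemZ w (hover w e hw)
      have h5 := Finset.single_le_sum (f := fun w : Place k F => (w.ord (algebraMap k⟮x⟯ F t)).natAbs)
        (fun _ _ => Nat.zero_le _) h4
      refine le_trans ?_ h5
      change e ≤ (w.ord (algebraMap k⟮x⟯ F t)).natAbs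
      rw [hw.2, ht]
      omega
    · intro w e hw
      exact h2 w (hover w e hw)
  have h5 : Algebra.trace k⟮x⟯ F (x * f * y) =
      (⟨x, mem_adjoin_simple_self k x⟩ : k⟮x⟯) * Algebra.trace k⟮x⟯ F (f * y) := by
    rw [mul_assoc]
    exact trace_mul_left (⟨x, mem_adjoin_simple_self k x⟩ : k⟮x⟯) (f * y)
  rw [h5] at h3
  have h6 := RRS.coeff_of_ge hx hPx _ hq h3
  rw [hf y, SS_coeff, sub_self, zpow_zero, one_mul] at h6
  exact h6

theorem rrm {T : Finset (Place k F)} {Z : Place k F → ℕ}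
    (hZ : ∀ Q, Q ∉ T → Z Q = 0) (P : Place k F)
    (hgon : ∀ t : F, Transcendental k t → (∑ Q ∈ T, Z Q) + 2 ≤ Module.finrank k⟮t⟯ F)
    {D : Derivation k F F} (hD : D ≠ 0) :
    ∃ f : F, f ≠ 0 ∧ (∀ Q : Place k F, vo Q D + Z Q ≤ Q.ord f) ∧ P.ord f = vo P D + Z P := by
  classical
  obtain ⟨x, hxT⟩ := exists_poles_at (insert P T)
  have hPx := hxT P (Finset.mem_insert_self _ _)
  have hx : Transcendental k x := P.transcendental_of_ord_ne (by omega)
  have hDx := der_ne_zero hD hx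
  obtain ⟨f, hf0, hf1, hf2⟩ := rrm_core hZ hPx
    (fun Q hQ => hxT Q (Finset.mem_insert_of_mem hQ)) hgon (D := (D x)⁻¹ • D) (by simp [hDx])
  have hvo : ∀ Q : Place k F, vo Q ((D x)⁻¹ • D) = -Q.ord (D x) + vo Q D := fun Q => by
    rw [vo_smul Q hD (inv_ne_zero hDx), Q.ord_inv]
  have hmul : ∀ Q : Place k F, Q.ord (f * D x) = Q.ord f + Q.ord (D x) := fun Q =>
    Q.ord_mul hf0 hDx
  refine ⟨f * D x, mul_ne_zero hf0 hDx, fun Q => ?_, ?_⟩
  · have h1 := hf1 Q
    rw [hvo] at h1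
    rw [hmul]
    omega
  · rw [hvo] at hf2
    rw [hmul]
    omega

end

end Pool.Agent.Helper320.PC.RRM

namespace Pool.Agent.Helper320.PC

theorem t_RRM : S_RRM := by
  intro k F _ _ _ _ _ _ Z T hZ P hgon D hD
  exact RRM.rrm hZ P hgon hD

end Pool.Agent.Helper320.PC
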