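import Pool.Agent.Helper320.PC.Stm4
import Pool.Agent.H427R3.ZT.Riem

/-!
Separation of the points of order one of a curve over an arbitrary extension of the field of
constants.
-/

set_option autoImplicit false
set_option linter.overlappingInstances false
set_option linter.unusedSectionVars false

open FF Pool.Agent.W603.LV

namespace Pool.Agent.Helper320.PC.SEPJ

/-- A nonzero algebra of finite type over an algebraically closed field has a rational point. -/
theorem exists_ev {k R : Type*} [Field k] [IsAlgClosed k] [CommRing R] [Nontrivial R] [Algebra k R]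
    [Algebra.FiniteType k R] : Nonempty (R →ₐ[k] k) := by
  obtain ⟨m, hm⟩ := Ideal.exists_maximal R
  let _ : Field (R ⧸ m) := Ideal.Quotient.field m
  have : Module.Finite k (R ⧸ m) := finite_of_finite_type_of_isJacobsonRing k (R ⧸ m)
  have hb : Function.Bijective (algebraMap k (R ⧸ m)) :=
    IsAlgClosed.algebraMap_bijective_of_isIntegral (k := k) (K := R ⧸ m)
  let e : k ≃ₐ[k] (R ⧸ m) := AlgEquiv.ofBijective (Algebra.ofId k _) hb
  exact ⟨(e.symm : (R ⧸ m) →ₐ[k] k).comp (Ideal.Quotient.mkₐ k m)⟩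

section

variable {k F : Type} [Field k] [Field F] [Algebra k F] [CharZero k] [IsFF k F] [IsAlgClosed k]

/-- the place of a point of an affine model -/
theorem exists_pl (B : Subalgebra k F) {x : F} (hxB : x ∈ B) (hx : Transcendental k x)
    (φ : B →ₐ[k] k) :
    ∃ P : Place k F, ∀ b : B, Ge P 1 ((b : F) - algebraMap k F (φ b)) := by
  let I : Ideal B.toSubring := RingHom.ker (φ : B →+* k)
  have hI : I ≠ ⊤ := RingHom.ker_ne_top _
  obtain ⟨V, hV1, hV2⟩ := Ideal.image_subset_nonunits_valuationSubring I hI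
  have hk : ∀ a : k, algebraMap k F a ∈ V := fun a => hV1 (B.algebraMap_mem a)
  have hmem : ∀ b : B, ((b : F) - algebraMap k F (φ b)) ∈ V.nonunits := by
    intro b
    apply hV2
    refine ⟨b - algebraMap k B (φ b), ?_, ?_⟩
    · change (φ : B →+* k) (b - algebraMap k B (φ b)) = 0
      simp
    · rfl
  have hVt : V ≠ ⊤ := by
    rintro rfl
    have h1 := hmem ⟨x, hxB⟩
    rw [ValuationSubring.mem_nonunits_iff_or] at h1
    rcases h1 with h1 | h1
    · apply hx
      have h2 : x = algebraMap k F (φ ⟨x, hxB⟩) := sub_eq_zero.1 h1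
      rw [h2]
      exact isAlgebraic_algebraMap _
    · exact h1 trivial
  obtain ⟨P, hP⟩ := Pool.Agent.H427R3.ZT.exists_place_O V hk hVt
  refine ⟨P, fun b => ?_⟩
  have h1 := hmem b
  rw [ValuationSubring.mem_nonunits_iff_or] at h1
  rcases h1 with h1 | h1
  · exact Or.inl h1
  · right
    rw [← hP] at h1
    by_contra hcon
    apply h1
    change P.Reg _
    right
    rw [P.ord_inv]
    omega

theorem ge_const {P : Place k F} {c : k} (h : Ge P 1 (algebraMap k F c)) : c = 0 := by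
  by_contra hc
  rcases h with h | h
  · exact hc (by simpa using h)
  · rw [P.ord_const hc] at h
    omega

/-- there are infinitely many places -/
theorem exists_notMem (S : Finset (Place k F)) : ∃ P : Place k F, P ∉ S := by
  classical
  by_contra hcon
  push Not at hcon
  obtain ⟨x, hx⟩ := IsFF.exists_transcendental (k := k) (K := F)
  have h1 : ∀ c : k, ∃ P : Place k F, 0 < P.ord (x - algebraMap k F c) := by
    intro c
    have hxc : Transcendental k (x - algebraMap k F c) := by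
      intro h
      apply hx
      have := h.add (isAlgebraic_algebraMap (R := k) (A := F) c)
      simpa using this
    obtain ⟨Z, hZ1, -, hZ3⟩ := zeros (k := k) (K := F) hxc
    have hfin := IsFF.finite hxc
    have hpos : 0 < Module.finrank (IntermediateField.adjoin k {x - algebraMap k F c}) F :=
      Module.finrank_pos
    obtain ⟨w, hw⟩ : Z.Nonempty := by
      rw [Finset.nonempty_iff_ne_empty]
      rintro rfl
      rw [Finset.sum_empty] at hZ3
      omega
    exact ⟨w, (hZ1 w).1 hw⟩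
  choose P hP using h1
  have hinj : Function.Injective P := by
    intro c c' hcc
    have h2 : Ge (P c) 1 (x - algebraMap k F c) := Or.inr (hP c)
    have h3 : Ge (P c) 1 (x - algebraMap k F c') := by
      rw [hcc]; exact Or.inr (hP c')
    have h4 := h3.sub h2
    have h5 : x - algebraMap k F c' - (x - algebraMap k F c) = algebraMap k F (c - c') := by
      rw [map_sub]; ring
    rw [h5] at h4
    exact sub_eq_zero.1 (ge_const h4)
  have hinf : Infinite k := inferInstance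
  have : Finite k := Finite.of_injective (fun c => (⟨P c, hcon (P c)⟩ : {p // p ∈ S}))
    (fun c c' h => hinj (congrArg Subtype.val h))
  exact not_finite k

/-- a function which vanishes at the places where the order of `D` is not zero -/
theorem exists_h {D : Derivation k F F} (hD : D ≠ 0) :
    ∃ h : F, h ≠ 0 ∧ ∀ P : Place k F, vo P D ≠ 0 → 0 < P.ord h := by
  have hfin := vo_finite hD
  obtain ⟨P, hP⟩ := exists_notMem hfin.toFinset
  obtain ⟨z, hz0, -, hz⟩ := Pool.Agent.W619.PQ.sep_many hfin.toFinset P hP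
  refine ⟨z, hz0, fun Q hQ => hz Q ?_⟩
  rw [Set.Finite.mem_toFinset]
  exact hQ

/-- the space of the `c` with `IsRegD D c` is finite dimensional -/
theorem exists_gens {D : Derivation k F F} (hD : D ≠ 0) :
    ∃ G : Finset F, ∀ c : F, IsRegD D c → c ∈ Submodule.span k (G : Set F) := by
  let E : Place k F →₀ ℤ := Finsupp.ofSupportFinite (fun P => - vo P D) (by
    refine (vo_finite hD).subset fun P hP => ?_
    rw [Function.mem_support] at hP
    intro h
    apply hP
    have h' : vo P D = 0 := h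
    rw [h', neg_zero])
  have hE : ∀ P, E P = - vo P D := fun P => rfl
  have hfg : (LL E).FG := Module.Finite.iff_fg.1 (finDim_LL E)
  obtain ⟨G, hG⟩ := hfg
  refine ⟨G, fun c hc => ?_⟩
  rw [hG, mem_LL]
  by_cases hc0 : c = 0
  · exact Or.inl hc0
  · right
    intro P
    rw [hE, neg_neg]
    exact (hc P).resolve_left hc0

end

/-- The specialisation argument. -/
theorem core {k F Ω : Type} [Field k] [Field F] [Algebra k F] [CharZero k] [IsFF k F]
    [IsAlgClosed k] [Field Ω] [Algebra k Ω] (hRRM : S_RRM) {T : Finset (F →ₐ[k] Ω)}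
    {q : F →ₐ[k] Ω} (hqT : q ∉ T)
    (hgon : ∀ t : F, Transcendental k t →
      2 * T.card + 3 ≤ Module.finrank (IntermediateField.adjoin k {t}) F)
    {D : Derivation k F F} (hD : D ≠ 0) (e : ℕ) (β₁ β₂ : Ω) (a a' : T → Ω)
    (he : (e = 0 ∧ β₁ = 1 ∧ β₂ = 0) ∨ (e = 1 ∧ β₂ = 1))
    (hrel : ∀ c : F, IsRegD D c →
      β₁ * q c + β₂ * q (D c) = ∑ t : T, (a t * t.1 c + a' t * t.1 (D c))) : False := by
  classical
  -- the affine model
  obtain ⟨x, hx⟩ := IsFF.exists_transcendental (k := k) (K := F)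
  obtain ⟨h, hh0, hh⟩ := exists_h hD
  obtain ⟨G, hG⟩ := exists_gens hD
  have hu : ∀ t : T, ∃ u : F, t.1 u ≠ q u := by
    intro t
    by_contra hc
    push Not at hc
    exact hqT ((AlgHom.ext hc : t.1 = q) ▸ t.2)
  choose u hu using hu
  let Gen : Finset F := G ∪ G.image D ∪ {x, h} ∪ Finset.univ.image u
  let B : Subalgebra k F := Algebra.adjoin k (Gen : Set F)
  have hGB : ∀ b ∈ Gen, b ∈ B := fun b hb => Algebra.subset_adjoin hb
  have hxB : x ∈ B := hGB x (by simp [Gen])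
  have hhB : h ∈ B := hGB h (by simp [Gen])
  have huB : ∀ t, u t ∈ B := fun t => hGB _ (by simp [Gen])
  have hcB : ∀ c : F, IsRegD D c → c ∈ B := by
    intro c hc
    have h1 : Submodule.span k (G : Set F) ≤ Subalgebra.toSubmodule B := by
      rw [Submodule.span_le]
      intro g hg
      exact hGB g (by simp only [Gen, Finset.mem_union]; exact Or.inl (Or.inl (Or.inl hg)))
    exact h1 (hG c hc)
  have hdB : ∀ c : F, IsRegD D c → D c ∈ B := by
    intro c hc
    have h1 : Submodule.span k (G : Set F) ≤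
        (Subalgebra.toSubmodule B).comap (D : F →ₗ[k] F) := by
      rw [Submodule.span_le]
      intro g hg
      refine hGB (D g) ?_
      simp only [Gen, Finset.mem_union]
      exact Or.inl (Or.inl (Or.inr (Finset.mem_image_of_mem _ hg)))
    exact h1 (hG c hc)
  -- the ring of the coefficients
  let RG : Finset Ω := Finset.univ.image a ∪ Finset.univ.image (fun p : T × Gen => p.1.1 p.2.1) ∪
    Finset.univ.image (fun g : Gen => q g.1) ∪ Finset.univ.image (fun t : T => (t.1 h)⁻¹) ∪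
    {(q h)⁻¹} ∪ Finset.univ.image (fun t : T => (t.1 (u t) - q (u t))⁻¹) ∪
    Finset.univ.image a' ∪ {β₁, β₂}
  let R : Subalgebra k Ω := Algebra.adjoin k (RG : Set Ω)
  have hRR : ∀ b ∈ RG, b ∈ R := fun b hb => Algebra.subset_adjoin hb
  have haR : ∀ t, a t ∈ R := fun t => hRR _ (by
    simp only [RG, Finset.mem_union, Finset.mem_image, Finset.mem_univ, true_and]
    exact Or.inl (Or.inl (Or.inl (Or.inl (Or.inl (Or.inl (Or.inl ⟨t, rfl⟩)))))))
  have haR' : ∀ t, a' t ∈ R := fun t => hRR _ (by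
    simp only [RG, Finset.mem_union, Finset.mem_image, Finset.mem_univ, true_and]
    exact Or.inl (Or.inr ⟨t, rfl⟩))
  have hβ₁ : β₁ ∈ R := hRR _ (by simp [RG])
  have hβ₂ : β₂ ∈ R := hRR _ (by simp [RG])
  have htR : ∀ (t : T) (b : F), b ∈ B → t.1 b ∈ R := by
    intro t b hb
    have h1 : B ≤ R.comap t.1 := by
      rw [Algebra.adjoin_le_iff]
      intro g hg
      refine hRR _ ?_
      simp only [RG, Finset.mem_union, Finset.mem_image, Finset.mem_univ, true_and]
      exact Or.inl (Or.inl (Or.inl (Or.inl (Or.inl (Or.inl (Or.inr ⟨(t, ⟨g, hg⟩), rfl⟩))))))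
    exact h1 hb
  have hqR : ∀ (b : F), b ∈ B → q b ∈ R := by
    intro b hb
    have h1 : B ≤ R.comap q := by
      rw [Algebra.adjoin_le_iff]
      intro g hg
      refine hRR _ ?_
      simp only [RG, Finset.mem_union, Finset.mem_image, Finset.mem_univ, true_and]
      exact Or.inl (Or.inl (Or.inl (Or.inl (Or.inl (Or.inr ⟨⟨g, hg⟩, rfl⟩)))))
    exact h1 hb
  have hthR : ∀ t : T, (t.1 h)⁻¹ ∈ R := fun t => hRR _ (by
    simp only [RG, Finset.mem_union, Finset.mem_image, Finset.mem_univ, true_and]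
    exact Or.inl (Or.inl (Or.inl (Or.inl (Or.inr ⟨t, rfl⟩)))))
  have hqhR : (q h)⁻¹ ∈ R := hRR _ (by
    simp only [RG, Finset.mem_union, Finset.mem_image, Finset.mem_univ, true_and,
      Finset.mem_singleton]
    exact Or.inl (Or.inl (Or.inl (Or.inr trivial))))
  have huR : ∀ t : T, (t.1 (u t) - q (u t))⁻¹ ∈ R := fun t => hRR _ (by
    simp only [RG, Finset.mem_union, Finset.mem_image, Finset.mem_univ, true_and]
    exact Or.inl (Or.inl (Or.inr ⟨t, rfl⟩)))
  have : Algebra.FiniteType k R :=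
    (Subalgebra.fg_iff_finiteType R).1 (Subalgebra.fg_adjoin_finset RG)
  obtain ⟨φ⟩ := exists_ev (k := k) (R := R)
  -- the points
  let pt : T → (B →ₐ[k] k) := fun t =>
    φ.comp ((t.1.comp B.val).codRestrict R (fun b => htR t b.1 b.2))
  let pq : B →ₐ[k] k := φ.comp ((q.comp B.val).codRestrict R (fun b => hqR b.1 b.2))
  have hpt : ∀ (t : T) (b : B), pt t b = φ ⟨t.1 b.1, htR t b.1 b.2⟩ := fun t b => rfl
  have hpq : ∀ (b : B), pq b = φ ⟨q b.1, hqR b.1 b.2⟩ := fun b => rfl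
  have hinv : ∀ (z : Ω) (hz : z ∈ R) (hz' : z⁻¹ ∈ R), z ≠ 0 → φ ⟨z, hz⟩ ≠ 0 := by
    intro z hz hz' hz0 h0
    have h1 : (⟨z, hz⟩ : R) * ⟨z⁻¹, hz'⟩ = 1 := Subtype.ext (mul_inv_cancel₀ hz0)
    have h2 := congrArg φ h1
    rw [map_mul, h0, zero_mul, map_one] at h2
    exact zero_ne_one h2
  have hth0 : ∀ t : T, pt t ⟨h, hhB⟩ ≠ 0 := fun t =>
    hinv _ _ (hthR t) ((map_ne_zero_iff _ t.1.injective).2 hh0)
  have hqh0 : pq ⟨h, hhB⟩ ≠ 0 := hinv _ _ hqhR ((map_ne_zero_iff _ q.injective).2 hh0)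
  have htu : ∀ t : T, pt t ⟨u t, huB t⟩ ≠ pq ⟨u t, huB t⟩ := by
    intro t h1
    have h2 : t.1 (u t) - q (u t) ∈ R := sub_mem (htR t _ (huB t)) (hqR _ (huB t))
    have h3 := hinv _ h2 (huR t) (sub_ne_zero.2 (hu t))
    apply h3
    have h4 : (⟨t.1 (u t) - q (u t), h2⟩ : R) = ⟨t.1 (u t), htR t _ (huB t)⟩ -
        ⟨q (u t), hqR _ (huB t)⟩ := rfl
    rw [h4, map_sub]
    exact sub_eq_zero.2 h1
  -- the places
  choose Pt hPt using fun t : T => exists_pl B hxB hx (pt t)
  obtain ⟨Pq, hPq⟩ := exists_pl B hxB hx pq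
  have hvan : ∀ (P : Place k F) (χ : B →ₐ[k] k),
      (∀ b : B, Ge P 1 ((b : F) - algebraMap k F (χ b))) → ∀ (b : F) (hb : b ∈ B), Ge P 1 b →
        χ ⟨b, hb⟩ = 0 := by
    intro P χ h1 b hb h2
    have h3 := h2.sub (h1 ⟨b, hb⟩)
    have h4 : b - (((⟨b, hb⟩ : B) : F) - algebraMap k F (χ ⟨b, hb⟩)) =
        algebraMap k F (χ ⟨b, hb⟩) := by
      show b - (b - algebraMap k F (χ ⟨b, hb⟩)) = _
      ring
    rw [h4] at h3
    exact ge_const h3
  have hnvan : ∀ (P : Place k F) (χ : B →ₐ[k] k),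
      (∀ b : B, Ge P 1 ((b : F) - algebraMap k F (χ b))) → ∀ (b : F) (hb : b ∈ B), b ≠ 0 →
        P.ord b = 0 → χ ⟨b, hb⟩ ≠ 0 := by
    intro P χ h1 b hb hb0 hb1 h2
    have h3 := h1 ⟨b, hb⟩
    rw [h2, map_zero, sub_zero] at h3
    have h4 := h3.resolve_left hb0
    have h5 : P.ord ((⟨b, hb⟩ : B) : F) = 0 := hb1
    omega
  have hvo : ∀ (P : Place k F) (χ : B →ₐ[k] k),
      (∀ b : B, Ge P 1 ((b : F) - algebraMap k F (χ b))) → χ ⟨h, hhB⟩ ≠ 0 → vo P D = 0 := by
    intro P χ h1 h2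
    by_contra h3
    exact h2 (hvan P χ h1 h hhB (Or.inr (hh P h3)))
  have hne : ∀ t : T, Pt t ≠ Pq := by
    intro t h1
    apply htu t
    have h2 := hPt t ⟨u t, huB t⟩
    have h3 := hPq ⟨u t, huB t⟩
    rw [h1] at h2
    have h4 := h3.sub h2
    have h5 : ((⟨u t, huB t⟩ : B) : F) - algebraMap k F (pq ⟨u t, huB t⟩) -
        (((⟨u t, huB t⟩ : B) : F) - algebraMap k F (pt t ⟨u t, huB t⟩)) =
        algebraMap k F (pt t ⟨u t, huB t⟩ - pq ⟨u t, huB t⟩) := by
      rw [map_sub]; ring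
    rw [h5] at h4
    exact sub_eq_zero.1 (ge_const h4)
  let Tb : Finset (Place k F) := Finset.univ.image Pt
  have hTb : Tb.card ≤ T.card := by
    refine Finset.card_image_le.trans ?_
    rw [Finset.card_univ, Fintype.card_coe]
  have hPqT : Pq ∉ Tb := by
    intro h1
    obtain ⟨t, -, h2⟩ := Finset.mem_image.1 h1
    exact hne t h2
  have he1 : e ≤ 1 := by
    rcases he with he | he
    · omega
    · omega
  let Z : Place k F → ℕ := fun Q => if Q ∈ Tb then 2 else if Q = Pq then e else 0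
  have hZt : ∀ Q ∈ Tb, Z Q = 2 := fun Q hQ => if_pos hQ
  have hZq : Z Pq = e := by
    show (if Pq ∈ Tb then 2 else if Pq = Pq then e else 0) = e
    rw [if_neg hPqT, if_pos rfl]
  have hZ0 : ∀ Q, Q ∉ insert Pq Tb → Z Q = 0 := by
    intro Q hQ
    rw [Finset.mem_insert, not_or] at hQ
    show (if Q ∈ Tb then 2 else if Q = Pq then e else 0) = 0
    rw [if_neg hQ.2, if_neg hQ.1]
  have hsum : ∑ Q ∈ insert Pq Tb, Z Q ≤ 2 * T.card + 1 := by
    rw [Finset.sum_insert hPqT, hZq, Finset.sum_congr rfl hZt, Finset.sum_const, smul_eq_mul]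
    omega
  obtain ⟨f, hf0, hf1, hf2⟩ := hRRM Z (insert Pq Tb) hZ0 Pq (fun t ht => by
    have := hgon t ht
    omega) hD
  have hfr : IsRegD D f := fun P => Or.inr (by
    have := hf1 P
    omega)
  have hfB : f ∈ B := hcB f hfr
  have hdfB : D f ∈ B := hdB f hfr
  have hvq : vo Pq D = 0 := hvo Pq pq hPq hqh0
  rw [hvq, hZq, zero_add] at hf2
  have hft : ∀ t : T, pt t ⟨f, hfB⟩ = 0 ∧ pt t ⟨D f, hdfB⟩ = 0 := by
    intro t
    have hvt : vo (Pt t) D = 0 := hvo (Pt t) (pt t) (hPt t) (hth0 t)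
    have h1 := hf1 (Pt t)
    rw [hvt, hZt (Pt t) (Finset.mem_image_of_mem _ (Finset.mem_univ _)), zero_add] at h1
    have h2 : (2 : ℤ) ≤ (Pt t).ord f := h1
    obtain ⟨-, h4⟩ := ord_der (Pt t) hD (f := f) (by omega)
    exact ⟨hvan (Pt t) (pt t) (hPt t) f hfB (Or.inr (by omega)),
      hvan (Pt t) (pt t) (hPt t) (D f) hdfB (Or.inr (by omega))⟩
  have h1 := hrel f hfr
  have h2 : (⟨β₁, hβ₁⟩ : R) * ⟨q f, hqR f hfB⟩ + (⟨β₂, hβ₂⟩ : R) * ⟨q (D f), hqR _ hdfB⟩ =
      ∑ t : T, ((⟨a t, haR t⟩ : R) * ⟨t.1 f, htR t f hfB⟩ +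
        (⟨a' t, haR' t⟩ : R) * ⟨t.1 (D f), htR t _ hdfB⟩) := by
    apply Subtype.ext
    rw [AddSubmonoidClass.coe_finsetSum]
    exact h1
  have h3 := congrArg φ h2
  rw [map_sum, map_add, map_mul, map_mul] at h3
  have h4 : ∑ t : T, φ ((⟨a t, haR t⟩ : R) * ⟨t.1 f, htR t f hfB⟩ +
        (⟨a' t, haR' t⟩ : R) * ⟨t.1 (D f), htR t _ hdfB⟩) = 0 := by
    refine Finset.sum_eq_zero fun t _ => ?_
    rw [map_add, map_mul, map_mul]
    obtain ⟨h5, h6⟩ := hft t
    rw [hpt] at h5 h6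
    rw [h5, h6, mul_zero, mul_zero, add_zero]
  rw [h4] at h3
  rcases he with ⟨he0, hb1, hb2⟩ | ⟨he0, hb2⟩
  · subst hb1
    subst hb2
    have h5 : φ (⟨1, hβ₁⟩ : R) = 1 := map_one φ
    have h6 : φ (⟨0, hβ₂⟩ : R) = 0 := map_zero φ
    rw [h5, h6, one_mul, zero_mul, add_zero] at h3
    rw [he0] at hf2
    exact hnvan Pq pq hPq f hfB hf0 (by rw [hf2]; rfl) h3
  · subst hb2
    have h5 : φ (⟨1, hβ₂⟩ : R) = 1 := map_one φ
    rw [he0] at hf2
    have hf2' : Pq.ord f = 1 := by rw [hf2]; rfl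
    have h6 : pq ⟨f, hfB⟩ = 0 := hvan Pq pq hPq f hfB (Or.inr (by omega))
    rw [hpq] at h6
    rw [h5, h6, mul_zero, one_mul, zero_add] at h3
    obtain ⟨h7, h8⟩ := ord_der Pq hD (f := f) (by omega)
    exact hnvan Pq pq hPq (D f) hdfB h7 (by omega) h3

section lin

variable {k F Ω : Type} [Field k] [Field F] [Algebra k F] [Field Ω] [Algebra k Ω]

/-- evaluation of the first coordinate -/
noncomputable def ev1 (D : Derivation k F F) (s : F →ₐ[k] Ω) : WspJ Ω D →ₗ[Ω] Ω :=
  (LinearMap.fst Ω Ω Ω).comp ((LinearMap.proj s).comp (WspJ Ω D).subtype)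

/-- evaluation of the second coordinate -/
noncomputable def ev2 (D : Derivation k F F) (s : F →ₐ[k] Ω) : WspJ Ω D →ₗ[Ω] Ω :=
  (LinearMap.snd Ω Ω Ω).comp ((LinearMap.proj s).comp (WspJ Ω D).subtype)

theorem ev1_apply (D : Derivation k F F) (s : F →ₐ[k] Ω) (w : WspJ Ω D) :
    ev1 D s w = (w.1 s).1 := rfl

theorem ev2_apply (D : Derivation k F F) (s : F →ₐ[k] Ω) (w : WspJ Ω D) :
    ev2 D s w = (w.1 s).2 := rfl

end lin

end Pool.Agent.Helper320.PC.SEPJ

namespace Pool.Agent.Helper320.PC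

open SEPJ

/-- TARGET -/
theorem t_SEPJ (hRRM : S_RRM) : S_SEPJ := by
  intro k F Ω _ _ _ _ _ _ _ _ T q hq hgon D hD
  classical
  constructor
  · by_contra hcon
    push Not at hcon
    let L : T ⊕ T → (WspJ Ω D →ₗ[Ω] Ω) := Sum.elim (fun t => ev1 D t.1) (fun t => ev2 D t.1)
    have hker : ⨅ i, LinearMap.ker (L i) ≤ LinearMap.ker (ev1 D q) := by
      intro w hw
      rw [Submodule.mem_iInf] at hw
      rw [LinearMap.mem_ker]
      by_contra hwq
      obtain ⟨t, ht, hwt⟩ := hcon w.1 w.2 hwq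
      apply hwt
      exact Prod.ext (hw (Sum.inl ⟨t, ht⟩)) (hw (Sum.inr ⟨t, ht⟩))
    have hspan := mem_span_of_iInf_ker_le_ker hker
    rw [Submodule.mem_span_range_iff_exists_fun] at hspan
    obtain ⟨a, ha⟩ := hspan
    refine core hRRM hq hgon hD 0 1 0 (fun t => a (Sum.inl t)) (fun t => a (Sum.inr t))
      (Or.inl ⟨rfl, rfl, rfl⟩) ?_
    intro c hc
    have hmem : (fun σ : F →ₐ[k] Ω => (σ c, σ (D c))) ∈ WspJ Ω D :=
      Submodule.subset_span ⟨⟨c, hc⟩, rfl⟩
    have h1 := LinearMap.congr_fun ha ⟨_, hmem⟩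
    rw [LinearMap.sum_apply, Fintype.sum_sum_type] at h1
    rw [one_mul, zero_mul, add_zero, Finset.sum_add_distrib]
    exact h1.symm
  · by_contra hcon
    push Not at hcon
    let L : Option (T ⊕ T) → (WspJ Ω D →ₗ[Ω] Ω) := fun o => match o with
      | none => ev1 D q
      | some (Sum.inl t) => ev1 D t.1
      | some (Sum.inr t) => ev2 D t.1
    have hker : ⨅ i, LinearMap.ker (L i) ≤ LinearMap.ker (ev2 D q) := by
      intro w hw
      rw [Submodule.mem_iInf] at hw
      rw [LinearMap.mem_ker]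
      by_contra hwq
      obtain ⟨t, ht, hwt⟩ := hcon w.1 w.2 (hw none) hwq
      apply hwt
      exact Prod.ext (hw (some (Sum.inl ⟨t, ht⟩))) (hw (some (Sum.inr ⟨t, ht⟩)))
    have hspan := mem_span_of_iInf_ker_le_ker hker
    rw [Submodule.mem_span_range_iff_exists_fun] at hspan
    obtain ⟨a, ha⟩ := hspan
    refine core hRRM hq hgon hD 1 (-(a none)) 1 (fun t => a (some (Sum.inl t)))
      (fun t => a (some (Sum.inr t))) (Or.inr ⟨rfl, rfl⟩) ?_
    intro c hc
    have hmem : (fun σ : F →ₐ[k] Ω => (σ c, σ (D c))) ∈ WspJ Ω D :=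
      Submodule.subset_span ⟨⟨c, hc⟩, rfl⟩
    have h1 := LinearMap.congr_fun ha ⟨_, hmem⟩
    rw [LinearMap.sum_apply, Fintype.sum_option, Fintype.sum_sum_type] at h1
    have h2 : a none * q c + (∑ t : T, a (some (Sum.inl t)) * t.1 c +
        ∑ t : T, a (some (Sum.inr t)) * t.1 (D c)) = q (D c) := h1
    rw [Finset.sum_add_distrib, one_mul, ← h2]
    ring

end Pool.Agent.Helper320.PC
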