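import Mathlib
import Pool.Agent.Helper320.PC.Stm5

/-!
Images of products of curves: traces commute with derivations.
-/

set_option autoImplicit false
set_option linter.overlappingInstances false
set_option linter.unusedSectionVars false

namespace Pool.Agent.Helper320.PC.TRD

open Matrix

theorem repr_der {k K L : Type} [Field k] [Field K] [Field L] [Algebra k K] [Algebra k L]
    [Algebra L K] [IsScalarTower k L K] {ι : Type} [Fintype ι] (b : Module.Basis ι L K)
    (D : Derivation k L L) (D' : Derivation k K K)
    (h : ∀ f : L, D' (algebraMap L K f) = algebraMap L K (D f)) (y : K) (j : ι) :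
    b.repr (D' y) j = D (b.repr y j) + ∑ i, b.repr y i * b.repr (D' (b i)) j := by
  have h1 : D' y = ∑ i, (D (b.repr y i) • b i + b.repr y i • D' (b i)) := by
    conv_lhs => rw [← b.sum_repr y]
    rw [map_sum]
    refine Finset.sum_congr rfl fun i _ => ?_
    have e : ∀ (r : L) (z : K), r • z = algebraMap L K r * z := fun r z => Algebra.smul_def r z
    rw [e, e, e, Derivation.leibniz, h, smul_eq_mul, smul_eq_mul]
    ring
  rw [h1, Finset.sum_add_distrib, map_add, Finsupp.add_apply, b.repr_sum_self]
  congr 1
  rw [map_sum, Finsupp.finsetSum_apply]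
  refine Finset.sum_congr rfl fun i _ => ?_
  rw [map_smul, Finsupp.smul_apply, smul_eq_mul]

theorem mat_der {k K L : Type} [Field k] [Field K] [Field L] [Algebra k K] [Algebra k L]
    [Algebra L K] [IsScalarTower k L K] {ι : Type} [Fintype ι] [DecidableEq ι]
    (b : Module.Basis ι L K)
    (D : Derivation k L L) (D' : Derivation k K K)
    (h : ∀ f : L, D' (algebraMap L K f) = algebraMap L K (D f)) (f : K) :
    Algebra.leftMulMatrix b (D' f) = (Algebra.leftMulMatrix b f).map D +
      (Matrix.of fun j i => b.repr (D' (b i)) j) * Algebra.leftMulMatrix b f -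
      Algebra.leftMulMatrix b f * (Matrix.of fun j i => b.repr (D' (b i)) j) := by
  ext i j
  have e1 : D' f * b j = D' (f * b j) - f * D' (b j) := by
    rw [Derivation.leibniz]
    simp only [smul_eq_mul]
    ring
  have e2 : b.repr (f * D' (b j)) i = ∑ l, b.repr (f * b l) i * b.repr (D' (b j)) l := by
    conv_lhs => rw [← b.sum_repr (D' (b j)), Finset.mul_sum, map_sum, Finsupp.finsetSum_apply]
    refine Finset.sum_congr rfl fun l _ => ?_
    rw [mul_smul_comm, map_smul, Finsupp.smul_apply, smul_eq_mul, mul_comm]
  rw [Algebra.leftMulMatrix_eq_repr_mul, e1, map_sub, Finsupp.sub_apply, e2,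
    repr_der b D D' h (f * b j) i, Matrix.sub_apply, Matrix.add_apply, Matrix.map_apply,
    Matrix.mul_apply, Matrix.mul_apply]
  simp only [Algebra.leftMulMatrix_eq_repr_mul, Matrix.of_apply]
  congr 2
  exact Finset.sum_congr rfl fun l _ => mul_comm _ _

end Pool.Agent.Helper320.PC.TRD

namespace Pool.Agent.Helper320.PC

theorem t_TRD : S_TRD := by
  intro k K L _ _ _ _ _ _ _ _ D D' h f
  classical
  let b := Module.finBasis L K
  rw [Algebra.trace_eq_matrix_trace b, Algebra.trace_eq_matrix_trace b, TRD.mat_der b D D' h f,
    Matrix.trace_sub, Matrix.trace_add, Matrix.trace_mul_comm, add_sub_cancel_right]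
  simp only [Matrix.trace, Matrix.diag_apply, Matrix.map_apply, map_sum]

end Pool.Agent.Helper320.PC
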