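import Pool.Agent.Helper320.PC.Main2

/-!
Images of products of curves of large gonality: uniruled or of large Kodaira dimension.
-/

set_option autoImplicit false
set_option linter.overlappingInstances false
set_option linter.unusedSectionVars false
set_option maxHeartbeats 4000000
set_option synthInstance.maxHeartbeats 400000

open FF Pool.Agent.W603.LV
open Pool.Agent.W602.GT (IsPluri Divisorial RegAt KodGe)
open Pool.Agent.W619.PQ (extForm IsUniruled)
open Pool.Agent.W619.TW (MM Cur)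
open Pool.Agent.Y172 (exists_crd exists_lift lift_dual pluri_coord)

namespace Pool.Agent.Helper320.PC

theorem gonGe_two {F : Type} [Field F] [Algebra ℂ F] [IsFF ℂ F]
    (h : ¬ ∃ t : F, IntermediateField.adjoin ℂ {t} = ⊤) : GonGe ℂ F 2 := by
  intro t ht
  have hfin := IsFF.finite ht
  have h1 : 0 < Module.finrank (IntermediateField.adjoin ℂ {t}) F := Module.finrank_pos
  by_contra hcon
  have h2 : Module.finrank (IntermediateField.adjoin ℂ {t}) F = 1 := by omega
  exact h ⟨t, IntermediateField.finrank_eq_one_iff_eq_top.1 h2⟩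

theorem gonGe_max {F : Type} [Field F] [Algebra ℂ F] [IsFF ℂ F]
    (h : ¬ ∃ t : F, IntermediateField.adjoin ℂ {t} = ⊤) {γ : ℕ} (hγ : GonGe ℂ F γ) :
    GonGe ℂ F (max γ 2) := fun t ht => max_le (hγ t ht) (gonGe_two h t ht)

/-- **Uniruled or of large Kodaira dimension.** -/
theorem kod_main {m : ℕ} {K : Type} [Field K] [Algebra ℂ K]
    (hK : Algebra.trdeg ℂ K = (m + 1 : ℕ)) (F : Fin (m + 1) → IntermediateField ℂ K)
    [hF : ∀ i, IsFF ℂ (F i)] (hsup : ⨆ i, F i = ⊤)
    (L : Type) [Field L] [Algebra ℂ L] [Algebra L K] [IsScalarTower ℂ L K]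
    [FiniteDimensional L K] (I : Finset (Fin (m + 1))) (hI0 : I.Nonempty) (γ : Fin (m + 1) → ℕ)
    (hγ : ∀ i, GonGe ℂ (F i) (γ i)) (L' : IntermediateField L K)
    (hL' : L' = IntermediateField.adjoin L (⋃ i ∈ I, (F i : Set K)))
    (hI : ∀ i ∈ I, 2 * Module.finrank L (IntermediateField.adjoin L (F i : Set K)) < γ i)
    (hJ : ∀ i, i ∉ I → 2 ≤ γ i)
    (h1 : ∀ i j, i ∉ I → j ∉ I → i ≠ j → Module.finrank L' K + 3 ≤ γ i + γ j)
    (h2 : (∀ i j, i ∉ I → j ∉ I → i = j) ∨ ∀ i, i ∉ I → Module.finrank L' K + 1 ≤ 2 * γ i) :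
    IsUniruled ℂ L (m + 1) ∨ KodGe ℂ L (m + 1) (fun _ => False) I.card := by
  classical
  have hess : Algebra.EssFiniteType ℂ K := ess_sup F hsup
  have hL : Algebra.trdeg ℂ L = (m + 1 : ℕ) := Pool.Agent.Y184.NT.trdeg_below (K := K) hK
  have hD0 : ∀ i, der ℂ (F i) ≠ 0 := fun i => der_ne
  choose x hx using fun i => IsFF.exists_transcendental (k := ℂ) (K := F i)
  have hγ2 : ∀ i, 2 ≤ γ i := by
    intro i
    by_cases h : i ∈ I
    · have h4 := hI i h
      have h5 : 0 < Module.finrank L (IntermediateField.adjoin L (F i : Set K)) :=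
        Module.finrank_pos
      omega
    · exact hJ i h
  have hnr : ∀ i, ¬ ∃ t : F i, IntermediateField.adjoin ℂ {t} = ⊤ := by
    rintro i ⟨t, ht⟩
    have ht' := Pool.Agent.W619.PQ.transcendental_of_top ht
    have h3 := hγ i t ht'
    rw [ht, IntermediateField.finrank_top] at h3
    have h4 := hγ2 i
    omega
  obtain ⟨z, E, hz, hE⟩ := exists_crd (k := ℂ) (K := L) hL
  choose E' hE' using fun i => exists_lift (k := ℂ) (K := L) (L := K) hL (E i)
  have hzK : IsTranscendenceBasis ℂ (fun j => algebraMap L K (z j)) := hz.algebraMap_comp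
  have hE'd := lift_dual hE hE'
  obtain ⟨δ, hδ⟩ : ∃ δ : K, δ = (∏ i, algebraMap (F i) K (1 / (der ℂ (F i) (x i)) ^ 1)) *
    (Matrix.det (Matrix.of fun j i => E' j (algebraMap (F i) K (x i)))) ^ 1 := ⟨_, rfl⟩
  have hform : ∀ c : ∀ i, F i, extForm (K := K) 1 (fun i => der ℂ (F i)) x c E' =
      (∏ i, (c i : K)) * δ := fun c => form_eq F (fun i => der ℂ (F i)) x c E' hδ
  have hδ0 : δ ≠ 0 := by
    have hxb : IsTranscendenceBasis ℂ fun i => algebraMap (F i) K (x i) :=
      Pool.Agent.W619.PQ.basis_of_iSup F hsup hK x hx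
    obtain ⟨G, hG⟩ := Pool.Agent.W619.PQ.extForm_ne 1 (fun i => der ℂ (F i)) x (fun _ => 1)
      (fun _ => one_ne_zero) (fun i => der_ne_zero (hD0 i) (hx i)) hxb
    intro h0
    apply hG
    rw [pluri_coord hzK hE'd (Pool.Agent.W619.PQ.extForm_pluri 1 _ x _) G, hform, h0, mul_zero,
      mul_zero]
  rcases dichotomy t_COREJ' t_KOD t_TRD hK F hsup L I hI0 γ hγ L' hL' hI
    (fun i => der ℂ (F i)) hD0 x hx hz hE hE' with hkod | hrel
  · exact Or.inr hkod
  left
  have hT : IsScalarTower ℂ L' K := IsScalarTower.of_algebraMap_eq fun c => by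
    rw [IsScalarTower.algebraMap_apply ℂ L K, IsScalarTower.algebraMap_apply ℂ L L',
      ← IsScalarTower.algebraMap_apply L L' K]
  have hFL : ∀ i ∈ I, ∀ y ∈ F i, y ∈ L' := by
    intro i hi y hy
    rw [hL']
    exact IntermediateField.subset_adjoin L _ (Set.mem_iUnion₂.2 ⟨i, hi, hy⟩)
  have hbot : (⊥ : IntermediateField L' K) =
      IntermediateField.adjoin L' (⋃ i ∈ I, (F i : Set K)) := by
    apply le_antisymm bot_le
    rw [IntermediateField.adjoin_le_iff]
    intro y hy
    obtain ⟨i, hi, hy⟩ := Set.mem_iUnion₂.1 hy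
    exact (⊥ : IntermediateField L' K).algebraMap_mem ⟨y, hFL i hi y hy⟩
  have hbot' : ∀ i ∈ I, IntermediateField.adjoin L' (F i : Set K) = ⊥ := by
    intro i hi
    apply le_antisymm _ bot_le
    rw [IntermediateField.adjoin_le_iff]
    intro y hy
    exact (⊥ : IntermediateField L' K).algebraMap_mem ⟨y, hFL i hi y hy⟩
  have hfr : Module.finrank (⊥ : IntermediateField L' K) K = Module.finrank L' K :=
    IntermediateField.finrank_bot'
  obtain ⟨⟨i, hiI, -, hj⟩, -⟩ := t_CORE2' (K := K) (L := L') F hsup I γ hγ ⊥ hbot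
    (fun i hi => by
      rw [hbot' i hi, IntermediateField.finrank_bot]
      have := hγ2 i
      omega) (fun i _ => hγ2 i)
    (fun i => der ℂ (F i)) hD0 δ hδ0 (fun c hc => by
      have h3 := hrel c fun i _ => hc i
      rw [hform] at h3
      exact h3) (by rw [hfr]; exact h1) (by rw [hfr]; exact h2)
  have hmem : ∀ z : L, algebraMap L K z ∈ L'.restrictScalars ℂ := fun z => L'.algebraMap_mem z
  have hfin : FiniteDimensional (L'.restrictScalars ℂ) K :=
    inferInstanceAs (FiniteDimensional L' K)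
  refine uniruled_sub L _ hmem (uniruled_of_rel t_SPF' hK F hsup hnr (fun i => der ℂ (F i)) hD0 x
    hx (L'.restrictScalars ℂ) i (fun j hji z hz => ?_) (fun l => hmem (z l)) hzK hE'd
    fun c hc => ?_)
  · obtain ⟨y, hy⟩ := IntermediateField.mem_bot.1 (hj j hji z hz)
    rw [← hy]
    exact y.2
  · have h5 : ((Algebra.trace L' K (extForm (K := K) 1 (fun i => der ℂ (F i)) x c E') : L') : K) =
        0 := by
      rw [hrel c fun i _ => hc i]
      rfl
    exact Subtype.ext h5

end Pool.Agent.Helper320.PC
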