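import Pool.Agent.Helper320.PC.Stm
import Pool.Agent.W619.TW.Frame
import Pool.Agent.W619.TW.Span
import Pool.Agent.W619.TW.Inter
import Pool.Agent.W619.PQ.Final
import Pool.Agent.W602.GT.Defs

/-!
Images of products of curves: further statements.
-/

set_option autoImplicit false
set_option linter.overlappingInstances false
set_option linter.unusedSectionVars false

open FF Pool.Agent.W603.LV
open Pool.Agent.W602.GT (IsPluri Divisorial RegAt)
open Pool.Agent.W619.PQ (extForm)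
open Pool.Agent.W619.TW (MM Cur)

namespace Pool.Agent.Helper320.PC

/-- the relation between the traces forces all factors but one to lie in the small field -/
def S_CORE : Prop :=
  ∀ {K L : Type} [Field K] [Field L] [Algebra ℂ K] [Algebra ℂ L] [Algebra L K]
    [IsScalarTower ℂ L K] [FiniteDimensional L K] {n : ℕ} (F : Fin n → IntermediateField ℂ K)
    [∀ i, IsFF ℂ (F i)] (_ : ⨆ i, F i = ⊤) (γ : Fin n → ℕ) (_ : ∀ i, GonGe ℂ (F i) (γ i))
    (_ : ∀ i, 2 ≤ γ i) (D : ∀ i, Derivation ℂ (F i) (F i)) (_ : ∀ i, D i ≠ 0) (δ : K) (_ : δ ≠ 0)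
    (_ : ∀ c : ∀ i, F i, (∀ i, IsRegD (D i) (c i)) →
      Algebra.trace L K ((∏ i, (c i : K)) * δ) = 0)
    (_ : ∀ i j, i ≠ j → Module.finrank L K + 3 ≤ γ i + γ j)
    (_ : n = 1 ∨ ∀ i, Module.finrank L K + 1 ≤ 2 * γ i),
    ∃ i, γ i ≤ Module.finrank L K ∧ ∀ j, j ≠ i → ∀ z ∈ F j, z ∈ Set.range (algebraMap L K)

/-- regular differentials of a curve after the extension of the field of constants -/
def S_GEN : Prop :=
  ∀ {k Λ A : Type} [Field k] [CharZero k] [IsAlgClosed k] [Field Λ] [IsAlgClosed Λ] [Field A]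
    [Algebra k Λ] [Algebra Λ A] [Algebra k A] [IsScalarTower k Λ A] [IsFF Λ A]
    (M F : IntermediateField k A) (_ : ∀ z : A, z ∈ M ↔ z ∈ Set.range (algebraMap Λ A))
    (_ : Cur M F) (x : F) (_ : Transcendental k x)
    (D0 : Derivation k F F) (_ : D0 ≠ 0) (D : Derivation Λ A A) (_ : D ≠ 0) (f : A)
    (_ : ∀ Q : Place Λ A, Ge Q (vo Q D) f),
    f ∈ Submodule.span Λ
      (Set.range fun c : {c : F // IsRegD D0 c} => ((c.1 / D0 x : F) : A) * D (x : A))

/-- exterior products of regular differentials are regular -/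
def S_REG : Prop :=
  ∀ {K : Type} [Field K] [Algebra ℂ K] {n : ℕ} (F : Fin n → IntermediateField ℂ K)
    [∀ i, IsFF ℂ (F i)] (D0 : ∀ i, Derivation ℂ (F i) (F i)) (_ : ∀ i, D0 i ≠ 0)
    (x c : ∀ i, F i) (_ : ∀ i, Transcendental ℂ (x i)) (_ : ∀ i, IsRegD (D0 i) (c i)),
    IsPluri 1 (extForm (K := K) 1 D0 x c) ∧
      ∀ P : Place ℂ K, Divisorial n P → RegAt P (extForm (K := K) 1 D0 x c)

/-- the forms generate the regular differentials of the geometric generic fibre of the projection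
which forgets one of the factors -/
def S_SPF : Prop :=
  ∀ {K : Type} [Field K] [Algebra ℂ K] {n : ℕ}
    (F : Fin (n + 1) → IntermediateField ℂ K)
    [∀ i, IsFF ℂ (F i)] (_ : ⨆ i, F i = ⊤) (_ : Algebra.trdeg ℂ K = (n + 1 : ℕ))
    (D0 : ∀ i, Derivation ℂ (F i) (F i)) (_ : ∀ i, D0 i ≠ 0)
    (x c : ∀ i, F i) (_ : ∀ i, Transcendental ℂ (x i)) (_ : ∀ i, c i ≠ 0)
    (i : Fin (n + 1)) {J : Type} (b : J → F i)
    (_ : ∀ z : F i, IsRegD (D0 i) z → z ∈ Submodule.span ℂ (Set.range b))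
    (Λ A : Type) [Field Λ] [IsAlgClosed Λ] [Algebra ℂ Λ] [Field A] [Algebra Λ A]
    [Algebra ℂ A] [IsScalarTower ℂ Λ A] (φ : K →ₐ[ℂ] A) (_ : IsFF Λ A)
    (_ : IntermediateField.adjoin Λ (Set.range φ) = ⊤)
    (_ : ∀ z ∈ MM F i, ∃ a : Λ, algebraMap Λ A a = φ z)
    (_ : ∀ z : K, ¬ IsAlgebraic (MM F i) z → Transcendental Λ (φ z))
    (t : Fin n → K) (ξ : K) (_ : ∀ j, t j ∈ MM F i)
    (_ : IsTranscendenceBasis ℂ (Fin.append t (fun _ : Fin 1 => ξ)))
    (E : Fin (n + 1) → Derivation ℂ K K)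
    (_ : ∀ i j, E i (Fin.append t (fun _ : Fin 1 => ξ) j) = if i = j then 1 else 0)
    (D : Derivation Λ A A) (_ : D (φ ξ) = 1) (f : A) (_ : f ≠ 0)
    (_ : ∀ Q : Place Λ A, vo Q D ≤ Q.ord f),
    f ∈ Submodule.span Λ (Set.range fun j : J =>
      φ (extForm (K := K) 1 D0 x (fun l => if h : l = i then h ▸ b j else c l) E))

end Pool.Agent.Helper320.PC
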