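import Pool.Agent.Helper320.PC.Stm2

/-!
Images of products of curves: the relation between the traces, with some factors of small degree.
-/

set_option autoImplicit false
set_option linter.overlappingInstances false
set_option linter.unusedSectionVars false

open FF Pool.Agent.W603.LV

namespace Pool.Agent.Helper320.PC

/-- The relation between the traces: if the degree over `L` of the factors `F i`, `i ∈ I`, is smaller
than their gonality then the relation holds over the compositum `L'` of `L` with these factors, and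
all other factors but one lie in `L'`. -/
def S_CORE2 : Prop :=
  ∀ {K L : Type} [Field K] [Field L] [Algebra ℂ K] [Algebra ℂ L] [Algebra L K]
    [IsScalarTower ℂ L K] [FiniteDimensional L K] {n : ℕ} (F : Fin n → IntermediateField ℂ K)
    [∀ i, IsFF ℂ (F i)] (_ : ⨆ i, F i = ⊤) (I : Finset (Fin n)) (γ : Fin n → ℕ)
    (_ : ∀ i, GonGe ℂ (F i) (γ i)) (L' : IntermediateField L K)
    (_ : L' = IntermediateField.adjoin L (⋃ i ∈ I, (F i : Set K)))
    (_ : ∀ i ∈ I, Module.finrank L (IntermediateField.adjoin L (F i : Set K)) < γ i)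
    (_ : ∀ i, i ∉ I → 2 ≤ γ i)
    (D : ∀ i, Derivation ℂ (F i) (F i)) (_ : ∀ i, D i ≠ 0) (δ : K) (_ : δ ≠ 0)
    (_ : ∀ c : ∀ i, F i, (∀ i, IsRegD (D i) (c i)) →
      Algebra.trace L K ((∏ i, (c i : K)) * δ) = 0)
    (_ : ∀ i j, i ∉ I → j ∉ I → i ≠ j → Module.finrank L' K + 3 ≤ γ i + γ j)
    (_ : (∀ i j, i ∉ I → j ∉ I → i = j) ∨ ∀ i, i ∉ I → Module.finrank L' K + 1 ≤ 2 * γ i),
    (∃ i, i ∉ I ∧ γ i ≤ Module.finrank L' K ∧ ∀ j, j ≠ i → ∀ z ∈ F j, z ∈ L') ∧
    ∀ c : ∀ i, F i, (∀ i, IsRegD (D i) (c i)) →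
      Algebra.trace L' K ((∏ i, (c i : K)) * δ) = 0

end Pool.Agent.Helper320.PC
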