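import Pool.Agent.Helper320.PC.Stm

/-!
Images of products of curves: statements about values and derivatives of regular differentials.
-/

set_option autoImplicit false
set_option linter.overlappingInstances false
set_option linter.unusedSectionVars false

open FF Pool.Agent.W603.LV

namespace Pool.Agent.Helper320.PC

/-- The space of the functions of a point `σ` of the curve in `Ω × Ω`, which is generated by the
values `(σ c, σ (D c))` of the `c` with `IsRegD D c`. -/
def WspJ {k F : Type} [Field k] [Field F] [Algebra k F] (Ω : Type) [Field Ω] [Algebra k Ω]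
    (D : Derivation k F F) : Submodule Ω ((F →ₐ[k] Ω) → Ω × Ω) :=
  Submodule.span Ω
    (Set.range fun c : {c : F // IsRegD D c} => fun σ : F →ₐ[k] Ω => (σ c.1, σ (D c.1)))

/-- Riemann-Roch for effective divisors of small degree on a curve of given gonality -/
def S_RRM : Prop :=
  ∀ {k F : Type} [Field k] [Field F] [Algebra k F] [CharZero k] [IsFF k F] [IsAlgClosed k]
    (Z : Place k F → ℕ) (T : Finset (Place k F)) (_ : ∀ Q, Q ∉ T → Z Q = 0) (P : Place k F)
    (_ : ∀ t : F, Transcendental k t →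
      (∑ Q ∈ T, Z Q) + 2 ≤ Module.finrank (IntermediateField.adjoin k {t}) F)
    {D : Derivation k F F} (_ : D ≠ 0),
    ∃ f : F, f ≠ 0 ∧ (∀ Q : Place k F, vo Q D + Z Q ≤ Q.ord f) ∧ P.ord f = vo P D + Z P

/-- separation of the points of order one of a curve over an arbitrary extension of the field of
constants -/
def S_SEPJ : Prop :=
  ∀ {k F Ω : Type} [Field k] [Field F] [Algebra k F] [CharZero k] [IsFF k F] [IsAlgClosed k]
    [Field Ω] [Algebra k Ω] {T : Finset (F →ₐ[k] Ω)} {q : F →ₐ[k] Ω} (_ : q ∉ T)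
    (_ : ∀ t : F, Transcendental k t →
      2 * T.card + 3 ≤ Module.finrank (IntermediateField.adjoin k {t}) F)
    {D : Derivation k F F} (_ : D ≠ 0),
    (∃ w ∈ WspJ Ω D, (w q).1 ≠ 0 ∧ ∀ t ∈ T, w t = 0) ∧
      ∃ w ∈ WspJ Ω D, (w q).1 = 0 ∧ (w q).2 ≠ 0 ∧ ∀ t ∈ T, w t = 0

/-- the relation between the embeddings, with derivatives -/
def S_MULJ : Prop :=
  ∀ {k K L Ω : Type} [Field k] [Field K] [Field L] [Field Ω] [CharZero L] [Algebra k K]
    [Algebra k L] [Algebra L K] [IsScalarTower k L K] [Algebra k Ω] [Algebra L Ω]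
    [IsScalarTower k L Ω] [FiniteDimensional L K] [IsAlgClosed Ω] {n : ℕ}
    (F : Fin n → IntermediateField k K) (D : ∀ i, Derivation k (F i) (F i)) (a δ : K)
    (lam : Fin n → K)
    (_ : ∀ c : ∀ i, F i, (∀ i, IsRegD (D i) (c i)) →
      Algebra.trace L K ((∏ i, (c i : K)) * a +
        ∑ l, δ * lam l * (D l (c l) : K) * ∏ i ∈ Finset.univ.erase l, (c i : K)) = 0)
    (w : ∀ i, (F i →ₐ[k] Ω) → Ω × Ω) (_ : ∀ i, w i ∈ WspJ Ω (D i)),
    ∑ σ : K →ₐ[L] Ω, ((∏ i, (w i ((σ.restrictScalars k).comp (F i).val)).1) * σ a +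
      ∑ l, σ δ * σ (lam l) * (w l ((σ.restrictScalars k).comp (F l).val)).2 *
        ∏ i ∈ Finset.univ.erase l, (w i ((σ.restrictScalars k).comp (F i).val)).1) = 0

/-- The relation between the traces, with derivatives: if twice the degree over `L` of the factors
`F i`, `i ∈ I`, is smaller than their gonality then a relation with derivatives implies the relation
over the compositum `L'` of `L` with these factors. -/
def S_COREJ : Prop :=
  ∀ {K L : Type} [Field K] [Field L] [Algebra ℂ K] [Algebra ℂ L] [Algebra L K]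
    [IsScalarTower ℂ L K] [FiniteDimensional L K] {n : ℕ} (F : Fin n → IntermediateField ℂ K)
    [∀ i, IsFF ℂ (F i)] (_ : ⨆ i, F i = ⊤) (I : Finset (Fin n)) (γ : Fin n → ℕ)
    (_ : ∀ i, GonGe ℂ (F i) (γ i)) (L' : IntermediateField L K)
    (_ : L' = IntermediateField.adjoin L (⋃ i ∈ I, (F i : Set K)))
    (_ : ∀ i ∈ I, 2 * Module.finrank L (IntermediateField.adjoin L (F i : Set K)) < γ i)
    (D : ∀ i, Derivation ℂ (F i) (F i)) (_ : ∀ i, D i ≠ 0) (a δ : K)
    (lam : Fin n → K) (l₀ : Fin n) (_ : l₀ ∈ I) (_ : lam l₀ ≠ 0) (_ : lam l₀ ∈ L')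
    (_ : ∀ c : ∀ i, F i, (∀ i, IsRegD (D i) (c i)) →
      Algebra.trace L K ((∏ i, (c i : K)) * a +
        ∑ l, δ * lam l * (D l (c l) : K) * ∏ i ∈ Finset.univ.erase l, (c i : K)) = 0),
    ∀ c : ∀ i, F i, (∀ i, i ∉ I → IsRegD (D i) (c i)) →
      Algebra.trace L' K ((∏ i, (c i : K)) * δ) = 0

end Pool.Agent.Helper320.PC
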